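import Mathlib

set_option autoImplicit false

namespace Pool.Agent.H67Tern

/-- strict application: evaluates `x` to a literal before passing it on (kernel reduction) -/
def force {β : Type} (x : ℕ) (f : ℕ → β) : β :=
  Nat.rec (motive := fun _ => β) (f 0) (fun n _ => f (Nat.succ n)) x

lemma force_eq {β : Type} (x : ℕ) (f : ℕ → β) : force x f = f x := by
  cases x <;> rfl

/-- encoded family -/
def enc (q : ℕ) (L : List ℕ) : ℕ := L.foldr (fun s x => q ^ s + x) 0

def leaf (q x : ℕ) : Bool :=
  Nat.ble (Nat.mul (Nat.mod x q) (Nat.div x (Nat.pow q 3)))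
    (Nat.mul (Nat.mod (Nat.div x q) q) (Nat.mod (Nat.div x (Nat.pow q 2)) q))

/-- full check of all descendants: contract, delete, keep -/
def chk (q : ℕ) : List ℕ → ℕ → Bool :=
  List.rec (motive := fun _ => ℕ → Bool) (fun x => leaf q x)
    (fun Q _ ih x => force (Nat.div x Q) fun h => force (Nat.mod x Q) fun l =>
      ih h && (ih l && force (Nat.add h l) ih))

/-- as `chk` but skipping the trivial descendant -/
def chkTop (q : ℕ) : List ℕ → ℕ → Bool :=
  List.rec (motive := fun _ => ℕ → Bool) (fun _ => true)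
    (fun Q Qs ih x => force (Nat.div x Q) fun h => force (Nat.mod x Q) fun l =>
      chk q Qs h && (chk q Qs l && force (Nat.add h l) ih))

/-- move bit `p` to position `0`, shifting the lower ones up -/
def mv (p B : ℕ) : ℕ := 2 * ((B / 2 ^ (p + 1)) * 2 ^ p + B % 2 ^ p) + (B / 2 ^ p) % 2

end Pool.Agent.H67Tern
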