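import Mathlib
import Pool.Agent.H67Tern.Chk

set_option autoImplicit false

namespace Pool.Agent.H67Tern

open Classical

lemma enc_nil (q : ℕ) : enc q [] = 0 := rfl
lemma enc_cons (q s : ℕ) (L : List ℕ) : enc q (s :: L) = q ^ s + enc q L := rfl

lemma enc_append (q : ℕ) (L L' : List ℕ) : enc q (L ++ L') = enc q L + enc q L' := by
  induction L with
  | nil => simp [enc_nil]
  | cons s L ih => rw [List.cons_append, enc_cons, enc_cons, ih]; ring

lemma enc_le {q N : ℕ} (hq : 0 < q) : ∀ {L : List ℕ}, (∀ s ∈ L, s < N) →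
    enc q L ≤ L.length * q ^ (N - 1)
  | [], _ => by simp [enc_nil]
  | s :: L, h => by
    have h1 : enc q L ≤ L.length * q ^ (N - 1) := enc_le hq (fun t ht => h t (by simp [ht]))
    have h2 : q ^ s ≤ q ^ (N - 1) := by
      apply Nat.pow_le_pow_right hq
      have := h s (by simp)
      omega
    rw [enc_cons, List.length_cons]
    linarith

lemma enc_lt {q N : ℕ} {L : List ℕ} (hL : ∀ s ∈ L, s < N) (hlen : L.length < q) :
    enc q L < q ^ N := by
  have hq : 0 < q := by omega
  rcases Nat.eq_zero_or_pos N with h0 | h0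
  · subst h0
    have : L = [] := by
      cases L with
      | nil => rfl
      | cons s L => exact absurd (hL s (by simp)) (by omega)
    subst this
    simp [enc_nil]
  · have h1 := enc_le hq hL
    have h2 : L.length * q ^ (N - 1) < q * q ^ (N - 1) :=
      Nat.mul_lt_mul_of_pos_right hlen (pow_pos hq _)
    have h3 : q * q ^ (N - 1) = q ^ N := by
      rw [← pow_succ']
      congr 1
      omega
    omega

/-- masks above `N`, reduced -/
def hiP (N : ℕ) (L : List ℕ) : List ℕ := (L.filter (fun s => decide (N ≤ s))).map (fun s => s - N)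
/-- masks below `N` -/
def loP (N : ℕ) (L : List ℕ) : List ℕ := L.filter (fun s => !decide (N ≤ s))

lemma enc_split (q N : ℕ) (L : List ℕ) :
    enc q L = q ^ N * enc q (hiP N L) + enc q (loP N L) := by
  induction L with
  | nil => simp [enc, hiP, loP]
  | cons s L ih =>
    rw [enc_cons, ih]
    by_cases h : N ≤ s
    · have e1 : hiP N (s :: L) = (s - N) :: hiP N L := by simp [hiP, h]
      have e2 : loP N (s :: L) = loP N L := by simp [loP, h]
      rw [e1, e2, enc_cons, mul_add, ← pow_add]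
      have : N + (s - N) = s := by omega
      rw [this]
      ring
    · have e1 : hiP N (s :: L) = hiP N L := by simp [hiP, h]
      have e2 : loP N (s :: L) = s :: loP N L := by simp [loP, h]
      rw [e1, e2, enc_cons]
      ring

lemma loP_lt {N : ℕ} {L : List ℕ} : ∀ s ∈ loP N L, s < N := by
  intro s hs
  simp [loP] at hs
  exact hs.2

lemma hiP_lt {N : ℕ} {L : List ℕ} (h : ∀ s ∈ L, s < 2 * N) : ∀ s ∈ hiP N L, s < N := by
  intro s hs
  simp only [hiP, List.mem_map, List.mem_filter, decide_eq_true_eq] at hs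
  obtain ⟨t, ⟨ht, hN⟩, rfl⟩ := hs
  have := h t ht
  omega

lemma length_hi_lo (N : ℕ) (L : List ℕ) : (hiP N L ++ loP N L).length = L.length := by
  rw [List.length_append, hiP, loP, List.length_map]
  exact (List.length_eq_length_filter_add (l := L) (fun s => decide (N ≤ s))).symm

lemma length_lo (N : ℕ) (L : List ℕ) : (loP N L).length ≤ L.length := List.length_filter_le _ _
lemma length_hi (N : ℕ) (L : List ℕ) : (hiP N L).length ≤ L.length := by
  rw [hiP, List.length_map]; exact List.length_filter_le _ _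

lemma enc_div {q N : ℕ} {L : List ℕ} (hlen : L.length < q) :
    enc q L / q ^ N = enc q (hiP N L) := by
  have hq : 0 < q := by omega
  have h1 : enc q (loP N L) < q ^ N := enc_lt loP_lt (lt_of_le_of_lt (length_lo N L) hlen)
  rw [enc_split q N L, Nat.mul_add_div (pow_pos hq N), Nat.div_eq_of_lt h1, add_zero]

lemma enc_mod {q N : ℕ} {L : List ℕ} (hlen : L.length < q) :
    enc q L % q ^ N = enc q (loP N L) := by
  have h1 : enc q (loP N L) < q ^ N := enc_lt loP_lt (lt_of_le_of_lt (length_lo N L) hlen)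
  rw [enc_split q N L, Nat.mul_add_mod, Nat.mod_eq_of_lt h1]

/-- the predicate that the mask `s` satisfies the constraints `C`, `D` on the bits `2, …, m+1`
and has the two lowest bits equal to `j` -/
def Pr (m : ℕ) (C D : ℕ → Prop) (j s : ℕ) : Prop :=
  (∀ i < m, (C i → s.testBit (i + 2) = true) ∧ (D i → s.testBit (i + 2) = false)) ∧ s % 4 = j

noncomputable def K (m : ℕ) (C D : ℕ → Prop) (j : ℕ) (L : List ℕ) : ℕ :=
  L.countP (fun s => decide (Pr m C D j s))

lemma testBit_sub {N b s : ℕ} (hN : N = 2 ^ b) (h1 : N ≤ s) (h2 : s < 2 * N) {i : ℕ} (hi : i < b) :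
    (s - N).testBit i = s.testBit i := by
  subst hN
  obtain ⟨t, rfl⟩ := Nat.exists_eq_add_of_le h1
  rw [Nat.add_sub_cancel_left]
  have ht : t < 2 ^ b := by omega
  have := Nat.testBit_two_pow_add_gt hi t
  exact this.symm

lemma testBit_top {N b s : ℕ} (hN : N = 2 ^ b) (h1 : N ≤ s) (h2 : s < 2 * N) :
    s.testBit b = true := by
  subst hN
  obtain ⟨t, rfl⟩ := Nat.exists_eq_add_of_le h1
  have ht : t < 2 ^ b := by omega
  rw [Nat.testBit_two_pow_add_eq, Nat.testBit_lt_two_pow ht]
  rfl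

lemma testBit_low {N b s : ℕ} (hN : N = 2 ^ b) (h1 : s < N) : s.testBit b = false := by
  subst hN
  exact Nat.testBit_lt_two_pow h1

lemma sub_mod4 {N b s : ℕ} (hN : N = 2 ^ (b + 2)) (h1 : N ≤ s) : (s - N) % 4 = s % 4 := by
  have : N = 4 * 2 ^ b := by rw [hN, pow_add]; ring
  omega

lemma Pr_hi {m : ℕ} {C D : ℕ → Prop} {j s : ℕ} (hs : s < 2 * 2 ^ (m + 2)) (h1 : 2 ^ (m + 2) ≤ s)
    (hD : ¬ D m) : Pr (m + 1) C D j s ↔ Pr m C D j (s - 2 ^ (m + 2)) := by
  unfold Pr
  rw [sub_mod4 rfl h1]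
  apply and_congr_left
  intro _
  constructor
  · intro h i hi
    rw [testBit_sub rfl h1 hs (by omega)]
    exact h i (by omega)
  · intro h i hi
    rcases Nat.lt_succ_iff_lt_or_eq.mp hi with hi' | rfl
    · have := h i hi'
      rwa [testBit_sub rfl h1 hs (by omega)] at this
    · exact ⟨fun _ => testBit_top rfl h1 hs, fun hd => absurd hd hD⟩

lemma Pr_hi_D {m : ℕ} {C D : ℕ → Prop} {j s : ℕ} (hs : s < 2 * 2 ^ (m + 2)) (h1 : 2 ^ (m + 2) ≤ s)
    (hD : D m) : ¬ Pr (m + 1) C D j s := by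
  rintro ⟨h, -⟩
  have := (h m (by omega)).2 hD
  rw [testBit_top rfl h1 hs] at this
  exact absurd this (by decide)

lemma Pr_lo {m : ℕ} {C D : ℕ → Prop} {j s : ℕ} (h1 : s < 2 ^ (m + 2))
    (hC : ¬ C m) : Pr (m + 1) C D j s ↔ Pr m C D j s := by
  unfold Pr
  apply and_congr_left
  intro _
  constructor
  · intro h i hi
    exact h i (by omega)
  · intro h i hi
    rcases Nat.lt_succ_iff_lt_or_eq.mp hi with hi' | rfl
    · exact h i hi'
    · exact ⟨fun hc => absurd hc hC, fun _ => testBit_low rfl h1⟩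

lemma Pr_lo_C {m : ℕ} {C D : ℕ → Prop} {j s : ℕ} (h1 : s < 2 ^ (m + 2))
    (hC : C m) : ¬ Pr (m + 1) C D j s := by
  rintro ⟨h, -⟩
  have := (h m (by omega)).1 hC
  rw [testBit_low rfl h1] at this
  exact absurd this (by decide)

lemma K_split (m : ℕ) (C D : ℕ → Prop) (j : ℕ) (L : List ℕ) (N : ℕ) :
    K (m + 1) C D j L = (L.filter (fun s => decide (N ≤ s))).countP
        (fun s => decide (Pr (m + 1) C D j s)) +
      (loP N L).countP (fun s => decide (Pr (m + 1) C D j s)) := by
  rw [K, loP]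
  exact List.countP_eq_countP_filter_add _ _ _

lemma K_hi {m : ℕ} {C D : ℕ → Prop} (j : ℕ) {L : List ℕ} (hL : ∀ s ∈ L, s < 2 * 2 ^ (m + 2))
    (hD : ¬ D m) :
    (L.filter (fun s => decide (2 ^ (m + 2) ≤ s))).countP
        (fun s => decide (Pr (m + 1) C D j s)) = K m C D j (hiP (2 ^ (m + 2)) L) := by
  rw [K, hiP, List.countP_map]
  apply List.countP_congr
  intro s hs
  simp only [List.mem_filter, decide_eq_true_eq] at hs
  simp only [Function.comp_apply, decide_eq_true_eq]
  exact Pr_hi (hL s hs.1) hs.2 hD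

lemma K_lo {m : ℕ} {C D : ℕ → Prop} (j : ℕ) {L : List ℕ}
    (hC : ¬ C m) :
    (loP (2 ^ (m + 2)) L).countP
        (fun s => decide (Pr (m + 1) C D j s)) = K m C D j (loP (2 ^ (m + 2)) L) := by
  rw [K]
  apply List.countP_congr
  intro s hs
  simp only [decide_eq_true_eq]
  exact Pr_lo (loP_lt s hs) hC

lemma K_contract {m : ℕ} {C D : ℕ → Prop} (j : ℕ) {L : List ℕ} (hL : ∀ s ∈ L, s < 2 * 2 ^ (m + 2))
    (hC : C m) (hD : ¬ D m) : K (m + 1) C D j L = K m C D j (hiP (2 ^ (m + 2)) L) := by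
  rw [K_split m C D j L (2 ^ (m + 2)), K_hi j hL hD]
  have : (loP (2 ^ (m + 2)) L).countP (fun s => decide (Pr (m + 1) C D j s)) = 0 := by
    rw [List.countP_eq_zero]
    intro s hs
    simp only [decide_eq_true_eq]
    exact Pr_lo_C (loP_lt s hs) hC
  rw [this, add_zero]

lemma K_delete {m : ℕ} {C D : ℕ → Prop} (j : ℕ) {L : List ℕ} (hL : ∀ s ∈ L, s < 2 * 2 ^ (m + 2))
    (hC : ¬ C m) (hD : D m) : K (m + 1) C D j L = K m C D j (loP (2 ^ (m + 2)) L) := by
  rw [K_split m C D j L (2 ^ (m + 2)), K_lo j hC]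
  have : (L.filter (fun s => decide (2 ^ (m + 2) ≤ s))).countP
      (fun s => decide (Pr (m + 1) C D j s)) = 0 := by
    rw [List.countP_eq_zero]
    intro s hs
    simp only [List.mem_filter, decide_eq_true_eq] at hs
    simp only [decide_eq_true_eq]
    exact Pr_hi_D (hL s hs.1) hs.2 hD
  rw [this, zero_add]

lemma K_append (m : ℕ) (C D : ℕ → Prop) (j : ℕ) (L L' : List ℕ) :
    K m C D j (L ++ L') = K m C D j L + K m C D j L' := by
  unfold K; exact List.countP_append

lemma K_keep {m : ℕ} {C D : ℕ → Prop} (j : ℕ) {L : List ℕ} (hL : ∀ s ∈ L, s < 2 * 2 ^ (m + 2))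
    (hC : ¬ C m) (hD : ¬ D m) : K (m + 1) C D j L =
      K m C D j (hiP (2 ^ (m + 2)) L ++ loP (2 ^ (m + 2)) L) := by
  rw [K_split m C D j L (2 ^ (m + 2)), K_hi j hL hD, K_lo j hC, K_append]

/-- the list of moduli for `m` levels -/
def Qs (q : ℕ) : ℕ → List ℕ
  | 0 => []
  | m + 1 => q ^ (2 ^ (m + 2)) :: Qs q m

/-- the four counts inequality -/
def Good (m : ℕ) (C D : ℕ → Prop) (L : List ℕ) : Prop :=
  K m C D 3 L * K m C D 0 L ≤ K m C D 1 L * K m C D 2 L

lemma enc_small {q : ℕ} : ∀ {L : List ℕ}, (∀ s ∈ L, s < 4) →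
    enc q L = K 0 (fun _ => False) (fun _ => False) 0 L
      + K 0 (fun _ => False) (fun _ => False) 1 L * q
      + K 0 (fun _ => False) (fun _ => False) 2 L * q ^ 2
      + K 0 (fun _ => False) (fun _ => False) 3 L * q ^ 3
  | [], _ => by simp [enc, K]
  | s :: L, h => by
    have ih := enc_small (q := q) (L := L) (fun t ht => h t (by simp [ht]))
    have hs : s < 4 := h s (by simp)
    rw [enc_cons, ih]
    have hk : ∀ j, K 0 (fun _ => False) (fun _ => False) j (s :: L) =
        K 0 (fun _ => False) (fun _ => False) j L + if s % 4 = j then 1 else 0 := by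
      intro j
      simp [K, Pr, List.countP_cons]
    rw [hk, hk, hk, hk]
    interval_cases s <;> simp <;> ring

lemma K_zero (C D : ℕ → Prop) (j : ℕ) (L : List ℕ) :
    K 0 C D j L = K 0 (fun _ => False) (fun _ => False) j L := by
  simp [K, Pr]

lemma K_le (m : ℕ) (C D : ℕ → Prop) (j : ℕ) (L : List ℕ) : K m C D j L ≤ L.length :=
  List.countP_le_length

lemma leaf_sound {q : ℕ} {L : List ℕ} (hL : ∀ s ∈ L, s < 4) (hlen : L.length < q)
    (h : leaf q (enc q L) = true) (C D : ℕ → Prop) : Good 0 C D L := by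
  unfold Good
  rw [K_zero C D 3, K_zero C D 0, K_zero C D 1, K_zero C D 2]
  set c := fun j => K 0 (fun _ => False) (fun _ => False) j L with hc
  have hlt : ∀ j, c j < q := fun j => lt_of_le_of_lt (K_le _ _ _ _ _) hlen
  have hq : 0 < q := by omega
  have he := enc_small (q := q) hL
  change enc q L = c 0 + c 1 * q + c 2 * q ^ 2 + c 3 * q ^ 3 at he
  have e0 : enc q L % q = c 0 := by
    have : enc q L = c 0 + q * (c 1 + c 2 * q + c 3 * q ^ 2) := by rw [he]; ring
    rw [this, Nat.add_mul_mod_self_left, Nat.mod_eq_of_lt (hlt 0)]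
  have d1 : enc q L / q = c 1 + q * (c 2 + c 3 * q) := by
    have : enc q L = c 0 + q * (c 1 + q * (c 2 + c 3 * q)) := by rw [he]; ring
    rw [this, Nat.add_mul_div_left _ _ hq, Nat.div_eq_of_lt (hlt 0), zero_add]
  have e1 : enc q L / q % q = c 1 := by
    rw [d1, Nat.add_mul_mod_self_left, Nat.mod_eq_of_lt (hlt 1)]
  have d2 : enc q L / q ^ 2 = c 2 + q * c 3 := by
    rw [pow_two, ← Nat.div_div_eq_div_mul, d1]
    rw [Nat.add_mul_div_left _ _ hq, Nat.div_eq_of_lt (hlt 1), zero_add]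
    ring
  have e2 : enc q L / q ^ 2 % q = c 2 := by
    rw [d2, Nat.add_mul_mod_self_left, Nat.mod_eq_of_lt (hlt 2)]
  have e3 : enc q L / q ^ 3 = c 3 := by
    rw [pow_succ, ← Nat.div_div_eq_div_mul, d2, Nat.add_mul_div_left _ _ hq,
      Nat.div_eq_of_lt (hlt 2), zero_add]
  have hleaf : leaf q (enc q L) = Nat.ble ((enc q L % q) * (enc q L / q ^ 3))
    ((enc q L / q % q) * (enc q L / q ^ 2 % q)) := rfl
  rw [hleaf, e0, e1, e2, e3, Nat.ble_eq] at h
  change c 3 * c 0 ≤ c 1 * c 2
  rw [mul_comm]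
  exact h

lemma chk_nil (q x : ℕ) : chk q [] x = leaf q x := rfl
lemma chk_cons (q Q : ℕ) (l : List ℕ) (x : ℕ) : chk q (Q :: l) x =
    (chk q l (x / Q) && (chk q l (x % Q) && chk q l (x / Q + x % Q))) := by
  change (force (x / Q) fun h => force (x % Q) fun l' =>
      chk q l h && (chk q l l' && force (h + l') (chk q l))) = _
  rw [force_eq, force_eq, force_eq]

lemma chkTop_cons (q Q : ℕ) (l : List ℕ) (x : ℕ) : chkTop q (Q :: l) x =
    (chk q l (x / Q) && (chk q l (x % Q) && chkTop q l (x / Q + x % Q))) := by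
  change (force (x / Q) fun h => force (x % Q) fun l' =>
      chk q l h && (chk q l l' && force (h + l') (chkTop q l))) = _
  rw [force_eq, force_eq, force_eq]

lemma two_mul_pow (m : ℕ) : 2 * 2 ^ (m + 2) = 2 ^ (m + 1 + 2) := by
  rw [show m + 1 + 2 = (m + 2) + 1 by ring, pow_succ]; ring

lemma chk_sound {q : ℕ} : ∀ (m : ℕ) {L : List ℕ}, (∀ s ∈ L, s < 2 ^ (m + 2)) → L.length < q →
    chk q (Qs q m) (enc q L) = true → ∀ C D : ℕ → Prop, (∀ i, ¬ (C i ∧ D i)) → Good m C D L
  | 0, L, hL, hlen, h, C, D, _ => leaf_sound (by simpa using hL) hlen h C D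
  | m + 1, L, hL, hlen, h, C, D, hCD => by
    have hL' : ∀ s ∈ L, s < 2 * 2 ^ (m + 2) := by
      intro s hs; rw [two_mul_pow]; exact hL s hs
    rw [Qs, chk_cons, enc_div hlen, enc_mod hlen, ← enc_append, Bool.and_eq_true,
      Bool.and_eq_true] at h
    obtain ⟨h1, h2, h3⟩ := h
    unfold Good
    by_cases hC : C m
    · have hD : ¬ D m := fun hd => hCD m ⟨hC, hd⟩
      simp only [K_contract _ hL' hC hD]
      exact chk_sound m (hiP_lt hL') (lt_of_le_of_lt (length_hi _ _) hlen) h1 C D hCD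
    · by_cases hD : D m
      · simp only [K_delete _ hL' hC hD]
        exact chk_sound m loP_lt (lt_of_le_of_lt (length_lo _ _) hlen) h2 C D hCD
      · simp only [K_keep _ hL' hC hD]
        refine chk_sound m ?_ (by rw [length_hi_lo]; exact hlen) h3 C D hCD
        intro s hs
        rcases List.mem_append.mp hs with hs | hs
        · exact hiP_lt hL' s hs
        · exact loP_lt s hs

lemma chkTop_sound {q : ℕ} : ∀ (m : ℕ) {L : List ℕ}, (∀ s ∈ L, s < 2 ^ (m + 2)) → L.length < q →
    chkTop q (Qs q m) (enc q L) = true → ∀ C D : ℕ → Prop, (∀ i, ¬ (C i ∧ D i)) →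
    (∃ i < m, C i ∨ D i) → Good m C D L
  | 0, L, hL, hlen, h, C, D, _, ⟨i, hi, _⟩ => absurd hi (by omega)
  | m + 1, L, hL, hlen, h, C, D, hCD, ⟨i, hi, hi2⟩ => by
    have hL' : ∀ s ∈ L, s < 2 * 2 ^ (m + 2) := by
      intro s hs; rw [two_mul_pow]; exact hL s hs
    rw [Qs, chkTop_cons, enc_div hlen, enc_mod hlen, ← enc_append, Bool.and_eq_true,
      Bool.and_eq_true] at h
    obtain ⟨h1, h2, h3⟩ := h
    unfold Good
    by_cases hC : C m
    · have hD : ¬ D m := fun hd => hCD m ⟨hC, hd⟩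
      simp only [K_contract _ hL' hC hD]
      exact chk_sound m (hiP_lt hL') (lt_of_le_of_lt (length_hi _ _) hlen) h1 C D hCD
    · by_cases hD : D m
      · simp only [K_delete _ hL' hC hD]
        exact chk_sound m loP_lt (lt_of_le_of_lt (length_lo _ _) hlen) h2 C D hCD
      · simp only [K_keep _ hL' hC hD]
        have hne : i ≠ m := by
          rintro rfl
          rcases hi2 with h | h
          · exact hC h
          · exact hD h
        refine chkTop_sound m ?_ (by rw [length_hi_lo]; exact hlen) h3 C D hCD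
          ⟨i, by omega, hi2⟩
        intro s hs
        rcases List.mem_append.mp hs with hs | hs
        · exact hiP_lt hL' s hs
        · exact loP_lt s hs

end Pool.Agent.H67Tern
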