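import Mathlib
import Pool.Agent.H67Tern.ChkSound

set_option autoImplicit false

namespace Pool.Agent.H67Tern

open Classical

lemma mv_testBit_zero (p B : ℕ) : (mv p B).testBit 0 = B.testBit p := by
  unfold mv
  rw [Nat.testBit_zero, Nat.testBit_eq_decide_div_mod_eq]
  have h : (2 * (B / 2 ^ (p + 1) * 2 ^ p + B % 2 ^ p) + B / 2 ^ p % 2) % 2 = B / 2 ^ p % 2 := by
    omega
  rw [h]

lemma mv_div_two (p B : ℕ) : mv p B / 2 = (B / 2 ^ (p + 1)) * 2 ^ p + B % 2 ^ p := by
  unfold mv
  omega

lemma mv_testBit_succ (p B i : ℕ) :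
    (mv p B).testBit (i + 1) = if i < p then B.testBit i else B.testBit (i + 1) := by
  rw [Nat.testBit_succ, mv_div_two]
  have hlt : B % 2 ^ p < 2 ^ p := Nat.mod_lt _ (by positivity)
  rw [mul_comm, Nat.testBit_two_pow_mul_add _ hlt]
  by_cases h : i < p
  · rw [if_pos h, if_pos h, Nat.testBit_mod_two_pow]
    simp [h]
  · rw [if_neg h, if_neg h, Nat.testBit_div_two_pow]
    congr 1
    omega

/-- the two-step move for `e < f` -/
lemma mv2_zero (e f B : ℕ) (hef : e < f) : (mv f (mv e B)).testBit 0 = B.testBit f := by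
  rw [mv_testBit_zero]
  obtain ⟨g, rfl⟩ : ∃ g, f = g + 1 := ⟨f - 1, by omega⟩
  rw [mv_testBit_succ, if_neg (by omega)]

lemma mv2_one (e f B : ℕ) (hef : e < f) : (mv f (mv e B)).testBit 1 = B.testBit e := by
  rw [show (1 : ℕ) = 0 + 1 by rfl, mv_testBit_succ, if_pos (by omega), mv_testBit_zero]

/-- original position of the bit `i + 2` -/
def orig (e f i : ℕ) : ℕ := if i < e then i else if i + 1 < f then i + 1 else i + 2

lemma mv2_bit (e f B i : ℕ) (hef : e < f) :
    (mv f (mv e B)).testBit (i + 2) = B.testBit (orig e f i) := by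
  rw [show i + 2 = (i + 1) + 1 by rfl, mv_testBit_succ]
  unfold orig
  by_cases h1 : i < e
  · rw [if_pos (by omega), mv_testBit_succ, if_pos h1, if_pos h1]
  · by_cases h2 : i + 1 < f
    · rw [if_pos h2, mv_testBit_succ, if_neg h1, if_neg h1, if_pos h2]
    · rw [if_neg h2, mv_testBit_succ, if_neg (by omega), if_neg h1, if_neg h2]

/-- every position other than `e` and `f` is of the form `orig e f i` -/
lemma exists_orig {e f n : ℕ} (hef : e < f) (hf : f < n) {k : ℕ} (hk : k < n) (hke : k ≠ e)
    (hkf : k ≠ f) : ∃ i < n - 2, orig e f i = k := by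
  unfold orig
  by_cases h1 : k < e
  · exact ⟨k, by omega, by rw [if_pos h1]⟩
  · by_cases h2 : k < f
    · refine ⟨k - 1, by omega, ?_⟩
      rw [if_neg (by omega), if_pos (by omega)]
      omega
    · refine ⟨k - 2, by omega, ?_⟩
      rw [if_neg (by omega), if_neg (by omega)]
      omega

lemma orig_lt {e f n i : ℕ} (hef : e < f) (hf : f < n) (hi : i < n - 2) : orig e f i < n := by
  unfold orig
  split_ifs <;> omega

lemma orig_ne {e f i : ℕ} (hef : e < f) : orig e f i ≠ e ∧ orig e f i ≠ f := by
  unfold orig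
  split_ifs <;> constructor <;> omega

/-- number of masks containing the positions of `U` and avoiding the positions of `V` -/
noncomputable def cnt (n : ℕ) (L : List ℕ) (U V : ℕ → Prop) : ℕ :=
  L.countP (fun s => decide (∀ i < n, (U i → s.testBit i = true) ∧ (V i → s.testBit i = false)))

lemma mod4_of_bits (s : ℕ) : s % 4 = (if s.testBit 0 then 1 else 0) + (if s.testBit 1 then 2 else 0) := by
  rw [Nat.testBit_zero, Nat.testBit_succ, Nat.testBit_zero]
  simp only [decide_eq_true_eq]
  split_ifs <;> omega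

lemma mv_lt {p n B : ℕ} (hp : p < n) (hB : B < 2 ^ n) : mv p B < 2 ^ n := by
  apply Nat.lt_pow_two_of_testBit
  intro i hi
  obtain ⟨j, rfl⟩ : ∃ j, i = j + 1 := ⟨i - 1, by omega⟩
  rw [mv_testBit_succ, if_neg (by omega)]
  exact Nat.testBit_lt_two_pow (lt_of_lt_of_le hB (Nat.pow_le_pow_right (by norm_num) hi))

lemma K_eq_cnt {n e f : ℕ} (hef : e < f) (hf : f < n) (L : List ℕ) (C D : ℕ → Prop)
    (hCe : ¬ C e) (hCf : ¬ C f) (hDe : ¬ D e) (hDf : ¬ D f) (a b : Prop) (j : ℕ)
    (hj : j = (if b then 1 else 0) + (if a then 2 else 0)) :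
    K (n - 2) (fun i => C (orig e f i)) (fun i => D (orig e f i)) j
        (L.map (fun B => mv f (mv e B))) =
      cnt n L (fun i => C i ∨ (i = e ∧ a) ∨ (i = f ∧ b))
        (fun i => D i ∨ (i = e ∧ ¬ a) ∨ (i = f ∧ ¬ b)) := by
  unfold K cnt
  rw [List.countP_map]
  apply List.countP_congr
  intro s _
  simp only [Function.comp_apply, decide_eq_true_eq]
  unfold Pr
  simp only [mv2_bit _ _ _ _ hef]
  rw [mod4_of_bits, mv2_zero e f s hef, mv2_one e f s hef]
  constructor
  · rintro ⟨h1, h2⟩ k hk
    have hbits : (s.testBit e = true ↔ a) ∧ (s.testBit f = true ↔ b) := by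
      rw [hj] at h2
      by_cases ha : a <;> by_cases hb : b <;> simp only [ha, hb, if_true, if_false] at h2 ⊢ <;>
        cases he : s.testBit e <;> cases hf' : s.testBit f <;> simp [he, hf'] at h2 ⊢
    by_cases hke : k = e
    · subst hke
      constructor
      · rintro (h | ⟨-, h⟩ | ⟨h, -⟩)
        · exact absurd h hCe
        · exact hbits.1.mpr h
        · omega
      · rintro (h | ⟨-, h⟩ | ⟨h, -⟩)
        · exact absurd h hDe
        · cases hh : s.testBit k
          · rfl
          · exact absurd (hbits.1.mp hh) h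
        · omega
    · by_cases hkf : k = f
      · subst hkf
        constructor
        · rintro (h | ⟨h, -⟩ | ⟨-, h⟩)
          · exact absurd h hCf
          · omega
          · exact hbits.2.mpr h
        · rintro (h | ⟨h, -⟩ | ⟨-, h⟩)
          · exact absurd h hDf
          · omega
          · cases hh : s.testBit k
            · rfl
            · exact absurd (hbits.2.mp hh) h
      · obtain ⟨i, hi, rfl⟩ := exists_orig hef hf hk hke hkf
        constructor
        · rintro (h | ⟨h, -⟩ | ⟨h, -⟩)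
          · exact (h1 i hi).1 h
          · exact absurd h hke
          · exact absurd h hkf
        · rintro (h | ⟨h, -⟩ | ⟨h, -⟩)
          · exact (h1 i hi).2 h
          · exact absurd h hke
          · exact absurd h hkf
  · intro h
    constructor
    · intro i hi
      have hk := h (orig e f i) (orig_lt hef hf hi)
      exact ⟨fun hc => hk.1 (Or.inl hc), fun hd => hk.2 (Or.inl hd)⟩
    · have he := h e (by omega)
      have hf' := h f hf
      have he1 : a → s.testBit e = true := fun ha => he.1 (Or.inr (Or.inl ⟨rfl, ha⟩))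
      have he2 : ¬ a → s.testBit e = false := fun ha => he.2 (Or.inr (Or.inl ⟨rfl, ha⟩))
      have hf1 : b → s.testBit f = true := fun hb => hf'.1 (Or.inr (Or.inr ⟨rfl, hb⟩))
      have hf2 : ¬ b → s.testBit f = false := fun hb => hf'.2 (Or.inr (Or.inr ⟨rfl, hb⟩))
      rw [hj]
      by_cases ha : a <;> by_cases hb : b <;> simp_all

/-- the kernel check for one pair -/
def pairOK (q n : ℕ) (L : List ℕ) (f e : ℕ) : Bool :=
  force (enc q (L.map fun B => mv f (mv e B))) (chkTop q (Qs q (n - 2)))

/-- the kernel check for one matroid: all pairs -/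
def allPairs (q n : ℕ) (L : List ℕ) : Bool :=
  (List.range n).all fun f => (List.range f).all fun e => pairOK q n L f e

lemma allPairs_of {q n : ℕ} {L : List ℕ}
    (h : ∀ f < n, (List.range f).all (fun e => pairOK q n L f e) = true) :
    allPairs q n L = true := by
  unfold allPairs
  rw [List.all_eq_true]
  intro f hf
  exact h f (List.mem_range.mp hf)

lemma allPairs_sound {q n : ℕ} {L : List ℕ} (hn : 2 ≤ n) (hL : ∀ s ∈ L, s < 2 ^ n)
    (hlen : L.length < q) (h : allPairs q n L = true) {e f : ℕ} (hef : e < f) (hf : f < n)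
    {C D : ℕ → Prop} (hCD : ∀ i, ¬ (C i ∧ D i))
    (hCe : ¬ C e) (hCf : ¬ C f) (hDe : ¬ D e) (hDf : ¬ D f)
    (hne : ∃ i < n, C i ∨ D i) :
    cnt n L (fun i => C i ∨ i = e ∨ i = f) D *
      cnt n L C (fun i => D i ∨ i = e ∨ i = f) ≤
    cnt n L (fun i => C i ∨ i = f) (fun i => D i ∨ i = e) *
      cnt n L (fun i => C i ∨ i = e) (fun i => D i ∨ i = f) := by
  have h1 : chkTop q (Qs q (n - 2)) (enc q (L.map fun B => mv f (mv e B))) = true := by
    unfold allPairs at h
    rw [List.all_eq_true] at h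
    have h2 := h f (List.mem_range.mpr hf)
    rw [List.all_eq_true] at h2
    have h3 := h2 e (List.mem_range.mpr hef)
    rwa [pairOK, force_eq] at h3
  have hL2 : ∀ s ∈ L.map (fun B => mv f (mv e B)), s < 2 ^ (n - 2 + 2) := by
    intro s hs
    obtain ⟨B, hB, rfl⟩ := List.mem_map.mp hs
    rw [Nat.sub_add_cancel hn]
    exact mv_lt hf (mv_lt (by omega) (hL B hB))
  obtain ⟨k, hk, hk2⟩ := hne
  have hke : k ≠ e := by
    rintro rfl
    rcases hk2 with h | h
    · exact hCe h
    · exact hDe h
  have hkf : k ≠ f := by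
    rintro rfl
    rcases hk2 with h | h
    · exact hCf h
    · exact hDf h
  obtain ⟨i, hi, rfl⟩ := exists_orig hef hf hk hke hkf
  have hg := chkTop_sound (n - 2) hL2 (by rw [List.length_map]; exact hlen) h1
    (fun i => C (orig e f i)) (fun i => D (orig e f i)) (fun i => hCD _) ⟨i, hi, hk2⟩
  unfold Good at hg
  rw [K_eq_cnt hef hf L C D hCe hCf hDe hDf True True 3 (by simp),
    K_eq_cnt hef hf L C D hCe hCf hDe hDf False False 0 (by simp),
    K_eq_cnt hef hf L C D hCe hCf hDe hDf False True 1 (by simp),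
    K_eq_cnt hef hf L C D hCe hCf hDe hDf True False 2 (by simp)] at hg
  simpa using hg

end Pool.Agent.H67Tern
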