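import Mathlib
import Pool.Agent.H67Tern.Pairs

set_option autoImplicit false

namespace Pool.Agent.H67Tern

open Classical

/-! ### weighted check -/

/-- all `v ≤ w` -/
def allLe (w : ℕ) (p : ℕ → Bool) : Bool :=
  Nat.rec (motive := fun _ => Bool) (p 0) (fun n ih => ih && p (n + 1)) w

/-- all `v < w` -/
def allLt (w : ℕ) (p : ℕ → Bool) : Bool :=
  Nat.rec (motive := fun _ => Bool) true (fun n ih => ih && p n) w

lemma allLe_iff (w : ℕ) (p : ℕ → Bool) : allLe w p = true ↔ ∀ v ≤ w, p v = true := by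
  induction w with
  | zero =>
    change p 0 = true ↔ _
    constructor
    · intro h v hv
      obtain rfl : v = 0 := by omega
      exact h
    · intro h
      exact h 0 le_rfl
  | succ n ih =>
    change (allLe n p && p (n + 1)) = true ↔ _
    rw [Bool.and_eq_true, ih]
    constructor
    · rintro ⟨h1, h2⟩ v hv
      rcases Nat.lt_or_eq_of_le hv with h | h
      · exact h1 v (by omega)
      · rw [h]; exact h2
    · intro h
      exact ⟨fun v hv => h v (by omega), h (n + 1) le_rfl⟩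

lemma allLt_iff (w : ℕ) (p : ℕ → Bool) : allLt w p = true ↔ ∀ v < w, p v = true := by
  induction w with
  | zero =>
    change true = true ↔ _
    simp
  | succ n ih =>
    change (allLt n p && p n) = true ↔ _
    rw [Bool.and_eq_true, ih]
    constructor
    · rintro ⟨h1, h2⟩ v hv
      rcases Nat.lt_or_eq_of_le (Nat.lt_succ_iff.mp hv) with h | h
      · exact h1 v h
      · rw [h]; exact h2
    · intro h
      exact ⟨fun v hv => h v (by omega), h n (by omega)⟩

/-- quadratic criterion in the last variable -/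
def quadOK (h0 h1 h2 h3 l0 l1 l2 l3 : ℕ) : Bool :=
  Nat.ble (h3 * l0 + l3 * h0) (h1 * l2 + l1 * h2) ||
    Nat.ble ((h3 * l0 + l3 * h0 - (h1 * l2 + l1 * h2)) ^ 2)
      (4 * ((h1 * h2 - h3 * h0) * (l1 * l2 - l3 * l0)))

def dg (q x k : ℕ) : ℕ := x / q ^ k % q

/-- last variable with weight at most `w` -/
def leafQ (q w x : ℕ) : Bool :=
  force (x / q ^ 4) fun h => force (x % q ^ 4) fun l =>
    leaf q h && (leaf q l &&
      (quadOK (dg q h 0) (dg q h 1) (dg q h 2) (dg q h 3)
        (dg q l 0) (dg q l 1) (dg q l 2) (dg q l 3) ||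
        allLe w (fun v => leaf q (v * h + l))))

/-- last variable with weight at most `w`, the trivial case excluded -/
def leafT (q w x : ℕ) : Bool :=
  force (x / q ^ 4) fun h => force (x % q ^ 4) fun l =>
    leaf q h && allLt w (fun v => leaf q (v * h + l))

def chkW (q w0 : ℕ) : List (ℕ × ℕ) → ℕ → Bool :=
  List.rec (motive := fun _ => ℕ → Bool) (fun x => leafQ q w0 x)
    (fun Qw _ ih x => force (x / Qw.1) fun h => force (x % Qw.1) fun l =>
      ih h && allLe Qw.2 (fun v => force (v * h + l) ih))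

def chkWT (q w0 : ℕ) : List (ℕ × ℕ) → ℕ → Bool :=
  List.rec (motive := fun _ => ℕ → Bool) (fun x => leafT q w0 x)
    (fun Qw ls ih x => force (x / Qw.1) fun h => force (x % Qw.1) fun l =>
      chkW q w0 ls h && (allLt Qw.2 (fun v => force (v * h + l) (chkW q w0 ls)) &&
        force (Qw.2 * h + l) ih))

/-- levels `m, …, 1` -/
def LW (q : ℕ) (w : ℕ → ℕ) : ℕ → List (ℕ × ℕ)
  | 0 => []
  | m + 1 => (q ^ (2 ^ (m + 3)), w (m + 1)) :: LW q w m

/-! ### semantics -/

/-- weight of a mask -/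
noncomputable def Wt (m : ℕ) (C : ℕ → Prop) (a : ℕ → ℕ) (s : ℕ) : ℕ :=
  ∏ i ∈ Finset.range m, (if C i then (if s.testBit (i + 2) then 1 else 0)
    else (if s.testBit (i + 2) then a i else 1))

noncomputable def WK (m : ℕ) (C : ℕ → Prop) (a : ℕ → ℕ) (j : ℕ) (L : List ℕ) : ℕ :=
  (L.map (fun s => if s % 4 = j then Wt m C a s else 0)).sum

def GoodW (m : ℕ) (C : ℕ → Prop) (a : ℕ → ℕ) (L : List ℕ) : Prop :=
  WK m C a 3 L * WK m C a 0 L ≤ WK m C a 1 L * WK m C a 2 L

lemma WK_append (m : ℕ) (C : ℕ → Prop) (a : ℕ → ℕ) (j : ℕ) (L L' : List ℕ) :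
    WK m C a j (L ++ L') = WK m C a j L + WK m C a j L' := by
  unfold WK; rw [List.map_append, List.sum_append]

/-- `v` copies -/
def rep (v : ℕ) (L : List ℕ) : List ℕ := (List.replicate v L).flatten

lemma rep_succ (v : ℕ) (L : List ℕ) : rep (v + 1) L = L ++ rep v L := by
  simp [rep, List.replicate_succ]

lemma WK_rep (m : ℕ) (C : ℕ → Prop) (a : ℕ → ℕ) (j v : ℕ) (L : List ℕ) :
    WK m C a j (rep v L) = v * WK m C a j L := by
  induction v with
  | zero => simp [rep, WK]
  | succ v ih => rw [rep_succ, WK_append, ih]; ring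

lemma enc_rep (q v : ℕ) (L : List ℕ) : enc q (rep v L) = v * enc q L := by
  induction v with
  | zero => simp [rep, enc]
  | succ v ih => rw [rep_succ, enc_append, ih]; ring

lemma length_rep (v : ℕ) (L : List ℕ) : (rep v L).length = v * L.length := by
  induction v with
  | zero => simp [rep]
  | succ v ih => rw [rep_succ, List.length_append, ih]; ring

lemma mem_rep {v : ℕ} {L : List ℕ} {s : ℕ} (h : s ∈ rep v L) : s ∈ L := by
  induction v with
  | zero => simp [rep] at h
  | succ v ih =>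
    rw [rep_succ, List.mem_append] at h
    rcases h with h | h
    · exact h
    · exact ih h

lemma Wt_congr {m : ℕ} {C : ℕ → Prop} {a : ℕ → ℕ} {s t : ℕ}
    (h : ∀ i < m, s.testBit (i + 2) = t.testBit (i + 2)) : Wt m C a s = Wt m C a t := by
  unfold Wt
  apply Finset.prod_congr rfl
  intro i hi
  rw [h i (Finset.mem_range.mp hi)]

/-- the recursion of the weighted counts -/
lemma WK_succ {m : ℕ} (C : ℕ → Prop) (a : ℕ → ℕ) (j : ℕ) : ∀ {L : List ℕ},
    (∀ s ∈ L, s < 2 * 2 ^ (m + 2)) →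
    WK (m + 1) C a j L = (if C m then 1 else a m) * WK m C a j (hiP (2 ^ (m + 2)) L)
      + (if C m then 0 else 1) * WK m C a j (loP (2 ^ (m + 2)) L)
  | [], _ => by simp [WK, hiP, loP]
  | s :: L, h => by
    have ih := WK_succ (m := m) C a j (L := L) (fun t ht => h t (by simp [ht]))
    have hs : s < 2 * 2 ^ (m + 2) := h s (by simp)
    have e0 : WK (m + 1) C a j (s :: L) =
        (if s % 4 = j then Wt (m + 1) C a s else 0) + WK (m + 1) C a j L := by
      simp [WK]
    rw [e0, ih]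
    by_cases h1 : 2 ^ (m + 2) ≤ s
    · have e1 : hiP (2 ^ (m + 2)) (s :: L) = (s - 2 ^ (m + 2)) :: hiP (2 ^ (m + 2)) L := by
        simp [hiP, h1]
      have e2 : loP (2 ^ (m + 2)) (s :: L) = loP (2 ^ (m + 2)) L := by simp [loP, h1]
      have e3 : WK m C a j ((s - 2 ^ (m + 2)) :: hiP (2 ^ (m + 2)) L) =
        (if s % 4 = j then Wt m C a (s - 2 ^ (m + 2)) else 0)
          + WK m C a j (hiP (2 ^ (m + 2)) L) := by
        simp [WK, sub_mod4 rfl h1]
      have e4 : Wt (m + 1) C a s = (if C m then 1 else a m) * Wt m C a (s - 2 ^ (m + 2)) := by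
        have : Wt m C a (s - 2 ^ (m + 2)) = Wt m C a s := by
          apply Wt_congr
          intro i hi
          exact testBit_sub rfl h1 hs (by omega)
        rw [this, Wt, Finset.prod_range_succ, testBit_top rfl h1 hs, Wt]
        simp only [if_true]
        ring
      rw [e1, e2, e3, e4]
      split_ifs <;> ring
    · have h1' : s < 2 ^ (m + 2) := not_le.mp h1
      have e1 : hiP (2 ^ (m + 2)) (s :: L) = hiP (2 ^ (m + 2)) L := by
        simp [hiP, h1]
      have e2 : loP (2 ^ (m + 2)) (s :: L) = s :: loP (2 ^ (m + 2)) L := by simp [loP, h1]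
      have e3 : WK m C a j (s :: loP (2 ^ (m + 2)) L) =
        (if s % 4 = j then Wt m C a s else 0)
          + WK m C a j (loP (2 ^ (m + 2)) L) := by
        simp [WK]
      have e4 : Wt (m + 1) C a s = (if C m then 0 else 1) * Wt m C a s := by
        rw [Wt, Finset.prod_range_succ, testBit_low rfl h1', Wt]
        simp only [Bool.false_eq_true, if_false]
        ring
      rw [e1, e2, e3, e4]
      split_ifs <;> ring

lemma WK_succ_contract {m : ℕ} {C : ℕ → Prop} (a : ℕ → ℕ) (j : ℕ) {L : List ℕ}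
    (hL : ∀ s ∈ L, s < 2 * 2 ^ (m + 2)) (hC : C m) :
    WK (m + 1) C a j L = WK m C a j (hiP (2 ^ (m + 2)) L) := by
  rw [WK_succ C a j hL, if_pos hC, if_pos hC]; ring

lemma WK_succ_keep {m : ℕ} {C : ℕ → Prop} (a : ℕ → ℕ) (j : ℕ) {L : List ℕ}
    (hL : ∀ s ∈ L, s < 2 * 2 ^ (m + 2)) (hC : ¬ C m) :
    WK (m + 1) C a j L =
      WK m C a j (rep (a m) (hiP (2 ^ (m + 2)) L) ++ loP (2 ^ (m + 2)) L) := by
  rw [WK_succ C a j hL, if_neg hC, if_neg hC, WK_append, WK_rep]; ring

lemma WK_zero (C : ℕ → Prop) (a : ℕ → ℕ) (j : ℕ) (L : List ℕ) :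
    WK 0 C a j L = K 0 (fun _ => False) (fun _ => False) j L := by
  induction L with
  | nil => simp [WK, K]
  | cons s L ih =>
    have e1 : WK 0 C a j (s :: L) = (if s % 4 = j then 1 else 0) + WK 0 C a j L := by
      simp [WK, Wt]
    have e2 : K 0 (fun _ => False) (fun _ => False) j (s :: L) =
      K 0 (fun _ => False) (fun _ => False) j L + (if s % 4 = j then 1 else 0) := by
      simp [K, Pr, List.countP_cons]
    rw [e1, e2, ih]
    ring

lemma leaf_soundW {q : ℕ} {L : List ℕ} (hL : ∀ s ∈ L, s < 4) (hlen : L.length < q)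
    (h : leaf q (enc q L) = true) (C : ℕ → Prop) (a : ℕ → ℕ) : GoodW 0 C a L := by
  have := leaf_sound hL hlen h (fun _ => False) (fun _ => False)
  unfold GoodW
  simp only [WK_zero]
  exact this

lemma dg_eq {q : ℕ} {L : List ℕ} (hL : ∀ s ∈ L, s < 4) (hlen : L.length < q) (C : ℕ → Prop)
    (a : ℕ → ℕ) :
    dg q (enc q L) 0 = WK 0 C a 0 L ∧ dg q (enc q L) 1 = WK 0 C a 1 L ∧
    dg q (enc q L) 2 = WK 0 C a 2 L ∧ dg q (enc q L) 3 = WK 0 C a 3 L := by
  simp only [WK_zero]
  set c := fun j => K 0 (fun _ => False) (fun _ => False) j L with hc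
  have hlt : ∀ j, c j < q := fun j => lt_of_le_of_lt (K_le _ _ _ _ _) hlen
  have hq : 0 < q := by omega
  have he := enc_small (q := q) hL
  change enc q L = c 0 + c 1 * q + c 2 * q ^ 2 + c 3 * q ^ 3 at he
  change dg q (enc q L) 0 = c 0 ∧ dg q (enc q L) 1 = c 1 ∧ dg q (enc q L) 2 = c 2 ∧
    dg q (enc q L) 3 = c 3
  have d1 : enc q L / q = c 1 + q * (c 2 + c 3 * q) := by
    have : enc q L = c 0 + q * (c 1 + q * (c 2 + c 3 * q)) := by rw [he]; ring
    rw [this, Nat.add_mul_div_left _ _ hq, Nat.div_eq_of_lt (hlt 0), zero_add]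
  have d2 : enc q L / q ^ 2 = c 2 + q * c 3 := by
    rw [pow_two, ← Nat.div_div_eq_div_mul, d1]
    rw [Nat.add_mul_div_left _ _ hq, Nat.div_eq_of_lt (hlt 1), zero_add]
    ring
  have d3 : enc q L / q ^ 3 = c 3 := by
    rw [pow_succ, ← Nat.div_div_eq_div_mul, d2, Nat.add_mul_div_left _ _ hq,
      Nat.div_eq_of_lt (hlt 2), zero_add]
  refine ⟨?_, ?_, ?_, ?_⟩
  · have : enc q L = c 0 + q * (c 1 + c 2 * q + c 3 * q ^ 2) := by rw [he]; ring
    rw [dg, pow_zero, Nat.div_one, this, Nat.add_mul_mod_self_left, Nat.mod_eq_of_lt (hlt 0)]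
  · rw [dg, pow_one, d1, Nat.add_mul_mod_self_left, Nat.mod_eq_of_lt (hlt 1)]
  · rw [dg, d2, Nat.add_mul_mod_self_left, Nat.mod_eq_of_lt (hlt 2)]
  · rw [dg, d3, Nat.mod_eq_of_lt (hlt 3)]

lemma quad_sound {h0 h1 h2 h3 l0 l1 l2 l3 : ℕ} (hh : h3 * h0 ≤ h1 * h2) (hl : l3 * l0 ≤ l1 * l2)
    (h : quadOK h0 h1 h2 h3 l0 l1 l2 l3 = true) (v : ℕ) :
    (v * h3 + l3) * (v * h0 + l0) ≤ (v * h1 + l1) * (v * h2 + l2) := by
  unfold quadOK at h
  rw [Bool.or_eq_true, Nat.ble_eq, Nat.ble_eq] at h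
  by_cases h4 : h3 * l0 + l3 * h0 ≤ h1 * l2 + l1 * h2
  · nlinarith [Nat.mul_le_mul_left (v * v) hh, Nat.mul_le_mul_left v h4]
  · have h5 := h.resolve_left h4
    push Not at h4
    obtain ⟨A, hA⟩ := Nat.exists_eq_add_of_le hh
    obtain ⟨C, hC⟩ := Nat.exists_eq_add_of_le hl
    obtain ⟨B, hB⟩ := Nat.exists_eq_add_of_le h4.le
    rw [hB, hA, hC, Nat.add_sub_cancel_left, Nat.add_sub_cancel_left,
      Nat.add_sub_cancel_left] at h5
    -- `A v² - B v + C ≥ 0`
    have key : B * v ≤ A * v ^ 2 + C := by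
      rcases Nat.eq_zero_or_pos A with hA0 | hA0
      · subst hA0
        have : B = 0 := by
          have : B ^ 2 ≤ 0 := by simpa using h5
          have h6 : B ^ 2 = 0 := by omega
          exact pow_eq_zero_iff (by norm_num) |>.mp h6
        rw [this]; omega
      · have h6 : (B : ℤ) ^ 2 ≤ 4 * (A * C) := by exact_mod_cast h5
        have h7 : (0 : ℤ) < A := by exact_mod_cast hA0
        have h8 : (0 : ℤ) ≤ 4 * A * (A * v ^ 2 - B * v + C) := by
          nlinarith [sq_nonneg ((2 : ℤ) * A * v - B)]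
        have h9 : (0 : ℤ) ≤ A * v ^ 2 - B * v + C := by
          by_contra hneg
          push Not at hneg
          nlinarith
        have h10 : (B : ℤ) * v ≤ A * v ^ 2 + C := by linarith
        exact_mod_cast h10
    have e1 : (v * h1 + l1) * (v * h2 + l2) = v ^ 2 * (h1 * h2) + v * (h1 * l2 + l1 * h2)
      + l1 * l2 := by ring
    have e2 : (v * h3 + l3) * (v * h0 + l0) = v ^ 2 * (h3 * h0) + v * (h3 * l0 + l3 * h0)
      + l3 * l0 := by ring
    rw [e1, e2, hA, hC, hB]
    nlinarith [key]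

lemma lenbound {q w v : ℕ} {L : List ℕ} {P : ℕ} (hv : v ≤ w) (N : ℕ)
    (h : L.length * (max w 1 * P) < q) :
    (rep v (hiP N L) ++ loP N L).length * P < q := by
  have h1 : (hiP N L).length + (loP N L).length = L.length := by
    rw [← List.length_append]; exact length_hi_lo N L
  have h2 : (rep v (hiP N L) ++ loP N L).length ≤ L.length * max w 1 := by
    rw [List.length_append, length_rep, ← h1, add_mul]
    have h3 : v ≤ max w 1 := le_trans hv (le_max_left _ _)
    have h4 : 1 ≤ max w 1 := le_max_right _ _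
    nlinarith
  calc (rep v (hiP N L) ++ loP N L).length * P ≤ L.length * max w 1 * P :=
        Nat.mul_le_mul_right _ h2
    _ = L.length * (max w 1 * P) := by ring
    _ < q := h

lemma lenbound_hi {q w : ℕ} {L : List ℕ} {P : ℕ} (N : ℕ)
    (h : L.length * (max w 1 * P) < q) : (hiP N L).length * P < q := by
  have h1 := length_hi N L
  have h4 : 1 ≤ max w 1 := le_max_right _ _
  calc (hiP N L).length * P ≤ L.length * P := Nat.mul_le_mul_right _ h1
    _ ≤ L.length * (max w 1 * P) := by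
      apply Nat.mul_le_mul_left
      nlinarith
    _ < q := h

/-- product bound of the weights `0, …, m` -/
def PB (w : ℕ → ℕ) : ℕ → ℕ
  | 0 => max (w 0) 1
  | m + 1 => max (w (m + 1)) 1 * PB w m

lemma PB_pos (w : ℕ → ℕ) : ∀ m, 1 ≤ PB w m
  | 0 => le_max_right _ _
  | m + 1 => Nat.mul_pos (lt_of_lt_of_le Nat.zero_lt_one (le_max_right _ _)) (PB_pos w m)

lemma len_lt {q : ℕ} {L : List ℕ} {P : ℕ} (hP : 1 ≤ P) (h : L.length * P < q) :
    L.length < q := lt_of_le_of_lt (by nlinarith) h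

lemma leafQ_sound {q : ℕ} {w : ℕ → ℕ} {L : List ℕ} (hL : ∀ s ∈ L, s < 8)
    (hlen : L.length * PB w 0 < q)
    (h : leafQ q (w 0) (enc q L) = true) (C : ℕ → Prop) (a : ℕ → ℕ) (ha : a 0 ≤ w 0) :
    GoodW 1 C a L := by
  have hlen' : L.length < q := len_lt (PB_pos w 0) hlen
  have hL' : ∀ s ∈ L, s < 2 * 2 ^ (0 + 2) := by simpa using hL
  have hhi : ∀ s ∈ hiP 4 L, s < 4 := hiP_lt (N := 4) (by simpa using hL)
  have hlo : ∀ s ∈ loP 4 L, s < 4 := loP_lt
  have hlen0 : L.length * (max (w 0) 1 * 1) < q := by simpa [PB] using hlen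
  rw [leafQ, force_eq, force_eq, enc_div hlen', enc_mod hlen', Bool.and_eq_true,
    Bool.and_eq_true] at h
  obtain ⟨h1, h2, h3⟩ := h
  unfold GoodW
  by_cases hC : C 0
  · simp only [WK_succ_contract a _ hL' hC]
    exact leaf_soundW hhi (lt_of_le_of_lt (length_hi _ _) hlen') h1 C a
  · rw [Bool.or_eq_true] at h3
    rcases h3 with h3 | h3
    · have hd := dg_eq hhi (lt_of_le_of_lt (length_hi _ _) hlen') C a
      have hd' := dg_eq hlo (lt_of_le_of_lt (length_lo _ _) hlen') C a
      rw [hd.1, hd.2.1, hd.2.2.1, hd.2.2.2, hd'.1, hd'.2.1, hd'.2.2.1, hd'.2.2.2] at h3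
      have g1 := leaf_soundW hhi (lt_of_le_of_lt (length_hi _ _) hlen') h1 C a
      have g2 := leaf_soundW hlo (lt_of_le_of_lt (length_lo _ _) hlen') h2 C a
      simp only [WK_succ_keep a _ hL' hC, WK_append, WK_rep]
      exact quad_sound g1 g2 h3 (a 0)
    · rw [allLe_iff] at h3
      have h4 := h3 (a 0) ha
      rw [← enc_rep, ← enc_append] at h4
      simp only [WK_succ_keep a _ hL' hC]
      refine leaf_soundW ?_ ?_ h4 C a
      · intro s hs
        rcases List.mem_append.mp hs with hs | hs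
        · exact hhi s (mem_rep hs)
        · exact hlo s hs
      · have := lenbound (N := 4) ha hlen0
        simpa using this

lemma leafT_sound {q : ℕ} {w : ℕ → ℕ} {L : List ℕ} (hL : ∀ s ∈ L, s < 8)
    (hlen : L.length * PB w 0 < q)
    (h : leafT q (w 0) (enc q L) = true) (C : ℕ → Prop) (a : ℕ → ℕ) (ha : a 0 ≤ w 0)
    (hex : C 0 ∨ a 0 < w 0) :
    GoodW 1 C a L := by
  have hlen' : L.length < q := len_lt (PB_pos w 0) hlen
  have hL' : ∀ s ∈ L, s < 2 * 2 ^ (0 + 2) := by simpa using hL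
  have hhi : ∀ s ∈ hiP 4 L, s < 4 := hiP_lt (N := 4) (by simpa using hL)
  have hlo : ∀ s ∈ loP 4 L, s < 4 := loP_lt
  have hlen0 : L.length * (max (w 0) 1 * 1) < q := by simpa [PB] using hlen
  rw [leafT, force_eq, force_eq, enc_div hlen', enc_mod hlen', Bool.and_eq_true] at h
  obtain ⟨h1, h3⟩ := h
  unfold GoodW
  by_cases hC : C 0
  · simp only [WK_succ_contract a _ hL' hC]
    exact leaf_soundW hhi (lt_of_le_of_lt (length_hi _ _) hlen') h1 C a
  · rw [allLt_iff] at h3
    have h4 := h3 (a 0) (hex.resolve_left hC)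
    rw [← enc_rep, ← enc_append] at h4
    simp only [WK_succ_keep a _ hL' hC]
    refine leaf_soundW ?_ ?_ h4 C a
    · intro s hs
      rcases List.mem_append.mp hs with hs | hs
      · exact hhi s (mem_rep hs)
      · exact hlo s hs
    · have := lenbound (N := 4) ha hlen0
      simpa using this

lemma chkW_cons (q w0 : ℕ) (Qw : ℕ × ℕ) (ls : List (ℕ × ℕ)) (x : ℕ) :
    chkW q w0 (Qw :: ls) x = (chkW q w0 ls (x / Qw.1) &&
      allLe Qw.2 (fun v => chkW q w0 ls (v * (x / Qw.1) + x % Qw.1))) := by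
  change (force (x / Qw.1) fun h => force (x % Qw.1) fun l =>
      chkW q w0 ls h && allLe Qw.2 (fun v => force (v * h + l) (chkW q w0 ls))) = _
  rw [force_eq, force_eq]
  simp only [force_eq]

lemma chkWT_cons (q w0 : ℕ) (Qw : ℕ × ℕ) (ls : List (ℕ × ℕ)) (x : ℕ) :
    chkWT q w0 (Qw :: ls) x = (chkW q w0 ls (x / Qw.1) &&
      (allLt Qw.2 (fun v => chkW q w0 ls (v * (x / Qw.1) + x % Qw.1)) &&
        chkWT q w0 ls (Qw.2 * (x / Qw.1) + x % Qw.1))) := by
  change (force (x / Qw.1) fun h => force (x % Qw.1) fun l =>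
      chkW q w0 ls h && (allLt Qw.2 (fun v => force (v * h + l) (chkW q w0 ls)) &&
        force (Qw.2 * h + l) (chkWT q w0 ls))) = _
  rw [force_eq, force_eq, force_eq]
  simp only [force_eq]

lemma chkW_sound {q : ℕ} {w : ℕ → ℕ} : ∀ (m : ℕ) {L : List ℕ}, (∀ s ∈ L, s < 2 ^ (m + 3)) →
    L.length * PB w m < q → chkW q (w 0) (LW q w m) (enc q L) = true →
    ∀ (C : ℕ → Prop) (a : ℕ → ℕ), (∀ i ≤ m, a i ≤ w i) → GoodW (m + 1) C a L
  | 0, L, hL, hlen, h, C, a, ha => leafQ_sound (by simpa using hL) hlen h C a (ha 0 le_rfl)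
  | m + 1, L, hL, hlen, h, C, a, ha => by
    have hlen' : L.length < q := len_lt (PB_pos w (m + 1)) hlen
    have hL' : ∀ s ∈ L, s < 2 * 2 ^ (m + 1 + 2) := by
      intro s hs; rw [two_mul_pow]; exact hL s hs
    rw [LW, chkW_cons, Bool.and_eq_true, allLe_iff] at h
    obtain ⟨h1, h2⟩ := h
    have e : 2 ^ (m + 3) = 2 ^ (m + 1 + 2) := by ring_nf
    simp only [e, enc_div hlen', enc_mod hlen'] at h1 h2
    unfold GoodW
    by_cases hC : C (m + 1)
    · simp only [WK_succ_contract a _ hL' hC]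
      exact chkW_sound m (hiP_lt hL') (lenbound_hi _ hlen) h1 C a (fun i hi => ha i (by omega))
    · simp only [WK_succ_keep a _ hL' hC]
      have h3 := h2 (a (m + 1)) (ha (m + 1) le_rfl)
      rw [← enc_rep, ← enc_append] at h3
      refine chkW_sound m ?_ (lenbound (ha (m + 1) le_rfl) _ hlen) h3 C a
        (fun i hi => ha i (by omega))
      intro s hs
      rcases List.mem_append.mp hs with hs | hs
      · exact hiP_lt hL' s (mem_rep hs)
      · exact loP_lt s hs

lemma chkWT_sound {q : ℕ} {w : ℕ → ℕ} : ∀ (m : ℕ) {L : List ℕ}, (∀ s ∈ L, s < 2 ^ (m + 3)) →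
    L.length * PB w m < q → chkWT q (w 0) (LW q w m) (enc q L) = true →
    ∀ (C : ℕ → Prop) (a : ℕ → ℕ), (∀ i ≤ m, a i ≤ w i) → (∃ i ≤ m, C i ∨ a i < w i) →
    GoodW (m + 1) C a L
  | 0, L, hL, hlen, h, C, a, ha, hex => leafT_sound (by simpa using hL) hlen h C a (ha 0 le_rfl)
      (by
        obtain ⟨i, hi, h⟩ := hex
        obtain rfl : i = 0 := by omega
        exact h)
  | m + 1, L, hL, hlen, h, C, a, ha, hex => by
    have hlen' : L.length < q := len_lt (PB_pos w (m + 1)) hlen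
    have hL' : ∀ s ∈ L, s < 2 * 2 ^ (m + 1 + 2) := by
      intro s hs; rw [two_mul_pow]; exact hL s hs
    rw [LW, chkWT_cons, Bool.and_eq_true, Bool.and_eq_true, allLt_iff] at h
    obtain ⟨h1, h2, h2'⟩ := h
    have e : 2 ^ (m + 3) = 2 ^ (m + 1 + 2) := by ring_nf
    simp only [e, enc_div hlen', enc_mod hlen'] at h1 h2 h2'
    unfold GoodW
    by_cases hC : C (m + 1)
    · simp only [WK_succ_contract a _ hL' hC]
      exact chkW_sound m (hiP_lt hL') (lenbound_hi _ hlen) h1 C a (fun i hi => ha i (by omega))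
    · simp only [WK_succ_keep a _ hL' hC]
      have hmem : ∀ s ∈ rep (a (m + 1)) (hiP (2 ^ (m + 1 + 2)) L) ++ loP (2 ^ (m + 1 + 2)) L,
          s < 2 ^ (m + 3) := by
        intro s hs
        rcases List.mem_append.mp hs with hs | hs
        · exact hiP_lt hL' s (mem_rep hs)
        · exact loP_lt s hs
      by_cases hlt : a (m + 1) < w (m + 1)
      · have h3 := h2 (a (m + 1)) hlt
        rw [← enc_rep, ← enc_append] at h3
        exact chkW_sound m hmem (lenbound (ha (m + 1) le_rfl) _ hlen) h3 C a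
          (fun i hi => ha i (by omega))
      · have heq : a (m + 1) = w (m + 1) := le_antisymm (ha (m + 1) le_rfl) (not_lt.mp hlt)
        rw [← heq, ← enc_rep, ← enc_append] at h2'
        refine chkWT_sound m hmem (lenbound (ha (m + 1) le_rfl) _ hlen) h2' C a
          (fun i hi => ha i (by omega)) ?_
        obtain ⟨i, hi, h⟩ := hex
        refine ⟨i, ?_, h⟩
        rcases Nat.lt_or_eq_of_le hi with h' | h'
        · omega
        · subst h'
          rcases h with h | h
          · exact absurd h hC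
          · exact absurd h hlt

end Pool.Agent.H67Tern
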