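import Mathlib

set_option autoImplicit false

namespace Pool.Agent.H67Tern

open Finset

/-- The vector in `GF(3)^r` whose coordinates are the digits of the list `w`. -/
def vec (r : ℕ) (w : List ℕ) : Fin r → ZMod 3 := fun i => ((w.getD i 0 : ℕ) : ZMod 3)

/-- The linear matroid over `GF(3)` on the columns listed in `A` (vectors of `GF(3)^r`):
its ground set is `{0, …, A.length - 1}` and a set of indices is independent if and only if
the corresponding columns are linearly independent over `GF(3)`. -/
noncomputable def colMat (r : ℕ) (A : List (List ℕ)) : Matroid (Fin A.length) :=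
  (IndepMatroid.ofFinite (E := Set.univ) Set.finite_univ
    (fun I => LinearIndepOn (ZMod 3) (fun i : Fin A.length => vec r (A.get i)) I)
    (linearIndepOn_empty _ _)
    (fun _ _ hJ hIJ => hJ.mono hIJ)
    (by
      classical
      intro I J hI hJ hIJ
      by_contra hcon
      push Not at hcon
      set v := (fun i : Fin A.length => vec r (A.get i)) with hv
      have hsub : ∀ e ∈ J, v e ∈ Submodule.span (ZMod 3) (v '' I) := by
        intro e he
        by_cases heI : e ∈ I
        · exact Submodule.subset_span ⟨e, heI, rfl⟩
        · by_contra hns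
          exact hcon e he heI ((linearIndepOn_insert heI).mpr ⟨hI, hns⟩)
      have h1 : Fintype.card J ≤ Fintype.card (v '' I) := by
        apply linearIndependent_le_span_aux' (R := ZMod 3) (fun e : J => v e) hJ (v '' I)
        rintro _ ⟨e, rfl⟩
        exact hsub e e.2
      have h2 : (v '' I).ncard ≤ I.ncard := Set.ncard_image_le (Set.toFinite I)
      rw [← Nat.card_eq_fintype_card, ← Nat.card_eq_fintype_card, Nat.card_coe_set_eq,
        Nat.card_coe_set_eq] at h1
      omega)
    (fun _ _ => Set.subset_univ _)).matroid

lemma colMat_E (r : ℕ) (A : List (List ℕ)) : (colMat r A).E = Set.univ := rfl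

lemma colMat_indep (r : ℕ) (A : List (List ℕ)) (I : Set (Fin A.length)) :
    (colMat r A).Indep I ↔
      LinearIndepOn (ZMod 3) (fun i : Fin A.length => vec r (A.get i)) I := Iff.rfl

end Pool.Agent.H67Tern
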