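import Mathlib
import Pool.Agent.H67Tern.ColMat

set_option autoImplicit false

namespace Pool.Agent.H67Tern

open Finset

/-! ### computation -/

/-- sublist of columns selected by a mask -/
def sel : List (List ℕ) → ℕ → List (List ℕ) :=
  List.rec (motive := fun _ => ℕ → List (List ℕ)) (fun _ => [])
    (fun w _ ih s => bif Nat.beq (s % 2) 1 then w :: ih (s / 2) else ih (s / 2))

lemma sel_nil (s : ℕ) : sel [] s = [] := rfl
lemma sel_cons (w : List ℕ) (A : List (List ℕ)) (s : ℕ) :
    sel (w :: A) s = if s.testBit 0 then w :: sel A (s / 2) else sel A (s / 2) := by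
  change (bif Nat.beq (s % 2) 1 then w :: sel A (s / 2) else sel A (s / 2)) = _
  rw [Nat.testBit_zero]
  rcases Nat.mod_two_eq_zero_or_one s with h | h
  · rw [h]; rfl
  · rw [h]; rfl

/-- index of the first entry that is nonzero mod 3 -/
def piv : List ℕ → Option ℕ
  | [] => none
  | a :: u => bif Nat.beq (a % 3) 0 then (piv u).map (· + 1) else some 0

/-- eliminate the coordinate `p` of `w` with the help of `u` -/
def red (u : List ℕ) (p : ℕ) (w : List ℕ) : List ℕ :=
  List.zipWith (fun a b => (a + (3 - (w.getD p 0 * u.getD p 0) % 3) * b) % 3) w u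

/-- test of linear independence (with fuel) -/
def indepF : ℕ → List (List ℕ) → Bool
  | _, [] => true
  | 0, _ :: _ => false
  | k + 1, u :: rest => match piv u with
    | none => false
    | some p => indepF k (rest.map (red u p))

lemma piv_none : ∀ {u : List ℕ}, piv u = none → ∀ i, ((u.getD i 0 : ℕ) : ZMod 3) = 0
  | [], _, i => by simp
  | a :: u, h, i => by
    rw [piv] at h
    by_cases ha : a % 3 = 0
    · have hb : Nat.beq (a % 3) 0 = true := by rw [ha]; rfl
      rw [hb, cond_true, Option.map_eq_none_iff] at h
      cases i with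
      | zero =>
        have : (3 : ℕ) ∣ a := Nat.dvd_of_mod_eq_zero ha
        simpa using (ZMod.natCast_eq_zero_iff a 3).mpr this
      | succ i => simpa using piv_none h i
    · have hb : Nat.beq (a % 3) 0 = false := by
        cases hh : Nat.beq (a % 3) 0
        · rfl
        · exact absurd (Nat.eq_of_beq_eq_true hh) ha
      rw [hb, cond_false] at h
      exact absurd h (by simp)

lemma piv_some : ∀ {u : List ℕ} {p : ℕ}, piv u = some p →
    p < u.length ∧ ((u.getD p 0 : ℕ) : ZMod 3) ≠ 0
  | [], p, h => by simp [piv] at h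
  | a :: u, p, h => by
    rw [piv] at h
    by_cases ha : a % 3 = 0
    · have hb : Nat.beq (a % 3) 0 = true := by rw [ha]; rfl
      rw [hb, cond_true, Option.map_eq_some_iff] at h
      obtain ⟨p', hp', rfl⟩ := h
      have := piv_some hp'
      exact ⟨by simpa using this.1, by simpa using this.2⟩
    · have hb : Nat.beq (a % 3) 0 = false := by
        cases hh : Nat.beq (a % 3) 0
        · rfl
        · exact absurd (Nat.eq_of_beq_eq_true hh) ha
      rw [hb, cond_false, Option.some.injEq] at h
      subst h
      refine ⟨by simp, ?_⟩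
      simp only [List.getD_cons_zero]
      intro h0
      rw [ZMod.natCast_eq_zero_iff] at h0
      exact ha (Nat.mod_eq_zero_of_dvd h0)

/-! ### linear combinations of lists -/

def lin (r : ℕ) : List (ZMod 3) → List (List ℕ) → (Fin r → ZMod 3)
  | a :: c, w :: l => a • vec r w + lin r c l
  | [], _ => 0
  | _ :: _, [] => 0

/-- linear independence of a list of vectors -/
def LIl (r : ℕ) (l : List (List ℕ)) : Prop :=
  ∀ c : List (ZMod 3), c.length = l.length → lin r c l = 0 → ∀ x ∈ c, x = 0

def coef (u : List ℕ) (p : ℕ) : List (ZMod 3) → List (List ℕ) → ZMod 3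
  | a :: c, w :: l => a * (((w.getD p 0 : ℕ) : ZMod 3) * ((u.getD p 0 : ℕ) : ZMod 3))
      + coef u p c l
  | [], _ => 0
  | _ :: _, [] => 0

lemma vec_red {r : ℕ} {u w : List ℕ} (hu : u.length = r) (hw : w.length = r) (p : ℕ) :
    vec r (red u p w) = vec r w -
      (((w.getD p 0 : ℕ) : ZMod 3) * ((u.getD p 0 : ℕ) : ZMod 3)) • vec r u := by
  funext i
  have hi : (i : ℕ) < r := i.2
  have hlen : (i : ℕ) < (red u p w).length := by
    rw [red, List.length_zipWith, hu, hw]; simp
  simp only [vec, Pi.sub_apply, Pi.smul_apply, smul_eq_mul]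
  rw [List.getD_eq_getElem _ _ hlen]
  have hiw : (i : ℕ) < w.length := by omega
  have hiu : (i : ℕ) < u.length := by omega
  have h1 : (red u p w)[(i : ℕ)] =
      (w[(i : ℕ)] + (3 - (w.getD p 0 * u.getD p 0) % 3) * u[(i : ℕ)]) % 3 := by
    simp only [red, List.getElem_zipWith]
  rw [h1, List.getD_eq_getElem _ _ hiw, List.getD_eq_getElem _ _ hiu]
  have ht : (w.getD p 0 * u.getD p 0) % 3 ≤ 3 := le_of_lt (Nat.mod_lt _ (by norm_num))
  have h3 : ((3 : ℕ) : ZMod 3) = 0 := by decide
  rw [ZMod.natCast_mod, Nat.cast_add, Nat.cast_mul, Nat.cast_sub ht, ZMod.natCast_mod,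
    Nat.cast_mul, h3]
  ring

lemma red_length {r : ℕ} {u w : List ℕ} (hu : u.length = r) (hw : w.length = r) (p : ℕ) :
    (red u p w).length = r := by
  rw [red, List.length_zipWith, hu, hw]; simp

lemma lin_red {r : ℕ} {u : List ℕ} (hu : u.length = r) (p : ℕ) :
    ∀ (c : List (ZMod 3)) (l : List (List ℕ)), (∀ w ∈ l, w.length = r) →
      lin r c (l.map (red u p)) = lin r c l - coef u p c l • vec r u
  | [], _, _ => by simp [lin, coef]
  | _ :: _, [], _ => by simp [lin, coef]
  | a :: c, w :: l, h => by
    rw [List.map_cons, lin, lin, coef, lin_red hu p c l (fun w hw => h w (by simp [hw])),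
      vec_red hu (h w (by simp)) p]
    simp only [smul_sub, add_smul, smul_smul]
    abel

lemma coef_zero (u : List ℕ) (p : ℕ) : ∀ (c : List (ZMod 3)) (l : List (List ℕ)),
    (∀ x ∈ c, x = 0) → coef u p c l = 0
  | [], _, _ => by simp [coef]
  | _ :: _, [], _ => by simp [coef]
  | a :: c, w :: l, h => by
    rw [coef, coef_zero u p c l (fun x hx => h x (by simp [hx])), h a (by simp)]
    simp

lemma sq_one : ∀ x : ZMod 3, x ≠ 0 → x * x = 1 := by decide

lemma lin_red_coord {r : ℕ} {u : List ℕ} (hu : u.length = r) {p : ℕ} (hp : p < r)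
    (hup : ((u.getD p 0 : ℕ) : ZMod 3) ≠ 0) :
    ∀ (c : List (ZMod 3)) (l : List (List ℕ)), (∀ w ∈ l, w.length = r) →
      lin r c (l.map (red u p)) ⟨p, hp⟩ = 0
  | [], _, _ => by simp [lin]
  | _ :: _, [], _ => by simp [lin]
  | a :: c, w :: l, h => by
    rw [List.map_cons, lin, Pi.add_apply, lin_red_coord hu hp hup c l
      (fun w hw => h w (by simp [hw])), vec_red hu (h w (by simp)) p]
    simp only [vec, Pi.smul_apply, Pi.sub_apply, smul_eq_mul, add_zero]
    rw [mul_assoc, sq_one _ hup, mul_one, sub_self, mul_zero]

lemma LIl_cons {r : ℕ} {u : List ℕ} (hu : u.length = r) {p : ℕ} (hp : p < r)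
    (hup : ((u.getD p 0 : ℕ) : ZMod 3) ≠ 0) {l : List (List ℕ)} (hl : ∀ w ∈ l, w.length = r) :
    LIl r (u :: l) ↔ LIl r (l.map (red u p)) := by
  constructor
  · intro h c hc h0
    rw [List.length_map] at hc
    rw [lin_red hu p c l hl] at h0
    have := h ((-coef u p c l) :: c) (by simp [hc]) (by
      rw [lin, neg_smul, neg_add_eq_sub]
      exact h0)
    intro x hx
    exact this x (by simp [hx])
  · intro h c hc h0
    cases c with
    | nil => simp at hc
    | cons a c =>
      have hc' : c.length = l.length := by simpa using hc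
      rw [lin] at h0
      have e1 : lin r c l = lin r c (l.map (red u p)) + coef u p c l • vec r u := by
        rw [lin_red hu p c l hl]; abel
      have h1 : (a + coef u p c l) • vec r u + lin r c (l.map (red u p)) = 0 := by
        rw [e1] at h0
        rw [add_smul]
        rw [← h0]
        abel
      have h2 := congrFun h1 ⟨p, hp⟩
      rw [Pi.add_apply, lin_red_coord hu hp hup c l hl, Pi.smul_apply, add_zero,
        smul_eq_mul, Pi.zero_apply] at h2
      have h3 : a + coef u p c l = 0 := by
        rcases mul_eq_zero.mp h2 with h | h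
        · exact h
        · exact absurd h hup
      rw [h3, zero_smul, zero_add] at h1
      have h4 := h c (by simp [hc']) h1
      rw [coef_zero u p c l h4, add_zero] at h3
      intro x hx
      rcases List.mem_cons.mp hx with rfl | hx
      · exact h3
      · exact h4 x hx

lemma LIl_zero {r : ℕ} {u : List ℕ} (hu : piv u = none) (l : List (List ℕ)) :
    ¬ LIl r (u :: l) := by
  intro h
  have hv : vec r u = 0 := by
    funext i
    exact piv_none hu i
  have hz : ∀ (k : ℕ) (l' : List (List ℕ)), lin r (List.replicate k 0) l' = 0 := by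
    intro k
    induction k with
    | zero => intro l'; simp [lin]
    | succ k ih =>
      intro l'
      cases l' with
      | nil => simp [List.replicate_succ, lin]
      | cons w l' => simp [List.replicate_succ, lin, ih]
  have := h (1 :: List.replicate l.length 0) (by simp) (by
    rw [lin, hv, smul_zero, zero_add, hz]) 1 (by simp)
  exact absurd this (by decide)

lemma indepF_iff {r : ℕ} : ∀ (k : ℕ) (l : List (List ℕ)), (∀ w ∈ l, w.length = r) →
    l.length ≤ k → (indepF k l = true ↔ LIl r l)
  | k, [], _, _ => by
    have h1 : indepF k [] = true := by cases k <;> rfl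
    rw [h1]
    simp only [true_iff]
    intro c hc _ x hx
    rw [List.length_nil, List.length_eq_zero_iff] at hc
    rw [hc] at hx
    exact absurd hx (by simp)
  | 0, u :: l, _, h => by simp at h
  | k + 1, u :: l, hl, h => by
    rw [indepF]
    cases hp : piv u with
    | none =>
      simp only [Bool.false_eq_true, false_iff]
      exact LIl_zero hp l
    | some p =>
      have hu : u.length = r := hl u (by simp)
      have h1 := piv_some hp
      have hl' : ∀ w ∈ l, w.length = r := fun w hw => hl w (by simp [hw])
      rw [LIl_cons hu (by omega) h1.2 hl']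
      apply indepF_iff k
      · intro w hw
        obtain ⟨w', hw', rfl⟩ := List.mem_map.mp hw
        exact red_length hu (hl' w' hw') p
      · rw [List.length_map]
        simpa using h

/-! ### masks -/

/-- `∑ c_i w_i` -/
def tot (r : ℕ) : (ℕ → ZMod 3) → List (List ℕ) → (Fin r → ZMod 3)
  | _, [] => 0
  | c, w :: A => c 0 • vec r w + tot r (fun i => c (i + 1)) A

def selc : (ℕ → ZMod 3) → List (List ℕ) → ℕ → List (ZMod 3)
  | _, [], _ => []
  | c, _ :: A, s => if s.testBit 0 then c 0 :: selc (fun i => c (i + 1)) A (s / 2)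
      else selc (fun i => c (i + 1)) A (s / 2)

lemma selc_length : ∀ (c : ℕ → ZMod 3) (A : List (List ℕ)) (s : ℕ),
    (selc c A s).length = (sel A s).length
  | _, [], _ => rfl
  | c, w :: A, s => by
    rw [selc, sel_cons]
    split_ifs <;> simp [selc_length]

lemma testBit_half (s i : ℕ) : (s / 2).testBit i = s.testBit (i + 1) := by
  rw [Nat.testBit_succ]

lemma tot_eq_lin {r : ℕ} : ∀ (c : ℕ → ZMod 3) (A : List (List ℕ)) (s : ℕ),
    (∀ i < A.length, s.testBit i = false → c i = 0) → tot r c A = lin r (selc c A s) (sel A s)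
  | _, [], _, _ => by simp [tot, selc, lin]
  | c, w :: A, s, h => by
    have ih := tot_eq_lin (r := r) (fun i => c (i + 1)) A (s / 2) (by
      intro i hi hs
      rw [testBit_half] at hs
      exact h (i + 1) (by simpa using hi) hs)
    rw [tot, selc, sel_cons, ih]
    by_cases h0 : s.testBit 0
    · rw [if_pos h0, if_pos h0, lin]
    · rw [if_neg h0, if_neg h0, h 0 (by simp) (by simpa using h0), zero_smul, zero_add]

lemma selc_zero : ∀ (c : ℕ → ZMod 3) (A : List (List ℕ)) (s : ℕ),
    (∀ i < A.length, s.testBit i = false → c i = 0) → (∀ x ∈ selc c A s, x = 0) →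
    ∀ i < A.length, c i = 0
  | _, [], _, _, _ => by intro i hi; simp at hi
  | c, w :: A, s, h, h2 => by
    rw [selc] at h2
    have ih := selc_zero (fun i => c (i + 1)) A (s / 2) (by
      intro i hi hs
      rw [testBit_half] at hs
      exact h (i + 1) (by simpa using hi) hs) (by
      intro x hx
      apply h2
      split_ifs
      · simp [hx]
      · exact hx)
    intro i hi
    cases i with
    | zero =>
      by_cases h0 : s.testBit 0
      · rw [if_pos h0] at h2
        exact h2 _ (by simp)
      · exact h 0 (by simp) (by simpa using h0)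
    | succ i => exact ih i (by simpa using hi)

lemma selc_zero' : ∀ (c : ℕ → ZMod 3) (A : List (List ℕ)) (s : ℕ),
    (∀ i < A.length, c i = 0) → ∀ x ∈ selc c A s, x = 0
  | _, [], _, _ => by intro x hx; simp [selc] at hx
  | c, w :: A, s, h => by
    have ih := selc_zero' (fun i => c (i + 1)) A (s / 2) (fun i hi => h (i + 1) (by simpa using hi))
    intro x hx
    rw [selc] at hx
    split_ifs at hx
    · rcases List.mem_cons.mp hx with rfl | hx
      · exact h 0 (by simp)
      · exact ih x hx
    · exact ih x hx

/-- extension of a list of coefficients by zero -/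
def ext : List (List ℕ) → ℕ → List (ZMod 3) → ℕ → ZMod 3
  | [], _, _, _ => 0
  | _ :: A, s, c, 0 => if s.testBit 0 then c.headD 0 else 0
  | _ :: A, s, c, i + 1 => if s.testBit 0 then ext A (s / 2) c.tail i else ext A (s / 2) c i

lemma ext_supp : ∀ (A : List (List ℕ)) (s : ℕ) (c : List (ZMod 3)) (i : ℕ),
    s.testBit i = false → ext A s c i = 0
  | [], _, _, i, _ => by rw [ext]
  | _ :: A, s, c, 0, h => by rw [ext, h]; simp
  | _ :: A, s, c, i + 1, h => by
    rw [ext]
    rw [← testBit_half] at h
    split_ifs
    · exact ext_supp A _ _ i h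
    · exact ext_supp A _ _ i h

lemma selc_ext : ∀ (A : List (List ℕ)) (s : ℕ) (c : List (ZMod 3)),
    c.length = (sel A s).length → selc (ext A s c) A s = c
  | [], s, c, h => by
    rw [sel_nil, List.length_nil, List.length_eq_zero_iff] at h
    rw [h]; rfl
  | w :: A, s, c, h => by
    rw [selc]
    rw [sel_cons] at h
    by_cases h0 : s.testBit 0
    · rw [if_pos h0] at h
      cases c with
      | nil => simp at h
      | cons a c =>
        have e1 : (fun i => ext (w :: A) s (a :: c) (i + 1)) = ext A (s / 2) c := by
          funext i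
          rw [ext, if_pos h0]; rfl
        rw [if_pos h0, e1, selc_ext A (s / 2) c (by simpa using h), ext, if_pos h0]
        rfl
    · rw [if_neg h0] at h
      have e1 : (fun i => ext (w :: A) s c (i + 1)) = ext A (s / 2) c := by
        funext i
        rw [ext, if_neg h0]
      rw [if_neg h0, e1, selc_ext A (s / 2) c h]

/-- independence of the columns selected by a mask -/
lemma LIl_sel_iff {r : ℕ} (A : List (List ℕ)) (s : ℕ) :
    LIl r (sel A s) ↔ ∀ c : ℕ → ZMod 3, (∀ i < A.length, s.testBit i = false → c i = 0) →
      tot r c A = 0 → ∀ i < A.length, c i = 0 := by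
  constructor
  · intro h c hc h0
    rw [tot_eq_lin c A s hc] at h0
    exact selc_zero c A s hc (h _ (selc_length c A s) h0)
  · intro h c hc h0
    have h1 := h (ext A s c) (fun i _ hi => ext_supp A s c i hi) (by
      rw [tot_eq_lin _ A s (fun i _ hi => ext_supp A s c i hi), selc_ext A s c hc]
      exact h0)
    have h2 := selc_zero' (ext A s c) A s h1
    rwa [selc_ext A s c hc] at h2

lemma tot_eq_sum {r : ℕ} : ∀ (A : List (List ℕ)) (c : ℕ → ZMod 3),
    tot r c A = ∑ i : Fin A.length, c i • vec r (A.get i)
  | [], c => by simp [tot]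
  | w :: A, c => by
    rw [tot, tot_eq_sum A]
    rw [show (∑ i : Fin (w :: A).length, c i • vec r ((w :: A).get i)) =
      ∑ i : Fin (A.length + 1), c i • vec r ((w :: A).get i) from rfl, Fin.sum_univ_succ]
    rfl

lemma linearIndepOn_iff' {n r : ℕ} (v : Fin n → (Fin r → ZMod 3)) (I : Set (Fin n)) :
    LinearIndepOn (ZMod 3) v I ↔
      ∀ c : Fin n → ZMod 3, (∀ i, i ∉ I → c i = 0) → ∑ i, c i • v i = 0 → ∀ i, c i = 0 := by
  classical
  have hI : ((Set.toFinset I : Finset (Fin n)) : Set (Fin n)) = I := by simp
  rw [← hI, linearIndepOn_finset_iff]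
  constructor
  · intro h c hc h0 i
    by_cases hi : i ∈ I
    · apply h c _ i (by simpa using hi)
      rw [← h0]
      apply Finset.sum_subset (Finset.subset_univ _)
      intro j _ hj
      rw [hc j (by simpa using hj), zero_smul]
    · exact hc i (by simpa using hi)
  · intro h f hf i hi
    have := h (fun j => if j ∈ I then f j else 0) (by
      intro j hj
      simp only [Set.coe_toFinset] at hj
      simp [hj]) (by
      rw [← hf, ← Finset.sum_subset (Finset.subset_univ (Set.toFinset I))]
      · apply Finset.sum_congr rfl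
        intro j hj
        simp only [Set.mem_toFinset] at hj
        simp [hj]
      · intro j _ hj
        simp only [Set.mem_toFinset] at hj
        simp [hj]) i
    simp only [Set.mem_toFinset] at hi
    simpa [hi] using this

/-- the set of a mask -/
def toSet (n s : ℕ) : Set (Fin n) := {i | s.testBit i = true}

lemma indep_toSet_iff {r : ℕ} (A : List (List ℕ)) (s : ℕ) :
    (colMat r A).Indep (toSet A.length s) ↔ LIl r (sel A s) := by
  rw [colMat_indep, linearIndepOn_iff', LIl_sel_iff]
  constructor
  · intro h c hc h0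
    rw [tot_eq_sum] at h0
    have := h (fun i => c i) (by
      intro i hi
      apply hc i i.2
      simpa [toSet] using hi) h0
    intro i hi
    exact this ⟨i, hi⟩
  · intro h c hc h0 i
    have h1 := h (fun k => if hk : k < A.length then c ⟨k, hk⟩ else 0) (by
      intro k hk hs
      rw [dif_pos hk]
      apply hc
      simp [toSet, hs]) (by
      rw [tot_eq_sum, ← h0]
      apply Finset.sum_congr rfl
      intro j _
      simp) i i.2
    simpa using h1

end Pool.Agent.H67Tern
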