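import Mathlib

set_option autoImplicit false

/-!
# Excluded minors for ternary balanced matroids: definitions
-/

namespace Pool.Agent.H67Tern

open Set Matroid

/-- `nb M U V` is the number of bases of `M` that contain `U` and are disjoint from `V`. -/
noncomputable def nb {α : Type*} (M : Matroid α) (U V : Set α) : ℕ :=
  {B : Set α | M.IsBase B ∧ U ⊆ B ∧ Disjoint V B}.ncard

/-- `M` is negatively correlated: `b_e(M) b_f(M) - b_{ef}(M) b(M) ≥ 0` for all distinct `e`, `f`. -/
def NegCorr {α : Type*} (M : Matroid α) : Prop :=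
  ∀ e ∈ M.E, ∀ f ∈ M.E, e ≠ f →
    nb M {e, f} ∅ * nb M ∅ ∅ ≤ nb M {e} ∅ * nb M {f} ∅

/-- `M` is balanced: `M` and all its minors are negatively correlated. -/
def Balanced {α : Type*} (M : Matroid α) : Prop := ∀ N : Matroid α, N ≤m M → NegCorr N

/-- `M` is ternary: it is represented by vectors over `GF(3)`. -/
def Ternary {α : Type*} (M : Matroid α) : Prop :=
  ∃ (W : Type) (_ : AddCommGroup W) (_ : Module (ZMod 3) W) (v : α → W),
    ∀ I : Set α, I ⊆ M.E → (M.Indep I ↔ LinearIndepOn (ZMod 3) v I)

/-- The class `𝒯` of matroids that are both ternary and balanced. -/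
def InT {α : Type*} (M : Matroid α) : Prop := Ternary M ∧ Balanced M

/-- `M` is an excluded minor for `𝒯`: it is not in `𝒯`, but all its proper minors are. -/
def ExcludedMinor {α : Type*} (M : Matroid α) : Prop :=
  ¬ InT M ∧ ∀ N : Matroid α, N <m M → InT N

end Pool.Agent.H67Tern
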