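import Mathlib
import Pool.Agent.H67Tern.Defs

set_option autoImplicit false

namespace Pool.Agent.H67Tern

open Set Matroid

variable {α : Type*}

/-- every minor is obtained by contracting an independent set and deleting a disjoint
coindependent set -/
lemma minor_nice {M N : Matroid α} (h : N ≤m M) :
    ∃ C D : Set α, M.Indep C ∧ M.Coindep D ∧ Disjoint C D ∧ N = M ／ C ＼ D := by
  obtain ⟨C, D, hC, hD, hCD, rfl⟩ := h.exists_eq_contract_delete_disjoint
  obtain ⟨I, hI⟩ := M.exists_isBasis C hC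
  rw [hI.contract_eq_contract_delete, delete_delete]
  set X : Set α := C \ I ∪ D with hX
  have hXE : X ⊆ (M ／ I).E := by
    rw [contract_ground]
    intro x hx
    rcases hx with hx | hx
    · exact ⟨hC hx.1, hx.2⟩
    · exact ⟨hD hx, fun hxI => (disjoint_left.mp hCD) (hI.subset hxI) hx⟩
  obtain ⟨K, hK⟩ := (M ／ I)✶.exists_isBasis X hXE
  have h1 : (M ／ I) ＼ X = (M ／ I) ＼ K ／ (X \ K) := by
    have := hK.contract_eq_contract_delete
    have h2 : ((M ／ I)✶ ／ X)✶ = ((M ／ I)✶ ／ K ＼ (X \ K))✶ := by rw [this]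
    rw [dual_contract_dual] at h2
    rw [h2, dual_delete, dual_contract, dual_dual]
  have hss : X \ K ⊆ ((M ／ I) ＼ K).coloops := fun e he ↦ by
    rw [← dual_dual ((M ／ I) ＼ K), dual_coloops, dual_delete, ← IsLoop, ← singleton_dep,
      hK.indep.contract_dep_iff, singleton_union, and_iff_right (by simpa using he.2),
      hK.indep.insert_dep_iff, hK.closure_eq_closure]
    exact sdiff_subset_sdiff_left ((M ／ I)✶.subset_closure X) he
  have hJ : ((M ／ I) ＼ K).Indep (X \ K) := (coloops_indep _).subset hss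
  have hJ' : (M ／ I).Indep (X \ K) := hJ.of_delete
  have hK2 : (M ／ I).Coindep K := hK.indep
  rw [coindep_contract_iff] at hK2
  have hdisj : Disjoint K (X \ K) := disjoint_sdiff_right
  refine ⟨I ∪ (X \ K), K, ?_, hK2.1, ?_, ?_⟩
  · rw [hI.indep.contract_indep_iff] at hJ'
    rw [union_comm]
    exact hJ'.2
  · exact (disjoint_union_left.mpr ⟨hK2.2.symm, hdisj.symm⟩)
  · rw [h1, ← contract_contract, contract_delete_comm _ hdisj.symm]

lemma minor_isBase {M : Matroid α} {C D : Set α} (hC : M.Indep C) (hD : M.Coindep D)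
    (hCD : Disjoint C D) (B : Set α) :
    (M ／ C ＼ D).IsBase B ↔ M.IsBase (B ∪ C) ∧ Disjoint B C ∧ Disjoint B D := by
  have hD' : (M ／ C).Coindep D := hD.coindep_contract_of_disjoint hCD.symm
  rw [hD'.delete_isBase_iff, hC.contract_isBase_iff, and_assoc]

lemma nb_minor {M : Matroid α} {C D : Set α} (hC : M.Indep C) (hD : M.Coindep D)
    (hCD : Disjoint C D) {U V : Set α} (hU : U ⊆ (M ／ C ＼ D).E) (hV : V ⊆ (M ／ C ＼ D).E) :
    nb (M ／ C ＼ D) U V = nb M (U ∪ C) (V ∪ D) := by
  unfold nb
  rw [delete_ground, contract_ground] at hU hV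
  apply Set.ncard_congr (fun B _ => B ∪ C)
  · rintro B ⟨hB, hUB, hVB⟩
    rw [minor_isBase hC hD hCD] at hB
    refine ⟨hB.1, union_subset_union_left _ hUB, ?_⟩
    rw [disjoint_union_left, disjoint_union_right, disjoint_union_right]
    refine ⟨⟨hVB, ?_⟩, hB.2.2.symm, hCD.symm⟩
    rw [disjoint_left]
    intro x hx hxC
    exact (hV hx).1.2 hxC
  · rintro B B' ⟨hB, -, -⟩ ⟨hB', -, -⟩ h
    rw [minor_isBase hC hD hCD] at hB hB'
    have := congrArg (fun s => s \ C) h
    simpa [union_sdiff_right, hB.2.1.sdiff_eq_left, hB'.2.1.sdiff_eq_left] using this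
  · rintro B ⟨hB, hUB, hVB⟩
    rw [union_subset_iff] at hUB
    rw [disjoint_union_left] at hVB
    refine ⟨B \ C, ⟨?_, ?_, ?_⟩, ?_⟩
    · rw [minor_isBase hC hD hCD, sdiff_union_self, union_eq_self_of_subset_right hUB.2]
      exact ⟨hB, disjoint_sdiff_left, (hVB.2.symm.mono_left sdiff_subset)⟩
    · rw [subset_sdiff]
      refine ⟨hUB.1, ?_⟩
      rw [disjoint_left]
      intro x hx hxC
      exact (hU hx).1.2 hxC
    · exact hVB.1.mono_right sdiff_subset
    · simp [union_eq_self_of_subset_right hUB.2]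

lemma Ternary.minor {M N : Matroid α} (hM : Ternary M) (h : N ≤m M) : Ternary N := by
  obtain ⟨C, D, hC, hD, hCD, rfl⟩ := minor_nice h
  obtain ⟨W, _, _, v, hv⟩ := hM
  refine ⟨W ⧸ Submodule.span (ZMod 3) (v '' C), inferInstance, inferInstance,
    Submodule.mkQ (Submodule.span (ZMod 3) (v '' C)) ∘ v, fun I hI => ?_⟩
  rw [delete_ground, contract_ground] at hI
  have hIC : Disjoint C I := by
    rw [disjoint_left]
    intro x hx hxI
    exact (hI hxI).1.2 hx
  have hID : Disjoint I D := by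
    rw [disjoint_left]
    intro x hx hxI
    exact (hI hx).2 hxI
  have hCv : LinearIndepOn (ZMod 3) v C := (hv C hC.subset_ground).mp hC
  rw [hCv.quotient_iff_union hIC, delete_indep_iff, hC.contract_indep_iff, and_iff_left hID,
    and_iff_right hIC.symm, union_comm, hv]
  exact union_subset hC.subset_ground (hI.trans (sdiff_subset.trans sdiff_subset))

end Pool.Agent.H67Tern
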