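import Mathlib
import Pool.Agent.H67Tern.Minors
import Pool.Agent.H67Tern.Lin
import Pool.Agent.H67Tern.Pairs

set_option autoImplicit false

namespace Pool.Agent.H67Tern

open Set Matroid Classical

/-- the list of masks of the bases of `colMat r A` -/
def baseList (r : ℕ) (A : List (List ℕ)) : List ℕ :=
  (List.range (2 ^ A.length)).filter (fun s => Nat.beq (sel A s).length r && indepF r (sel A s))

lemma toSet_ofBits {n : ℕ} (I : Set (Fin n)) :
    toSet n (Nat.ofBits (fun i : Fin n => decide (i ∈ I))) = I := by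
  ext i
  simp [toSet]

lemma toSet_inj {n s t : ℕ} (hs : s < 2 ^ n) (ht : t < 2 ^ n) (h : toSet n s = toSet n t) :
    s = t := by
  apply Nat.eq_of_testBit_eq
  intro i
  by_cases hi : i < n
  · have := Set.ext_iff.mp h ⟨i, hi⟩
    simp only [toSet, Set.mem_setOf_eq] at this
    exact Bool.eq_iff_iff.mpr this
  · rw [Nat.testBit_lt_two_pow (lt_of_lt_of_le hs (Nat.pow_le_pow_right (by norm_num)
      (not_lt.mp hi))), Nat.testBit_lt_two_pow (lt_of_lt_of_le ht
      (Nat.pow_le_pow_right (by norm_num) (not_lt.mp hi)))]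

lemma sel_length : ∀ (A : List (List ℕ)) (s : ℕ),
    (sel A s).length = ∑ i : Fin A.length, if s.testBit i then 1 else 0
  | [], s => by simp [sel_nil]
  | w :: A, s => by
    have h1 : (∑ i : Fin (w :: A).length, if s.testBit i then 1 else 0) =
      ∑ i : Fin (A.length + 1), if s.testBit i then 1 else 0 := rfl
    rw [h1, Fin.sum_univ_succ, sel_cons]
    have h2 : (∑ i : Fin A.length, if s.testBit ((Fin.succ i : Fin (A.length + 1)) : ℕ)
        then 1 else 0) = (sel A (s / 2)).length := by
      rw [sel_length A (s / 2)]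
      apply Finset.sum_congr rfl
      intro i _
      rw [testBit_half, Fin.val_succ]
    rw [h2]
    by_cases h0 : s.testBit 0
    · rw [if_pos h0]
      simp [h0, add_comm]
    · rw [if_neg h0]
      simp [h0]

lemma ncard_toSet (A : List (List ℕ)) (s : ℕ) :
    (toSet A.length s).ncard = (sel A s).length := by
  rw [sel_length, Set.ncard_eq_toFinset_card', ← Finset.card_filter]
  congr 1
  ext i
  simp [toSet]

lemma indep_ncard_le {r : ℕ} {A : List (List ℕ)} {I : Set (Fin A.length)}
    (h : (colMat r A).Indep I) : I.ncard ≤ r := by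
  rw [colMat_indep] at h
  have h1 := LinearIndependent.fintype_card_le_finrank (R := ZMod 3) h
  rw [Module.finrank_fin_fun, ← Nat.card_eq_fintype_card, Nat.card_coe_set_eq] at h1
  exact h1

lemma mem_baseList {r : ℕ} {A : List (List ℕ)} (hA : ∀ w ∈ A, w.length = r) {s : ℕ} :
    s ∈ baseList r A ↔ s < 2 ^ A.length ∧ (toSet A.length s).ncard = r ∧
      (colMat r A).Indep (toSet A.length s) := by
  have hsel : ∀ w ∈ sel A s, w.length = r := by
    have : ∀ (A : List (List ℕ)) (s : ℕ), ∀ w ∈ sel A s, w ∈ A := by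
      intro A
      induction A with
      | nil => intro s w hw; simp [sel_nil] at hw
      | cons u A ih =>
        intro s w hw
        rw [sel_cons] at hw
        split_ifs at hw
        · rcases List.mem_cons.mp hw with rfl | hw
          · simp
          · simp [ih _ w hw]
        · simp [ih _ w hw]
    exact fun w hw => hA w (this A s w hw)
  rw [baseList, List.mem_filter, List.mem_range, Bool.and_eq_true, Nat.beq_eq,
    ncard_toSet, indep_toSet_iff]
  apply and_congr_right
  intro _
  apply and_congr_right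
  intro h
  exact indepF_iff r _ hsel (le_of_eq h)

lemma isBase_iff {r : ℕ} {A : List (List ℕ)} (hA : ∀ w ∈ A, w.length = r)
    (hne : baseList r A ≠ []) (B : Set (Fin A.length)) :
    (colMat r A).IsBase B ↔ B.ncard = r ∧ (colMat r A).Indep B := by
  obtain ⟨s, hs⟩ := List.exists_mem_of_ne_nil _ hne
  rw [mem_baseList hA] at hs
  obtain ⟨-, h1, h2⟩ := hs
  obtain ⟨B0, hB0, hsub⟩ := h2.exists_isBase_superset
  have hc0 : B0.ncard = r := by
    apply le_antisymm (indep_ncard_le hB0.indep)
    rw [← h1]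
    exact Set.ncard_le_ncard hsub (Set.toFinite _)
  constructor
  · intro hB
    exact ⟨by rw [hB.ncard_eq_ncard_of_isBase hB0, hc0], hB.indep⟩
  · rintro ⟨h3, h4⟩
    obtain ⟨B1, hB1, hsub1⟩ := h4.exists_isBase_superset
    have hc1 : B1.ncard = r := by rw [hB1.ncard_eq_ncard_of_isBase hB0, hc0]
    have : B = B1 := Set.eq_of_subset_of_ncard_le hsub1 (by rw [h3, hc1]) (Set.toFinite _)
    rw [this]
    exact hB1

lemma baseList_lt {r : ℕ} {A : List (List ℕ)} {s : ℕ} (h : s ∈ baseList r A) :
    s < 2 ^ A.length := by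
  rw [baseList, List.mem_filter, List.mem_range] at h
  exact h.1

lemma baseList_nodup (r : ℕ) (A : List (List ℕ)) : (baseList r A).Nodup :=
  List.Nodup.filter _ List.nodup_range

/-- predicate on ℕ of a subset of `Fin n` -/
def pr {n : ℕ} (U : Set (Fin n)) : ℕ → Prop := fun i => ∃ h : i < n, (⟨i, h⟩ : Fin n) ∈ U

lemma nb_eq {r : ℕ} {A : List (List ℕ)} (hA : ∀ w ∈ A, w.length = r)
    (hne : baseList r A ≠ []) (U V : Set (Fin A.length)) (P : ℕ → Bool)
    (hP : ∀ s < 2 ^ A.length, P s = true ↔ (U ⊆ toSet A.length s ∧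
      Disjoint V (toSet A.length s))) :
    nb (colMat r A) U V = (baseList r A).countP P := by
  unfold nb
  rw [List.countP_eq_length_filter]
  have h1 : ((baseList r A).filter P).toFinset.card = ((baseList r A).filter P).length :=
    List.toFinset_card_of_nodup ((baseList_nodup r A).filter _)
  rw [← h1, ← Set.ncard_coe_finset]
  symm
  apply Set.ncard_congr (fun s _ => toSet A.length s)
  · intro s hs
    simp only [Finset.mem_coe, List.mem_toFinset, List.mem_filter] at hs
    obtain ⟨h2, h3⟩ := hs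
    have hlt := baseList_lt h2
    rw [mem_baseList hA] at h2
    rw [hP s hlt] at h3
    exact ⟨(isBase_iff hA hne _).mpr ⟨h2.2.1, h2.2.2⟩, h3.1, h3.2⟩
  · intro s t hs ht h
    simp only [Finset.mem_coe, List.mem_toFinset, List.mem_filter] at hs ht
    exact toSet_inj (baseList_lt hs.1) (baseList_lt ht.1) h
  · rintro B ⟨hB, hU, hV⟩
    have hlt : Nat.ofBits (fun i : Fin A.length => decide (i ∈ B)) < 2 ^ A.length :=
      Nat.ofBits_lt_two_pow _
    refine ⟨Nat.ofBits (fun i : Fin A.length => decide (i ∈ B)), ?_, toSet_ofBits B⟩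
    simp only [Finset.mem_coe, List.mem_toFinset, List.mem_filter]
    rw [mem_baseList hA, hP _ hlt, toSet_ofBits]
    rw [isBase_iff hA hne] at hB
    exact ⟨⟨hlt, hB.1, hB.2⟩, hU, hV⟩

lemma nb_eq_cnt {r : ℕ} {A : List (List ℕ)} (hA : ∀ w ∈ A, w.length = r)
    (hne : baseList r A ≠ []) (U V : Set (Fin A.length)) :
    nb (colMat r A) U V = cnt A.length (baseList r A) (pr U) (pr V) := by
  apply nb_eq hA hne
  intro s _
  simp only [decide_eq_true_eq]
  constructor
  · intro h
    constructor
    · intro i hi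
      exact (h i i.2).1 ⟨i.2, hi⟩
    · rw [Set.disjoint_left]
      intro i hi hi2
      have := (h i i.2).2 ⟨i.2, hi⟩
      simp only [toSet, Set.mem_setOf_eq] at hi2
      rw [hi2] at this
      exact absurd this (by decide)
  · rintro ⟨h1, h2⟩ i hi
    constructor
    · rintro ⟨hi', hU⟩
      exact h1 hU
    · rintro ⟨hi', hV⟩
      rw [Set.disjoint_left] at h2
      have := h2 hV
      simp only [toSet, Set.mem_setOf_eq] at this
      simpa using this

lemma nb_empty {r : ℕ} {A : List (List ℕ)} (hA : ∀ w ∈ A, w.length = r)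
    (hne : baseList r A ≠ []) : nb (colMat r A) ∅ ∅ = (baseList r A).length := by
  rw [nb_eq hA hne ∅ ∅ (fun _ => true) (by intro s _; simp)]
  simp

lemma nb_single {r : ℕ} {A : List (List ℕ)} (hA : ∀ w ∈ A, w.length = r)
    (hne : baseList r A ≠ []) (e : Fin A.length) :
    nb (colMat r A) {e} ∅ = (baseList r A).countP (fun s => s.testBit e) := by
  rw [nb_eq hA hne {e} ∅ (fun s => s.testBit e) (by intro s _; simp [toSet])]

lemma nb_pair {r : ℕ} {A : List (List ℕ)} (hA : ∀ w ∈ A, w.length = r)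
    (hne : baseList r A ≠ []) (e f : Fin A.length) :
    nb (colMat r A) {e, f} ∅ =
      (baseList r A).countP (fun s => s.testBit e && s.testBit f) := by
  rw [nb_eq hA hne {e, f} ∅ (fun s => s.testBit e && s.testBit f)
    (by intro s _; simp [toSet, Set.insert_subset_iff])]

/-- splitting of a count -/
lemma nb_split {n : ℕ} (M : Matroid (Fin n)) (U V : Set (Fin n)) (x : Fin n) :
    nb M U V = nb M (U ∪ {x}) V + nb M U (V ∪ {x}) := by
  unfold nb
  rw [← Set.ncard_union_eq _ (Set.toFinite _) (Set.toFinite _)]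
  · congr 1
    ext B
    simp only [Set.mem_setOf_eq, Set.mem_union, Set.union_subset_iff, Set.disjoint_union_left,
      Set.singleton_subset_iff, Set.disjoint_singleton_left]
    tauto
  · rw [Set.disjoint_left]
    rintro B ⟨-, h1, -⟩ ⟨-, -, h2⟩
    rw [Set.disjoint_left] at h2
    exact h2 (by simp : x ∈ V ∪ {x}) (h1 (by simp))

lemma four {n : ℕ} (M : Matroid (Fin n)) (C D : Set (Fin n)) (e f : Fin n)
    (h : nb M (C ∪ {e} ∪ {f}) D * nb M C (D ∪ {e} ∪ {f}) ≤
      nb M (C ∪ {f}) (D ∪ {e}) * nb M (C ∪ {e}) (D ∪ {f})) :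
    nb M (C ∪ {e} ∪ {f}) D * nb M C D ≤ nb M (C ∪ {e}) D * nb M (C ∪ {f}) D := by
  have h1 : nb M C D = nb M (C ∪ {e}) D + nb M C (D ∪ {e}) := nb_split M C D e
  have h2 : nb M (C ∪ {e}) D = nb M (C ∪ {e} ∪ {f}) D + nb M (C ∪ {e}) (D ∪ {f}) :=
    nb_split M _ _ f
  have h3 : nb M C (D ∪ {e}) = nb M (C ∪ {f}) (D ∪ {e}) + nb M C (D ∪ {e} ∪ {f}) :=
    nb_split M _ _ f
  have h4 : nb M (C ∪ {f}) D = nb M (C ∪ {f} ∪ {e}) D + nb M (C ∪ {f}) (D ∪ {e}) :=
    nb_split M _ _ e
  have h5 : C ∪ {f} ∪ {e} = C ∪ {e} ∪ {f} := by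
    rw [Set.union_assoc, Set.union_assoc, Set.union_comm {f}]
  rw [h5] at h4
  rw [h1, h3, h4, h2]
  nlinarith [h]

lemma key {q r : ℕ} {A : List (List ℕ)} (hA : ∀ w ∈ A, w.length = r)
    (hne : baseList r A ≠ []) (hn : 2 ≤ A.length) (hlen : (baseList r A).length < q)
    (h : allPairs q A.length (baseList r A) = true)
    {C D : Set (Fin A.length)} (hCD : Disjoint C D) (hne2 : (C ∪ D).Nonempty)
    {e f : Fin A.length} (hef : e < f) (he : e ∉ C ∪ D) (hf : f ∉ C ∪ D) :
    nb (colMat r A) (C ∪ {e} ∪ {f}) D * nb (colMat r A) C (D ∪ {e} ∪ {f}) ≤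
      nb (colMat r A) (C ∪ {f}) (D ∪ {e}) * nb (colMat r A) (C ∪ {e}) (D ∪ {f}) := by
  rw [nb_eq_cnt hA hne, nb_eq_cnt hA hne, nb_eq_cnt hA hne, nb_eq_cnt hA hne]
  simp only [Set.mem_union, not_or] at he hf
  have hpr : ∀ (X : Set (Fin A.length)) (x : Fin A.length),
      pr (X ∪ {x}) = fun i => pr X i ∨ i = x := by
    intro X x
    funext i
    apply propext
    unfold pr
    constructor
    · rintro ⟨hi, h | h⟩
      · exact Or.inl ⟨hi, h⟩
      · exact Or.inr (by rw [Set.mem_singleton_iff] at h; rw [← h])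
    · rintro (⟨hi, h⟩ | rfl)
      · exact ⟨hi, Or.inl h⟩
      · exact ⟨x.2, Or.inr rfl⟩
  have hnot : ∀ (X : Set (Fin A.length)) (x : Fin A.length), x ∉ X → ¬ pr X x := by
    rintro X x hx ⟨_, h⟩
    exact hx h
  have := allPairs_sound (e := e) (f := f) hn (fun s hs => baseList_lt hs) hlen h
    (by exact_mod_cast hef) f.2 (C := pr C) (D := pr D)
    (by
      rintro i ⟨⟨h1, h2⟩, ⟨h3, h4⟩⟩
      exact (Set.disjoint_left.mp hCD) h2 h4)
    (hnot C e he.1) (hnot C f hf.1) (hnot D e he.2) (hnot D f hf.2)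
    (by
      obtain ⟨x, hx⟩ := hne2
      refine ⟨x, x.2, ?_⟩
      rcases hx with hx | hx
      · exact Or.inl ⟨x.2, hx⟩
      · exact Or.inr ⟨x.2, hx⟩)
  simp only [hpr, or_assoc]
  exact this

lemma ternary_colMat (r : ℕ) (A : List (List ℕ)) : Ternary (colMat r A) :=
  ⟨Fin r → ZMod 3, inferInstance, inferInstance, fun i => vec r (A.get i), fun _ _ => Iff.rfl⟩

/-- the main criterion -/
theorem excludedMinor_of_check {q r : ℕ} {A : List (List ℕ)} (hA : ∀ w ∈ A, w.length = r)
    (hn : 2 ≤ A.length) (hlen : (baseList r A).length < q)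
    (h : allPairs q A.length (baseList r A) = true)
    (hv : ∃ e f : Fin A.length, e ≠ f ∧
      (baseList r A).countP (fun s => s.testBit e) * (baseList r A).countP (fun s => s.testBit f)
      < (baseList r A).countP (fun s => s.testBit e && s.testBit f) * (baseList r A).length) :
    ExcludedMinor (colMat r A) := by
  have hne : baseList r A ≠ [] := by
    intro h0
    obtain ⟨e, f, -, h2⟩ := hv
    rw [h0] at h2
    simp at h2
  constructor
  · rintro ⟨-, hb⟩
    have h1 := hb (colMat r A) IsMinor.refl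
    obtain ⟨e, f, hef, h2⟩ := hv
    have h3 := h1 e (Set.mem_univ e) f (Set.mem_univ f) hef
    rw [nb_empty hA hne, nb_single hA hne, nb_single hA hne, nb_pair hA hne] at h3
    exact absurd h2 (not_lt.mpr h3)
  · intro N hN
    refine ⟨(ternary_colMat r A).minor hN.isMinor, fun N' hN' => ?_⟩
    have hlt : N' <m colMat r A := hN'.trans_isStrictMinor hN
    obtain ⟨C, D, hC, hD, hCD, rfl⟩ := minor_nice hlt.isMinor
    have hne2 : (C ∪ D).Nonempty := by
      rw [Set.nonempty_iff_ne_empty]
      intro h0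
      rw [Set.union_empty_iff] at h0
      rw [h0.1, h0.2, contract_empty, delete_empty] at hlt
      exact isStrictMinor_irrefl _ hlt
    have hmain : ∀ e f : Fin A.length, e < f → e ∉ C ∪ D → f ∉ C ∪ D →
        nb (colMat r A) (C ∪ {e} ∪ {f}) D * nb (colMat r A) C D ≤
          nb (colMat r A) (C ∪ {e}) D * nb (colMat r A) (C ∪ {f}) D := by
      intro e f hef he hf
      exact four _ C D e f (key hA hne hn hlen h hCD hne2 hef he hf)
    intro e he f hf hef
    have hE : ∀ x ∈ (colMat r A ／ C ＼ D).E, x ∉ C ∪ D := by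
      intro x hx
      rw [delete_ground, contract_ground] at hx
      rintro (h1 | h1)
      · exact hx.1.2 h1
      · exact hx.2 h1
    rw [nb_minor hC hD hCD (by
        intro x hx
        rcases hx with rfl | hx
        · exact he
        · rw [Set.mem_singleton_iff] at hx; rw [hx]; exact hf) (Set.empty_subset _),
      nb_minor hC hD hCD (Set.empty_subset _) (Set.empty_subset _),
      nb_minor hC hD hCD (Set.singleton_subset_iff.mpr he) (Set.empty_subset _),
      nb_minor hC hD hCD (Set.singleton_subset_iff.mpr hf) (Set.empty_subset _)]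
    simp only [Set.empty_union]
    have e1 : ({e, f} : Set (Fin A.length)) ∪ C = C ∪ {e} ∪ {f} := by
      ext x; simp only [Set.mem_union, Set.mem_insert_iff, Set.mem_singleton_iff]; tauto
    rw [e1, Set.union_comm {e} C, Set.union_comm {f} C]
    rcases lt_or_gt_of_ne hef with hlt' | hlt'
    · exact hmain e f hlt' (hE e he) (hE f hf)
    · have := hmain f e hlt' (hE f hf) (hE e he)
      have e2 : C ∪ {f} ∪ {e} = C ∪ {e} ∪ {f} := by
        rw [Set.union_assoc, Set.union_assoc, Set.union_comm {f}]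
      rw [e2] at this
      rw [mul_comm (nb (colMat r A) (C ∪ {e}) D)]
      exact this

end Pool.Agent.H67Tern
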