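import Mathlib
import Pool.Agent.H67Tern.Main
import Pool.Agent.H67Tern.ChkW

set_option autoImplicit false

namespace Pool.Agent.H67Tern

open Set Matroid Classical

/-- The parallel extension of `N` in which the element `i` is replaced by `w i` parallel copies
`(i, 0), …, (i, w i - 1)`: a set is independent if it contains at most one copy of each element
and the set of these elements is independent in `N`. -/
def parExt {n : ℕ} (N : Matroid (Fin n)) (w : Fin n → ℕ) : Matroid ((i : Fin n) × Fin (w i)) :=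
  N.comap Sigma.fst

variable {n : ℕ}

/-- splitting of a count -/
lemma nb_split' {α : Type*} [Finite α] (M : Matroid α) (U V : Set α) (x : α) :
    nb M U V = nb M (U ∪ {x}) V + nb M U (V ∪ {x}) := by
  unfold nb
  rw [← Set.ncard_union_eq _ (Set.toFinite _) (Set.toFinite _)]
  · congr 1
    ext B
    simp only [Set.mem_setOf_eq, Set.mem_union, Set.union_subset_iff, Set.disjoint_union_left,
      Set.singleton_subset_iff, Set.disjoint_singleton_left]
    tauto
  · rw [Set.disjoint_left]
    rintro B ⟨-, h1, -⟩ ⟨-, -, h2⟩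
    rw [Set.disjoint_left] at h2
    exact h2 (by simp : x ∈ V ∪ {x}) (h1 (by simp))

lemma four_iff {α : Type*} [Finite α] (M : Matroid α) (C D : Set α) (e f : α) :
    nb M (C ∪ {e} ∪ {f}) D * nb M C D ≤ nb M (C ∪ {e}) D * nb M (C ∪ {f}) D ↔
    nb M (C ∪ {e} ∪ {f}) D * nb M C (D ∪ {e} ∪ {f}) ≤
      nb M (C ∪ {f}) (D ∪ {e}) * nb M (C ∪ {e}) (D ∪ {f}) := by
  have h1 : nb M C D = nb M (C ∪ {e}) D + nb M C (D ∪ {e}) := nb_split' M C D e
  have h2 : nb M (C ∪ {e}) D = nb M (C ∪ {e} ∪ {f}) D + nb M (C ∪ {e}) (D ∪ {f}) :=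
    nb_split' M _ _ f
  have h3 : nb M C (D ∪ {e}) = nb M (C ∪ {f}) (D ∪ {e}) + nb M C (D ∪ {e} ∪ {f}) :=
    nb_split' M _ _ f
  have h4 : nb M (C ∪ {f}) D = nb M (C ∪ {f} ∪ {e}) D + nb M (C ∪ {f}) (D ∪ {e}) :=
    nb_split' M _ _ e
  have h5 : C ∪ {f} ∪ {e} = C ∪ {e} ∪ {f} := by
    rw [Set.union_assoc, Set.union_assoc, Set.union_comm {f}]
  rw [h5] at h4
  rw [h1, h3, h4, h2]
  constructor <;> intro h <;> nlinarith [h]

/-- families of slices -/
def slices (w : Fin n → ℕ) : Set ((i : Fin n) × Fin (w i)) ≃ ((i : Fin n) → Set (Fin (w i))) where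
  toFun B i := {x | ⟨i, x⟩ ∈ B}
  invFun F := {p | p.2 ∈ F p.1}
  left_inv B := by ext ⟨i, x⟩; rfl
  right_inv F := by funext i; ext x; rfl

/-- the condition on a slice -/
def PS (w : Fin n → ℕ) (U V : Set ((i : Fin n) × Fin (w i))) (s : ℕ) (i : Fin n)
    (X : Set (Fin (w i))) : Prop :=
  (if s.testBit i then ∃ x, X = {x} else X = ∅) ∧ (∀ y, (⟨i, y⟩ : (i : Fin n) × Fin (w i)) ∈ U → y ∈ X)
    ∧ (∀ y ∈ X, (⟨i, y⟩ : (i : Fin n) × Fin (w i)) ∉ V)

noncomputable def Nf (w : Fin n → ℕ) (U V : Set ((i : Fin n) × Fin (w i))) (s : ℕ)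
    (i : Fin n) : ℕ :=
  if s.testBit i then {x : Fin (w i) | (⟨i, x⟩ : (i : Fin n) × Fin (w i)) ∉ V ∧
      ∀ y, (⟨i, y⟩ : (i : Fin n) × Fin (w i)) ∈ U → y = x}.ncard
  else (if ∃ y, (⟨i, y⟩ : (i : Fin n) × Fin (w i)) ∈ U then 0 else 1)

lemma card_PS (w : Fin n → ℕ) (U V : Set ((i : Fin n) × Fin (w i))) (s : ℕ) (i : Fin n) :
    Nat.card {X : Set (Fin (w i)) // PS w U V s i X} = Nf w U V s i := by
  unfold Nf
  by_cases hs : s.testBit i
  · rw [if_pos hs, ← Nat.card_coe_set_eq]
    symm
    apply Nat.card_congr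
    refine Equiv.ofBijective (fun x => ⟨{x.1}, ?_⟩) ⟨?_, ?_⟩
    · refine ⟨?_, ?_, ?_⟩
      · rw [if_pos hs]; exact ⟨x.1, rfl⟩
      · intro y hy
        exact x.2.2 y hy
      · intro y hy
        rw [Set.mem_singleton_iff] at hy
        rw [hy]
        exact x.2.1
    · intro x y hxy
      have := congrArg Subtype.val hxy
      exact Subtype.ext (Set.singleton_injective this)
    · rintro ⟨X, h1, h2, h3⟩
      rw [if_pos hs] at h1
      obtain ⟨x, rfl⟩ := h1
      exact ⟨⟨x, h3 x rfl, fun y hy => h2 y hy⟩, rfl⟩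
  · rw [if_neg hs]
    by_cases hU : ∃ y, (⟨i, y⟩ : (i : Fin n) × Fin (w i)) ∈ U
    · rw [if_pos hU]
      obtain ⟨y, hy⟩ := hU
      have : IsEmpty {X : Set (Fin (w i)) // PS w U V s i X} := by
        constructor
        rintro ⟨X, h1, h2, -⟩
        rw [if_neg hs] at h1
        have := h2 y hy
        rw [h1] at this
        exact this
      exact Nat.card_of_isEmpty
    · rw [if_neg hU]
      rw [Nat.card_eq_one_iff_unique]
      constructor
      · constructor
        rintro ⟨X, h1, h1'⟩ ⟨Y, h2, h2'⟩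
        apply Subtype.ext
        change X = Y
        rw [if_neg hs] at h1 h2
        exact h1.trans h2.symm
      · refine ⟨⟨∅, ?_, ?_, ?_⟩⟩
        · rw [if_neg hs]
        · intro y hy
          exact absurd ⟨y, hy⟩ hU
        · intro y hy
          exact absurd hy (by simp)

lemma fst_image_univ {w : Fin n → ℕ} (hw : ∀ i, 1 ≤ w i) :
    (Sigma.fst '' (Set.univ : Set ((i : Fin n) × Fin (w i)))) = Set.univ := by
  ext i
  simp only [Set.mem_image, Set.mem_univ, true_and, iff_true]
  exact ⟨⟨i, ⟨0, hw i⟩⟩, rfl⟩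

lemma parExt_isBase {N : Matroid (Fin n)} (hN : N.E = Set.univ) {w : Fin n → ℕ}
    (hw : ∀ i, 1 ≤ w i) (B : Set ((i : Fin n) × Fin (w i))) :
    (parExt N w).IsBase B ↔ N.IsBase (Sigma.fst '' B) ∧ B.InjOn Sigma.fst := by
  unfold parExt
  rw [comap_isBase_iff, hN, Set.preimage_univ, fst_image_univ hw, ← hN, isBasis_ground_iff]
  constructor
  · rintro ⟨h1, h2, -⟩; exact ⟨h1, h2⟩
  · rintro ⟨h1, h2⟩; exact ⟨h1, h2, by simp [hN]⟩

lemma base_slices {r : ℕ} {A : List (List ℕ)} (hA : ∀ w ∈ A, w.length = r)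
    (hne : baseList r A ≠ []) {w : Fin A.length → ℕ} (hw : ∀ i, 1 ≤ w i)
    (U V B : Set ((i : Fin A.length) × Fin (w i))) {s : ℕ} (hs : s ∈ baseList r A) :
    ((parExt (colMat r A) w).IsBase B ∧ U ⊆ B ∧ Disjoint V B) ∧
      Nat.ofBits (fun i : Fin A.length => decide (i ∈ Sigma.fst '' B)) = s ↔
    ∀ i, PS w U V s i (slices w B i) := by
  have hslt := baseList_lt hs
  constructor
  · rintro ⟨⟨h1, h2, h3⟩, h4⟩ i
    rw [parExt_isBase (colMat_E r A) hw] at h1
    have h5 : ∀ i : Fin A.length, s.testBit i = true ↔ i ∈ Sigma.fst '' B := by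
      intro i
      rw [← h4, Nat.testBit_ofBits_lt _ _ i.2]
      simp
    refine ⟨?_, ?_, ?_⟩
    · by_cases hb : s.testBit i
      · rw [if_pos hb]
        obtain ⟨⟨i', x⟩, hx, hi'⟩ := (h5 i).mp hb
        obtain rfl : i' = i := hi'
        refine ⟨x, ?_⟩
        ext y
        rw [Set.mem_singleton_iff]
        constructor
        · intro hy
          have hy' : (⟨i', y⟩ : (i : Fin A.length) × Fin (w i)) ∈ B := hy
          have := h1.2 hy' hx rfl
          have h6 := Sigma.mk.inj_iff.mp this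
          exact eq_of_heq h6.2
        · intro hyx
          rw [hyx]
          exact hx
      · rw [if_neg hb]
        ext y
        simp only [slices, Equiv.coe_fn_mk, Set.mem_setOf_eq, Set.mem_empty_iff_false, iff_false]
        intro hy
        exact hb ((h5 i).mpr ⟨_, hy, rfl⟩)
    · intro y hy
      exact h2 hy
    · intro y hy hV
      exact (Set.disjoint_left.mp h3) hV hy
  · intro h
    have h5 : ∀ i : Fin A.length, i ∈ Sigma.fst '' B ↔ s.testBit i = true := by
      intro i
      constructor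
      · rintro ⟨⟨i', x⟩, hx, rfl⟩
        by_contra hb
        have h6 := (h i').1
        rw [if_neg hb] at h6
        have : x ∈ slices w B i' := hx
        rw [h6] at this
        exact this
      · intro hb
        have h6 := (h i).1
        rw [if_pos hb] at h6
        obtain ⟨x, hx⟩ := h6
        have : x ∈ slices w B i := by rw [hx]; rfl
        exact ⟨⟨i, x⟩, this, rfl⟩
    have h6 : Sigma.fst '' B = toSet A.length s := by
      ext i
      rw [h5 i]
      rfl
    refine ⟨⟨?_, ?_, ?_⟩, ?_⟩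
    · rw [parExt_isBase (colMat_E r A) hw, h6]
      constructor
      · rw [mem_baseList hA] at hs
        rw [isBase_iff hA hne]
        exact ⟨hs.2.1, hs.2.2⟩
      · rintro ⟨i, x⟩ hx ⟨j, y⟩ hy hij
        obtain rfl : i = j := hij
        have h7 := (h i).1
        have hb : s.testBit i = true := (h5 i).mp ⟨_, hx, rfl⟩
        rw [if_pos hb] at h7
        obtain ⟨z, hz⟩ := h7
        have e1 : x ∈ slices w B i := hx
        have e2 : y ∈ slices w B i := hy
        rw [hz] at e1 e2
        rw [Set.mem_singleton_iff.mp e1, Set.mem_singleton_iff.mp e2]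
    · rintro ⟨i, x⟩ hx
      exact (h i).2.1 x hx
    · rw [Set.disjoint_left]
      rintro ⟨i, x⟩ hx hx2
      exact (h i).2.2 x hx2 hx
    · apply toSet_inj (Nat.ofBits_lt_two_pow _) hslt
      rw [toSet_ofBits, h6]

/-- the counting formula -/
lemma nb_parExt {r : ℕ} {A : List (List ℕ)} (hA : ∀ w ∈ A, w.length = r)
    (hne : baseList r A ≠ []) {w : Fin A.length → ℕ} (hw : ∀ i, 1 ≤ w i)
    (U V : Set ((i : Fin A.length) × Fin (w i))) :
    nb (parExt (colMat r A) w) U V =
      ((baseList r A).map (fun s => ∏ i, Nf w U V s i)).sum := by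
  unfold nb
  rw [Set.ncard_eq_toFinset_card']
  rw [Finset.card_eq_sum_card_fiberwise
    (f := fun B => Nat.ofBits (fun i : Fin A.length => decide (i ∈ Sigma.fst '' B)))
    (t := (baseList r A).toFinset)]
  · rw [← List.sum_toFinset _ (baseList_nodup r A)]
    apply Finset.sum_congr rfl
    intro s hs
    rw [List.mem_toFinset] at hs
    have h1 : (Finset.filter (fun B => Nat.ofBits
        (fun i : Fin A.length => decide (i ∈ Sigma.fst '' B)) = s)
        ({B : Set ((i : Fin A.length) × Fin (w i)) | (parExt (colMat r A) w).IsBase B ∧ U ⊆ B ∧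
          Disjoint V B}).toFinset).card
        = Nat.card {B : Set ((i : Fin A.length) × Fin (w i)) //
            ∀ i, PS w U V s i (slices w B i)} := by
      rw [Nat.card_eq_fintype_card, Fintype.card_subtype]
      congr 1
      ext B
      rw [Finset.mem_filter, Set.mem_toFinset, Finset.mem_filter, Set.mem_setOf_eq]
      simp only [Finset.mem_univ, true_and]
      exact base_slices hA hne hw U V B hs
    rw [h1]
    have h2 : Nat.card {B : Set ((i : Fin A.length) × Fin (w i)) //
            ∀ i, PS w U V s i (slices w B i)} =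
        Nat.card {F : (i : Fin A.length) → Set (Fin (w i)) // ∀ i, PS w U V s i (F i)} :=
      Nat.card_congr ((slices w).subtypeEquiv (fun B => Iff.rfl))
    rw [h2, Nat.card_congr (Equiv.subtypePiEquivPi), Nat.card_pi]
    apply Finset.prod_congr rfl
    intro i _
    exact card_PS w U V s i
  · intro B hB
    rw [Finset.mem_coe, Set.mem_toFinset, Set.mem_setOf_eq] at hB
    rw [Finset.mem_coe, List.mem_toFinset, mem_baseList hA, toSet_ofBits]
    have h1 := hB.1
    rw [parExt_isBase (colMat_E r A) hw, isBase_iff hA hne] at h1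
    exact ⟨Nat.ofBits_lt_two_pow _, h1.1.1, h1.1.2⟩

end Pool.Agent.H67Tern
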