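import Mathlib
import Pool.Agent.H67Tern.Blow

set_option autoImplicit false

namespace Pool.Agent.H67Tern

open Set Matroid Classical

/-- the factor for a class outside the pair -/
noncomputable def gf (C : ℕ → Prop) (a : ℕ → ℕ) (s k : ℕ) : ℕ :=
  if C k then (if s.testBit k then 1 else 0) else (if s.testBit k then a k else 1)

lemma prod_orig {e f n : ℕ} (hef : e < f) (hf : f < n) (F : ℕ → ℕ) :
    ∏ k ∈ ((Finset.range n).erase e).erase f, F k = ∏ i ∈ Finset.range (n - 2), F (orig e f i) := by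
  symm
  apply Finset.prod_bij (fun i _ => orig e f i)
  · intro i hi
    rw [Finset.mem_range] at hi
    rw [Finset.mem_erase, Finset.mem_erase, Finset.mem_range]
    exact ⟨(orig_ne hef).2, (orig_ne hef).1, orig_lt hef hf hi⟩
  · intro i hi j hj h
    unfold orig at h
    split_ifs at h <;> omega
  · intro k hk
    rw [Finset.mem_erase, Finset.mem_erase, Finset.mem_range] at hk
    obtain ⟨i, hi, h⟩ := exists_orig hef hf hk.2.2 hk.2.1 hk.1
    exact ⟨i, Finset.mem_range.mpr hi, h⟩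
  · intro i _
    rfl

/-- product over the classes outside the pair -/
noncomputable def G (n e f : ℕ) (C : ℕ → Prop) (a : ℕ → ℕ) (s : ℕ) : ℕ :=
  ∏ k ∈ ((Finset.range n).erase e).erase f, gf C a s k

noncomputable def PP (n e f : ℕ) (C : ℕ → Prop) (a : ℕ → ℕ) (L : List ℕ) (u v : Bool) : ℕ :=
  (L.map (fun s => if s.testBit e = u ∧ s.testBit f = v then G n e f C a s else 0)).sum

lemma WK_eq_PP {n e f : ℕ} (hef : e < f) (hf : f < n) (C : ℕ → Prop) (a : ℕ → ℕ) (L : List ℕ)
    (u v : Bool) (j : ℕ) (hj : j = (if v then 1 else 0) + (if u then 2 else 0)) :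
    WK (n - 2) (fun i => C (orig e f i)) (fun i => a (orig e f i)) j
      (L.map (fun B => mv f (mv e B))) = PP n e f C a L u v := by
  unfold WK PP
  rw [List.map_map]
  congr 1
  apply List.map_congr_left
  intro s _
  simp only [Function.comp_apply]
  have h1 : Wt (n - 2) (fun i => C (orig e f i)) (fun i => a (orig e f i)) (mv f (mv e s)) =
      G n e f C a s := by
    unfold Wt G
    rw [prod_orig hef hf]
    apply Finset.prod_congr rfl
    intro i _
    rw [mv2_bit _ _ _ _ hef]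
    rfl
  rw [h1, mod4_of_bits, mv2_zero e f s hef, mv2_one e f s hef]
  have h2 : ((if s.testBit f = true then 1 else 0) + (if s.testBit e = true then 2 else 0) = j) ↔
      (s.testBit e = u ∧ s.testBit f = v) := by
    rw [hj]
    cases u <;> cases v <;> cases s.testBit e <;> cases s.testBit f <;> simp
  by_cases h3 : s.testBit e = u ∧ s.testBit f = v
  · rw [if_pos h3, if_pos (h2.mpr h3)]
  · rw [if_neg h3, if_neg (fun h => h3 (h2.mp h))]

lemma sum_four (L : List ℕ) (b b' : ℕ → Bool) (c1 c0 d1 d0 : ℕ) (G : ℕ → ℕ) :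
    (L.map (fun s => ((if b s then c1 else c0) * (if b' s then d1 else d0)) * G s)).sum =
      c1 * d1 * (L.map (fun s => if b s = true ∧ b' s = true then G s else 0)).sum
      + c1 * d0 * (L.map (fun s => if b s = true ∧ b' s = false then G s else 0)).sum
      + c0 * d1 * (L.map (fun s => if b s = false ∧ b' s = true then G s else 0)).sum
      + c0 * d0 * (L.map (fun s => if b s = false ∧ b' s = false then G s else 0)).sum := by
  induction L with
  | nil => simp
  | cons s L ih =>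
    simp only [List.map_cons, List.sum_cons]
    rw [ih]
    cases b s <;> cases b' s <;> simp <;> ring

variable {r : ℕ} {A : List (List ℕ)}

lemma prod_fin {n : ℕ} (i0 j0 : Fin n) (hij : i0 < j0) (F : Fin n → ℕ) (φe φf : ℕ) (g : ℕ → ℕ)
    (hi : F i0 = φe) (hj : F j0 = φf) (ho : ∀ k, k ≠ i0 → k ≠ j0 → F k = g k) :
    ∏ i, F i = φe * φf * ∏ k ∈ ((Finset.range n).erase i0).erase j0, g k := by
  have h1 : ∏ i, F i = ∏ i : Fin n, (fun k : ℕ => if k = i0 then φe else if k = j0 then φf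
      else g k) i := by
    apply Finset.prod_congr rfl
    intro i _
    simp only
    by_cases h : i = i0
    · rw [h, if_pos rfl, hi]
    · have h' : (i : ℕ) ≠ i0 := fun hh => h (Fin.ext hh)
      rw [if_neg h']
      by_cases h2 : i = j0
      · rw [h2, if_pos rfl, hj]
      · have h2' : (i : ℕ) ≠ j0 := fun hh => h2 (Fin.ext hh)
        rw [if_neg h2', ho i h h2]
  have hij' : (i0 : ℕ) < j0 := hij
  rw [h1, Fin.prod_univ_eq_prod_range (fun k : ℕ => if k = i0 then φe else if k = j0 then φf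
      else g k) n]
  rw [← Finset.mul_prod_erase (Finset.range n) _ (Finset.mem_range.mpr i0.2)]
  rw [← Finset.mul_prod_erase ((Finset.range n).erase i0) _ (a := (j0 : ℕ))
    (by rw [Finset.mem_erase, Finset.mem_range]; exact ⟨by omega, j0.2⟩)]
  rw [if_pos rfl, if_neg (by omega), if_pos rfl, ← mul_assoc]
  congr 1
  apply Finset.prod_congr rfl
  intro k hk
  rw [Finset.mem_erase, Finset.mem_erase] at hk
  rw [if_neg hk.2.1, if_neg hk.1]

section

variable {n : ℕ} {w : Fin n → ℕ}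

/-- classes meeting `C` -/
def Cc (C : Set ((i : Fin n) × Fin (w i))) : ℕ → Prop :=
  fun k => ∃ h : k < n, ∃ x, (⟨⟨k, h⟩, x⟩ : (i : Fin n) × Fin (w i)) ∈ C

/-- remaining sizes of the classes -/
noncomputable def ar (D : Set ((i : Fin n) × Fin (w i))) : ℕ → ℕ :=
  fun k => if h : k < n then
    {x : Fin (w ⟨k, h⟩) | (⟨⟨k, h⟩, x⟩ : (i : Fin n) × Fin (w i)) ∉ D}.ncard else 0

lemma ar_le (D : Set ((i : Fin n) × Fin (w i))) (k : Fin n) : ar D k ≤ w k := by
  unfold ar
  rw [dif_pos k.2]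
  calc _ ≤ (Set.univ : Set (Fin (w k))).ncard :=
        Set.ncard_le_ncard (Set.subset_univ _) (Set.toFinite _)
    _ = w k := by rw [Set.ncard_univ, Nat.card_eq_fintype_card, Fintype.card_fin]

lemma ar_lt {D : Set ((i : Fin n) × Fin (w i))} {k : Fin n} {x : Fin (w k)}
    (h : (⟨k, x⟩ : (i : Fin n) × Fin (w i)) ∈ D) : ar D k < w k := by
  unfold ar
  rw [dif_pos k.2]
  calc _ < (Set.univ : Set (Fin (w k))).ncard := by
        apply Set.ncard_lt_ncard _ (Set.toFinite _)
        rw [Set.ssubset_univ_iff]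
        intro h1
        have : x ∈ (Set.univ : Set (Fin (w k))) := trivial
        rw [← h1] at this
        exact this h
    _ = w k := by rw [Set.ncard_univ, Nat.card_eq_fintype_card, Fintype.card_fin]

lemma Nf_other {C D U V : Set ((i : Fin n) × Fin (w i))} (hCinj : C.InjOn Sigma.fst)
    (hCD : Disjoint C D) {s : ℕ} {k : Fin n}
    (hU : ∀ x, (⟨k, x⟩ : (i : Fin n) × Fin (w i)) ∈ U ↔ (⟨k, x⟩ : (i : Fin n) × Fin (w i)) ∈ C)
    (hV : ∀ x, (⟨k, x⟩ : (i : Fin n) × Fin (w i)) ∈ V ↔ (⟨k, x⟩ : (i : Fin n) × Fin (w i)) ∈ D) :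
    Nf w U V s k = gf (Cc C) (ar D) s k := by
  unfold Nf gf
  by_cases hC : Cc C k
  · rw [if_pos hC]
    obtain ⟨hk, c, hc⟩ := hC
    by_cases hs : s.testBit k
    · rw [if_pos hs, if_pos hs]
      have : {x : Fin (w k) | (⟨k, x⟩ : (i : Fin n) × Fin (w i)) ∉ V ∧
          ∀ y, (⟨k, y⟩ : (i : Fin n) × Fin (w i)) ∈ U → y = x} = {c} := by
        ext x
        rw [Set.mem_singleton_iff, Set.mem_setOf_eq]
        constructor
        · rintro ⟨-, h2⟩
          exact (h2 c ((hU c).mpr hc)).symm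
        · intro hx
          rw [hx, hV]
          refine ⟨fun h => (Set.disjoint_left.mp hCD) hc h, fun y hy => ?_⟩
          have := hCinj ((hU y).mp hy) hc rfl
          exact eq_of_heq (Sigma.mk.inj_iff.mp this).2
      rw [this, Set.ncard_singleton]
    · rw [if_neg hs, if_neg hs, if_pos ⟨c, (hU c).mpr hc⟩]
  · rw [if_neg hC]
    have hno : ∀ y, (⟨k, y⟩ : (i : Fin n) × Fin (w i)) ∉ U := by
      intro y hy
      exact hC ⟨k.2, y, (hU y).mp hy⟩
    by_cases hs : s.testBit k
    · rw [if_pos hs, if_pos hs]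
      unfold ar
      rw [dif_pos k.2]
      congr 1
      ext x
      rw [Set.mem_setOf_eq, Set.mem_setOf_eq, hV]
      constructor
      · rintro ⟨h1, -⟩
        exact h1
      · intro h1
        exact ⟨h1, fun y hy => absurd hy (hno y)⟩
    · rw [if_neg hs, if_neg hs, if_neg]
      rintro ⟨y, hy⟩
      exact hno y hy

lemma Nf_in {U V : Set ((i : Fin n) × Fin (w i))} {s : ℕ} {i : Fin n} {x0 : Fin (w i)}
    (hU : ∀ y, (⟨i, y⟩ : (i : Fin n) × Fin (w i)) ∈ U ↔ y = x0)
    (hV : (⟨i, x0⟩ : (i : Fin n) × Fin (w i)) ∉ V) :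
    Nf w U V s i = if s.testBit i then 1 else 0 := by
  unfold Nf
  by_cases hs : s.testBit i
  · rw [if_pos hs, if_pos hs]
    have : {x : Fin (w i) | (⟨i, x⟩ : (i : Fin n) × Fin (w i)) ∉ V ∧
          ∀ y, (⟨i, y⟩ : (i : Fin n) × Fin (w i)) ∈ U → y = x} = {x0} := by
      ext x
      rw [Set.mem_singleton_iff, Set.mem_setOf_eq]
      constructor
      · rintro ⟨-, h2⟩
        exact (h2 x0 ((hU x0).mpr rfl)).symm
      · intro hx
        rw [hx]
        exact ⟨hV, fun y hy => (hU y).mp hy⟩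
    rw [this, Set.ncard_singleton]
  · rw [if_neg hs, if_neg hs, if_pos ⟨x0, (hU x0).mpr rfl⟩]

lemma Nf_out {D U V : Set ((i : Fin n) × Fin (w i))} {s : ℕ} {i : Fin n} {x0 : Fin (w i)}
    (hU : ∀ y, (⟨i, y⟩ : (i : Fin n) × Fin (w i)) ∉ U)
    (hV : ∀ y, (⟨i, y⟩ : (i : Fin n) × Fin (w i)) ∈ V ↔
      ((⟨i, y⟩ : (i : Fin n) × Fin (w i)) ∈ D ∨ y = x0))
    (hx : (⟨i, x0⟩ : (i : Fin n) × Fin (w i)) ∉ D) :
    Nf w U V s i = if s.testBit i then ar D i - 1 else 1 := by
  unfold Nf
  by_cases hs : s.testBit i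
  · rw [if_pos hs, if_pos hs]
    unfold ar
    rw [dif_pos i.2]
    have : {x : Fin (w i) | (⟨i, x⟩ : (i : Fin n) × Fin (w i)) ∉ V ∧
          ∀ y, (⟨i, y⟩ : (i : Fin n) × Fin (w i)) ∈ U → y = x} =
        {x : Fin (w i) | (⟨i, x⟩ : (i : Fin n) × Fin (w i)) ∉ D} \ {x0} := by
      ext x
      rw [Set.mem_sdiff, Set.mem_singleton_iff, Set.mem_setOf_eq, Set.mem_setOf_eq, hV]
      constructor
      · rintro ⟨h1, -⟩
        push Not at h1
        exact h1
      · rintro ⟨h1, h2⟩
        exact ⟨by push Not; exact ⟨h1, h2⟩, fun y hy => absurd hy (hU y)⟩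
    rw [this]
    exact Set.ncard_sdiff_singleton_of_mem hx
  · rw [if_neg hs, if_neg hs, if_neg]
    rintro ⟨y, hy⟩
    exact hU y hy

end

end Pool.Agent.H67Tern
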