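import Mathlib
import Pool.Agent.H67Tern.BlowMain

set_option autoImplicit false

namespace Pool.Agent.H67Tern

open Set Matroid Classical

variable {r : ℕ} {A : List (List ℕ)}

/-- the four counts for a pair of elements in different classes -/
lemma nb_four (hA : ∀ w ∈ A, w.length = r) (hne : baseList r A ≠ []) {w : Fin A.length → ℕ}
    (hw : ∀ i, 1 ≤ w i) {C D U V : Set ((i : Fin A.length) × Fin (w i))}
    (hCinj : C.InjOn Sigma.fst) (hCD : Disjoint C D)
    {i0 j0 : Fin A.length} (hij : i0 < j0) {c1 c0 d1 d0 : ℕ}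
    (hU : ∀ k, k ≠ i0 → k ≠ j0 → ∀ x, (⟨k, x⟩ : (i : Fin A.length) × Fin (w i)) ∈ U ↔
      (⟨k, x⟩ : (i : Fin A.length) × Fin (w i)) ∈ C)
    (hV : ∀ k, k ≠ i0 → k ≠ j0 → ∀ x, (⟨k, x⟩ : (i : Fin A.length) × Fin (w i)) ∈ V ↔
      (⟨k, x⟩ : (i : Fin A.length) × Fin (w i)) ∈ D)
    (hi : ∀ s, Nf w U V s i0 = if s.testBit i0 then c1 else c0)
    (hj : ∀ s, Nf w U V s j0 = if s.testBit j0 then d1 else d0) :
    nb (parExt (colMat r A) w) U V =
      c1 * d1 * PP A.length i0 j0 (Cc C) (ar D) (baseList r A) true true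
      + c1 * d0 * PP A.length i0 j0 (Cc C) (ar D) (baseList r A) true false
      + c0 * d1 * PP A.length i0 j0 (Cc C) (ar D) (baseList r A) false true
      + c0 * d0 * PP A.length i0 j0 (Cc C) (ar D) (baseList r A) false false := by
  rw [nb_parExt hA hne hw]
  unfold PP
  rw [← sum_four (baseList r A) (fun s => s.testBit i0) (fun s => s.testBit j0) c1 c0 d1 d0
    (G A.length i0 j0 (Cc C) (ar D))]
  congr 1
  apply List.map_congr_left
  intro s _
  exact prod_fin i0 j0 hij (fun i => Nf w U V s i) _ _ (gf (Cc C) (ar D) s) (hi s) (hj s)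
    (fun k h1 h2 => Nf_other hCinj hCD (hU k h1 h2) (hV k h1 h2))

/-- the key inequality for a pair `e' = (i0, x0)`, `f' = (j0, y0)` with `i0 < j0` -/
def Stmt {α : Type*} (M : Matroid α) (C D : Set α) (e f : α) : Prop :=
  nb M (C ∪ {e} ∪ {f}) D * nb M C (D ∪ {e} ∪ {f}) ≤
      nb M (C ∪ {f}) (D ∪ {e}) * nb M (C ∪ {e}) (D ∪ {f})

lemma Stmt.symm {α : Type*} {M : Matroid α} {C D : Set α} {e f : α} (h : Stmt M C D e f) :
    Stmt M C D f e := by
  unfold Stmt at h ⊢
  have e1 : C ∪ {f} ∪ {e} = C ∪ {e} ∪ {f} := by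
    rw [Set.union_assoc, Set.union_assoc, Set.union_comm {f}]
  have e2 : D ∪ {f} ∪ {e} = D ∪ {e} ∪ {f} := by
    rw [Set.union_assoc, Set.union_assoc, Set.union_comm {f}]
  rw [e1, e2, mul_comm (nb M (C ∪ {e}) (D ∪ {f}))]
  exact h

lemma key_par (hA : ∀ w ∈ A, w.length = r) (hne : baseList r A ≠ []) {w : Fin A.length → ℕ}
    (hw : ∀ i, 1 ≤ w i) {C D : Set ((i : Fin A.length) × Fin (w i))}
    (hCinj : C.InjOn Sigma.fst) (hCD : Disjoint C D)
    {i0 j0 : Fin A.length} (hij : i0 < j0) {x0 : Fin (w i0)} {y0 : Fin (w j0)}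
    (hCi : ∀ x, (⟨i0, x⟩ : (i : Fin A.length) × Fin (w i)) ∉ C)
    (hCj : ∀ x, (⟨j0, x⟩ : (i : Fin A.length) × Fin (w i)) ∉ C)
    (hDi : (⟨i0, x0⟩ : (i : Fin A.length) × Fin (w i)) ∉ D)
    (hDj : (⟨j0, y0⟩ : (i : Fin A.length) × Fin (w i)) ∉ D)
    {a' b' : ℕ} (ha : ar D i0 - 1 = a') (hb : ar D j0 - 1 = b') :
    let P := PP A.length i0 j0 (Cc C) (ar D) (baseList r A)
    let M := parExt (colMat r A) w
    let e : (i : Fin A.length) × Fin (w i) := ⟨i0, x0⟩
    let f : (i : Fin A.length) × Fin (w i) := ⟨j0, y0⟩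
    nb M (C ∪ {e} ∪ {f}) D = P true true ∧
    nb M C (D ∪ {e} ∪ {f}) = a' * b' * P true true + a' * P true false + b' * P false true
      + P false false ∧
    nb M (C ∪ {f}) (D ∪ {e}) = a' * P true true + P false true ∧
    nb M (C ∪ {e}) (D ∪ {f}) = b' * P true true + P true false := by
  intro P M e f
  have hne' : i0 ≠ j0 := ne_of_lt hij
  have fe : ∀ (k : Fin A.length) (x : Fin (w k)), k ≠ i0 →
      (⟨k, x⟩ : (i : Fin A.length) × Fin (w i)) ≠ ⟨i0, x0⟩ := by
    intro k x hk h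
    exact hk (Sigma.mk.inj_iff.mp h).1
  have ff : ∀ (k : Fin A.length) (x : Fin (w k)), k ≠ j0 →
      (⟨k, x⟩ : (i : Fin A.length) × Fin (w i)) ≠ ⟨j0, y0⟩ := by
    intro k x hk h
    exact hk (Sigma.mk.inj_iff.mp h).1
  have ee : ∀ x : Fin (w i0), (⟨i0, x⟩ : (i : Fin A.length) × Fin (w i)) = ⟨i0, x0⟩ ↔ x = x0 := by
    intro x
    constructor
    · intro h; exact eq_of_heq (Sigma.mk.inj_iff.mp h).2
    · intro h; rw [h]
  have ef : ∀ x : Fin (w j0), (⟨j0, x⟩ : (i : Fin A.length) × Fin (w i)) = ⟨j0, y0⟩ ↔ x = y0 := by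
    intro x
    constructor
    · intro h; exact eq_of_heq (Sigma.mk.inj_iff.mp h).2
    · intro h; rw [h]
  refine ⟨?_, ?_, ?_, ?_⟩
  · rw [nb_four hA hne hw hCinj hCD hij (c1 := 1) (c0 := 0) (d1 := 1) (d0 := 0)]
    · simp [P]
    · intro k h1 h2 x
      simp [e, f, fe k x h1, ff k x h2]
    · intro k h1 h2 x
      rfl
    · intro s
      apply Nf_in (x0 := x0)
      · intro y
        simp [e, f, ee, ff i0 y hne', hCi]
      · exact hDi
    · intro s
      apply Nf_in (x0 := y0)
      · intro y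
        simp [e, f, ef, fe j0 y hne'.symm, hCj]
      · exact hDj
  · rw [nb_four hA hne hw hCinj hCD hij (c1 := a') (c0 := 1) (d1 := b') (d0 := 1)]
    · simp [P]
    · intro k h1 h2 x
      rfl
    · intro k h1 h2 x
      simp [e, f, fe k x h1, ff k x h2]
    · intro s
      rw [← ha]
      apply Nf_out (x0 := x0)
      · intro y
        exact hCi y
      · intro y
        simp [e, f, ee, ff i0 y hne']
        tauto
      · exact hDi
    · intro s
      rw [← hb]
      apply Nf_out (x0 := y0)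
      · intro y
        exact hCj y
      · intro y
        simp [e, f, ef, fe j0 y hne'.symm]
        tauto
      · exact hDj
  · rw [nb_four hA hne hw hCinj hCD hij (c1 := a') (c0 := 1) (d1 := 1) (d0 := 0)]
    · simp [P]
    · intro k h1 h2 x
      simp [f, ff k x h2]
    · intro k h1 h2 x
      simp [e, fe k x h1]
    · intro s
      rw [← ha]
      apply Nf_out (x0 := x0)
      · intro y
        simp [f, ff i0 y hne', hCi]
      · intro y
        simp [e, ee]
        tauto
      · exact hDi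
    · intro s
      apply Nf_in (x0 := y0)
      · intro y
        simp [f, ef, hCj]
      · simp [e, fe j0 y0 hne'.symm, hDj]
  · rw [nb_four hA hne hw hCinj hCD hij (c1 := 1) (c0 := 0) (d1 := b') (d0 := 1)]
    · simp [P]
    · intro k h1 h2 x
      simp [e, fe k x h1]
    · intro k h1 h2 x
      simp [f, ff k x h2]
    · intro s
      apply Nf_in (x0 := x0)
      · intro y
        simp [e, ee, hCi]
      · simp [f, ff i0 x0 hne', hDi]
    · intro s
      rw [← hb]
      apply Nf_out (x0 := y0)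
      · intro y
        simp [e, fe j0 y hne'.symm, hCj]
      · intro y
        simp [f, ef]
        tauto
      · exact hDj

/-- no base contains two copies of the same element -/
lemma nb_zero_of_parallel {n : ℕ} {N : Matroid (Fin n)} (hN : N.E = Set.univ) {w : Fin n → ℕ}
    (hw : ∀ i, 1 ≤ w i) {U V : Set ((i : Fin n) × Fin (w i))} (h : ¬ U.InjOn Sigma.fst) :
    nb (parExt N w) U V = 0 := by
  unfold nb
  rw [Set.ncard_eq_zero (Set.toFinite _)]
  ext B
  simp only [Set.mem_setOf_eq, Set.mem_empty_iff_false, iff_false]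
  rintro ⟨h1, h2, -⟩
  rw [parExt_isBase hN hw] at h1
  exact h (h1.2.mono h2)

lemma ternary_parExt {n : ℕ} {N : Matroid (Fin n)} (hN : N.E = Set.univ) (h : Ternary N)
    (w : Fin n → ℕ) : Ternary (parExt N w) := by
  obtain ⟨W, _, _, v, hv⟩ := h
  refine ⟨W, inferInstance, inferInstance, v ∘ Sigma.fst, fun I _ => ?_⟩
  unfold parExt
  rw [comap_indep_iff, hv _ (by rw [hN]; exact Set.subset_univ _)]
  constructor
  · rintro ⟨h1, h2⟩
    exact h1.comp_of_image h2
  · intro h
    have hinj : I.InjOn Sigma.fst := by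
      intro x hx y hy hxy
      by_contra hne
      have h1 := h.injOn hx hy (by simp [Function.comp, hxy])
      exact hne h1
    exact ⟨h.image_of_comp _ _, hinj⟩

end Pool.Agent.H67Tern
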