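import Mathlib
import Pool.Agent.H67Tern.Main

set_option autoImplicit false

namespace Pool.Agent.H67Tern

open Set Matroid

/-- `M` and `N` are isomorphic: there is a bijection between their ground sets under which
bases correspond to bases. -/
def Isomorphic {α β : Type*} (M : Matroid α) (N : Matroid β) : Prop :=
  ∃ φ : M.E ≃ N.E, ∀ B : Set M.E,
    M.IsBase (Subtype.val '' B) ↔ N.IsBase (Subtype.val '' (φ '' B))

/-- the invariant: `∑ g (b_e(M))` over the elements -/
lemma Isomorphic.sum_eq {n m : ℕ} {M : Matroid (Fin n)} {N : Matroid (Fin m)}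
    (hM : M.E = Set.univ) (hN : N.E = Set.univ) (h : Isomorphic M N) (g : ℕ → ℕ) :
    ∑ e : Fin n, g (nb M {e} ∅) = ∑ e : Fin m, g (nb N {e} ∅) := by
  obtain ⟨φ, hφ⟩ := h
  let ψ : Fin n ≃ Fin m :=
    (Equiv.Set.univ (Fin n)).symm.trans ((Equiv.setCongr hM.symm).trans
      (φ.trans ((Equiv.setCongr hN).trans (Equiv.Set.univ (Fin m)))))
  have hψ : ∀ x (hx : x ∈ M.E), ψ x = ((φ ⟨x, hx⟩ : N.E) : Fin m) := by
    intro x hx
    rfl
  have hbase : ∀ B : Set (Fin n), M.IsBase B ↔ N.IsBase (ψ '' B) := by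
    intro B
    have hB : Subtype.val '' (Subtype.val ⁻¹' B : Set M.E) = B := by
      rw [Set.image_preimage_eq_inter_range, Subtype.range_coe_subtype]
      ext x
      simp [hM]
    have := hφ (Subtype.val ⁻¹' B)
    rw [hB] at this
    rw [this]
    have h2 : Subtype.val '' (φ '' (Subtype.val ⁻¹' B : Set M.E)) = ψ '' B := by
      ext y
      constructor
      · rintro ⟨_, ⟨x, hx, rfl⟩, rfl⟩
        exact ⟨x, hx, hψ x x.2⟩
      · rintro ⟨x, hx, rfl⟩
        have hxE : x ∈ M.E := by rw [hM]; trivial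
        exact ⟨φ ⟨x, hxE⟩, ⟨⟨x, hxE⟩, hx, rfl⟩, (hψ x hxE).symm⟩
    rw [h2]
  have hnb : ∀ e, nb M {e} ∅ = nb N {ψ e} ∅ := by
    intro e
    unfold nb
    apply Set.ncard_congr (fun B _ => ψ '' B)
    · rintro B ⟨h1, h2, -⟩
      refine ⟨(hbase B).mp h1, ?_, Set.empty_disjoint _⟩
      rw [Set.singleton_subset_iff] at h2 ⊢
      exact ⟨e, h2, rfl⟩
    · intro B B' _ _ h
      exact ψ.injective.image_injective h
    · rintro B ⟨h1, h2, -⟩
      refine ⟨ψ.symm '' B, ⟨?_, ?_, Set.empty_disjoint _⟩, ?_⟩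
      · rw [hbase, ← Set.image_comp]
        simpa using h1
      · rw [Set.singleton_subset_iff] at h2 ⊢
        exact ⟨ψ e, h2, by simp⟩
      · rw [← Set.image_comp]
        simp
  rw [← Equiv.sum_comp ψ]
  apply Finset.sum_congr rfl
  intro e _
  rw [hnb e]

/-- the computed invariant of a column matroid -/
def invC (n : ℕ) (L : List ℕ) : ℕ :=
  ((List.range n).map (fun e => (1 + L.countP (fun s => s.testBit e)) ^ 3)).sum

lemma invC_eq {r : ℕ} {A : List (List ℕ)} (hA : ∀ w ∈ A, w.length = r)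
    (hne : baseList r A ≠ []) :
    ∑ e : Fin A.length, (1 + nb (colMat r A) {e} ∅) ^ 3 = invC A.length (baseList r A) := by
  have h1 : ∀ n (f : ℕ → ℕ), ((List.range n).map f).sum = ∑ e ∈ Finset.range n, f e := by
    intro n f
    rfl
  unfold invC
  rw [h1, ← Fin.sum_univ_eq_sum_range]
  apply Finset.sum_congr rfl
  intro e _
  rw [nb_single hA hne e]

end Pool.Agent.H67Tern
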