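import Mathlib
import Pool.Agent.H67Tern.BlowKey
import Pool.Agent.H67Tern.Iso

set_option autoImplicit false

namespace Pool.Agent.H67Tern

open Set Matroid

/-- computable version of `PP` for the whole matroid -/
def PW (n e f : ℕ) (W : ℕ → ℕ) (L : List ℕ) (u v : Bool) : ℕ :=
  (L.map (fun s => if s.testBit e = u ∧ s.testBit f = v then
    ((List.range n).map (fun k => if k = e ∨ k = f then 1
      else if s.testBit k then W k else 1)).prod else 0)).sum

/-- the computable check for a pair -/
def pairW (q n : ℕ) (W : ℕ → ℕ) (L : List ℕ) (f e : ℕ) : Bool :=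
  Nat.blt (L.length * PB (fun i => W (orig e f i)) (n - 3)) q &&
    force (enc q (L.map fun B => mv f (mv e B)))
      (chkW q (W (orig e f 0)) (LW q (fun i => W (orig e f i)) (n - 3)))

/-- the computable check for the special pair -/
def pairWT (q n : ℕ) (W : ℕ → ℕ) (L : List ℕ) (f e : ℕ) : Bool :=
  Nat.blt (L.length * PB (fun i => W (orig e f i)) (n - 3)) q &&
    force (enc q (L.map fun B => mv f (mv e B)))
      (chkWT q (W (orig e f 0)) (LW q (fun i => W (orig e f i)) (n - 3)))

open Classical

variable {r : ℕ} {A : List (List ℕ)}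

lemma PW_eq {n e f : ℕ} (hef : e < f) (hf : f < n) (W : ℕ → ℕ) (L : List ℕ) (u v : Bool) :
    PP n e f (fun _ => False) W L u v = PW n e f W L u v := by
  unfold PP PW
  congr 1
  apply List.map_congr_left
  intro s _
  by_cases h : s.testBit e = u ∧ s.testBit f = v
  · rw [if_pos h, if_pos h]
    unfold G gf
    have h1 : ∀ (F : ℕ → ℕ), ((List.range n).map F).prod = ∏ k ∈ Finset.range n, F k := by
      intro F; rfl
    rw [h1]
    rw [← Finset.mul_prod_erase (Finset.range n) _ (Finset.mem_range.mpr (by omega : e < n))]
    rw [← Finset.mul_prod_erase ((Finset.range n).erase e) _ (a := f)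
      (by rw [Finset.mem_erase, Finset.mem_range]; exact ⟨by omega, hf⟩)]
    rw [if_pos (Or.inl rfl), if_pos (Or.inr rfl), one_mul, one_mul]
    apply Finset.prod_congr rfl
    intro k hk
    rw [Finset.mem_erase, Finset.mem_erase] at hk
    simp [hk.1, hk.2.1]
  · rw [if_neg h, if_neg h]

lemma good_of_pairW {q n : ℕ} {W : ℕ → ℕ} {L : List ℕ} {e f : ℕ} (hn : 3 ≤ n) (hef : e < f)
    (hf : f < n) (hL : ∀ s ∈ L, s < 2 ^ n) (h : pairW q n W L f e = true)
    (C : ℕ → Prop) (a : ℕ → ℕ) (ha : ∀ k < n, a k ≤ W k) :
    PP n e f C a L true true * PP n e f C a L false false ≤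
      PP n e f C a L true false * PP n e f C a L false true := by
  unfold pairW at h
  rw [Bool.and_eq_true, force_eq, Nat.blt_eq] at h
  obtain ⟨h1, h2⟩ := h
  have hL2 : ∀ s ∈ L.map (fun B => mv f (mv e B)), s < 2 ^ (n - 3 + 3) := by
    intro s hs
    obtain ⟨B, hB, rfl⟩ := List.mem_map.mp hs
    rw [Nat.sub_add_cancel hn]
    exact mv_lt hf (mv_lt (by omega) (hL B hB))
  have h3 := chkW_sound (q := q) (w := fun i => W (orig e f i)) (n - 3) hL2
    (by rw [List.length_map]; exact h1) h2 (fun i => C (orig e f i)) (fun i => a (orig e f i))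
    (by
      intro i hi
      exact ha _ (orig_lt hef hf (by omega)))
  unfold GoodW at h3
  have e1 : n - 3 + 1 = n - 2 := by omega
  rw [e1, WK_eq_PP hef hf C a L true true 3 (by simp), WK_eq_PP hef hf C a L false false 0 (by simp),
    WK_eq_PP hef hf C a L false true 1 (by simp), WK_eq_PP hef hf C a L true false 2 (by simp)] at h3
  rw [mul_comm (PP n e f C a L true false)]
  exact h3

lemma good_of_pairWT {q n : ℕ} {W : ℕ → ℕ} {L : List ℕ} {e f : ℕ} (hn : 3 ≤ n) (hef : e < f)
    (hf : f < n) (hL : ∀ s ∈ L, s < 2 ^ n) (h : pairWT q n W L f e = true)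
    (C : ℕ → Prop) (a : ℕ → ℕ) (ha : ∀ k < n, a k ≤ W k)
    (hex : ∃ k < n, k ≠ e ∧ k ≠ f ∧ (C k ∨ a k < W k)) :
    PP n e f C a L true true * PP n e f C a L false false ≤
      PP n e f C a L true false * PP n e f C a L false true := by
  unfold pairWT at h
  rw [Bool.and_eq_true, force_eq, Nat.blt_eq] at h
  obtain ⟨h1, h2⟩ := h
  have hL2 : ∀ s ∈ L.map (fun B => mv f (mv e B)), s < 2 ^ (n - 3 + 3) := by
    intro s hs
    obtain ⟨B, hB, rfl⟩ := List.mem_map.mp hs
    rw [Nat.sub_add_cancel hn]
    exact mv_lt hf (mv_lt (by omega) (hL B hB))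
  have h3 := chkWT_sound (q := q) (w := fun i => W (orig e f i)) (n - 3) hL2
    (by rw [List.length_map]; exact h1) h2 (fun i => C (orig e f i)) (fun i => a (orig e f i))
    (by
      intro i hi
      exact ha _ (orig_lt hef hf (by omega)))
    (by
      obtain ⟨k, hk, hke, hkf, hk2⟩ := hex
      obtain ⟨i, hi, rfl⟩ := exists_orig hef hf hk hke hkf
      exact ⟨i, by omega, hk2⟩)
  unfold GoodW at h3
  have e1 : n - 3 + 1 = n - 2 := by omega
  rw [e1, WK_eq_PP hef hf C a L true true 3 (by simp), WK_eq_PP hef hf C a L false false 0 (by simp),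
    WK_eq_PP hef hf C a L false true 1 (by simp), WK_eq_PP hef hf C a L true false 2 (by simp)] at h3
  rw [mul_comm (PP n e f C a L true false)]
  exact h3

/-- criterion for parallel extensions -/
theorem excludedMinor_par {q : ℕ} (hA : ∀ w ∈ A, w.length = r) (hne : baseList r A ≠ [])
    (hn : 3 ≤ A.length) {W : ℕ → ℕ} (hW : ∀ i < A.length, 1 ≤ W i) {i0 j0 : ℕ} (hij : i0 < j0)
    (hj : j0 < A.length) (hi1 : W i0 = 1) (hj1 : W j0 = 1)
    (hfull : ∀ f < A.length, ∀ e < f, ¬ (e = i0 ∧ f = j0) →
      pairW q A.length W (baseList r A) f e = true)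
    (htop : pairWT q A.length W (baseList r A) j0 i0 = true)
    (hviol : PW A.length i0 j0 W (baseList r A) true false *
        PW A.length i0 j0 W (baseList r A) false true <
      PW A.length i0 j0 W (baseList r A) true true *
        PW A.length i0 j0 W (baseList r A) false false) :
    ExcludedMinor (parExt (colMat r A) (fun i => W i)) := by
  have hi : i0 < A.length := by omega
  have hw : ∀ i : Fin A.length, 1 ≤ W i := fun i => hW i i.2
  have hE : (parExt (colMat r A) (fun i => W i)).E = Set.univ := by
    unfold parExt
    rw [comap_ground_eq, colMat_E, Set.preimage_univ]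
  constructor
  · rintro ⟨-, hb⟩
    have h1 := hb _ IsMinor.refl
    let e : (i : Fin A.length) × Fin (W i) := ⟨⟨i0, hi⟩, ⟨0, hW i0 hi⟩⟩
    let f : (i : Fin A.length) × Fin (W i) := ⟨⟨j0, hj⟩, ⟨0, hW j0 hj⟩⟩
    have hef : e ≠ f := by
      intro h
      have := (Sigma.mk.inj_iff.mp h).1
      rw [Fin.mk.injEq] at this
      omega
    have h2 := h1 e (by rw [hE]; trivial) f (by rw [hE]; trivial) hef
    have h3 : nb (parExt (colMat r A) (fun i => W i)) (∅ ∪ {e} ∪ {f}) ∅ *
        nb (parExt (colMat r A) (fun i => W i)) ∅ ∅ ≤
        nb (parExt (colMat r A) (fun i => W i)) (∅ ∪ {e}) ∅ *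
        nb (parExt (colMat r A) (fun i => W i)) (∅ ∪ {f}) ∅ := by
      have e1 : (∅ : Set ((i : Fin A.length) × Fin (W i))) ∪ {e} ∪ {f} = {e, f} := by
        rw [Set.empty_union]; rfl
      rw [e1, Set.empty_union, Set.empty_union]
      exact h2
    rw [four_iff] at h3
    have hk := key_par hA hne hw (C := ∅) (D := ∅) (Set.injOn_empty _) (Set.empty_disjoint _)
      (i0 := ⟨i0, hi⟩) (j0 := ⟨j0, hj⟩) (by exact hij) (x0 := ⟨0, hW i0 hi⟩)
      (y0 := ⟨0, hW j0 hj⟩) (fun x => Set.notMem_empty _) (fun x => Set.notMem_empty _)
      (Set.notMem_empty _) (Set.notMem_empty _) rfl rfl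
    simp only at hk
    have har : ∀ k < A.length, ar (w := fun i => W i) (∅ : Set ((i : Fin A.length) × Fin (W i))) k
        = W k := by
      intro k hk
      unfold ar
      rw [dif_pos hk]
      have : {x : Fin (W k) | (⟨⟨k, hk⟩, x⟩ : (i : Fin A.length) × Fin (W i)) ∉
          (∅ : Set ((i : Fin A.length) × Fin (W i)))} = Set.univ := by
        ext x; simp
      rw [this, Set.ncard_univ, Nat.card_eq_fintype_card, Fintype.card_fin]
    have hCc : Cc (w := fun i => W i) (∅ : Set ((i : Fin A.length) × Fin (W i)))
        = fun _ => False := by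
      funext k
      unfold Cc
      simp
    have hPP : ∀ u v, PP A.length i0 j0 (Cc (w := fun i => W i)
        (∅ : Set ((i : Fin A.length) × Fin (W i))))
        (ar (w := fun i => W i) (∅ : Set ((i : Fin A.length) × Fin (W i)))) (baseList r A) u v
        = PW A.length i0 j0 W (baseList r A) u v := by
      intro u v
      rw [← PW_eq hij hj, hCc]
      unfold PP G
      congr 1
      apply List.map_congr_left
      intro s _
      by_cases h : s.testBit i0 = u ∧ s.testBit j0 = v
      · rw [if_pos h, if_pos h]
        apply Finset.prod_congr rfl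
        intro k hk
        rw [Finset.mem_erase, Finset.mem_erase, Finset.mem_range] at hk
        unfold gf
        rw [har k hk.2.2]
      · rw [if_neg h, if_neg h]
    rw [hk.1, hk.2.1, hk.2.2.1, hk.2.2.2, hPP, hPP, hPP, hPP, har _ hi, har _ hj, hi1, hj1] at h3
    simp only [Nat.sub_self, zero_mul, zero_add] at h3
    rw [mul_comm (PW A.length i0 j0 W (baseList r A) false true)] at h3
    exact absurd hviol (not_lt.mpr h3)
  · intro N hN
    refine ⟨(ternary_parExt (colMat_E r A) (ternary_colMat r A) _).minor hN.isMinor,
      fun N' hN' => ?_⟩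
    have hlt : N' <m parExt (colMat r A) (fun i => W i) := hN'.trans_isStrictMinor hN
    obtain ⟨C, D, hC, hD, hCD, rfl⟩ := minor_nice hlt.isMinor
    have hne2 : (C ∪ D).Nonempty := by
      rw [Set.nonempty_iff_ne_empty]
      intro h0
      rw [Set.union_empty_iff] at h0
      rw [h0.1, h0.2, contract_empty, delete_empty] at hlt
      exact isStrictMinor_irrefl _ hlt
    have hCinj : C.InjOn Sigma.fst := by
      have := hC
      unfold parExt at this
      rw [comap_indep_iff] at this
      exact this.2
    have hmain : ∀ e f : (i : Fin A.length) × Fin (W i), e.1 < f.1 → e ∉ C ∪ D → f ∉ C ∪ D →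
        Stmt (parExt (colMat r A) (fun i => W i)) C D e f := by
      rintro ⟨i, x0⟩ ⟨j, y0⟩ hij' he hf
      simp only at hij'
      simp only [Set.mem_union, not_or] at he hf
      by_cases hCi : ∃ x, (⟨i, x⟩ : (i : Fin A.length) × Fin (W i)) ∈ C
      · obtain ⟨x, hx⟩ := hCi
        have h0 : nb (parExt (colMat r A) (fun i => W i)) (C ∪ {⟨i, x0⟩} ∪ {⟨j, y0⟩}) D = 0 := by
          apply nb_zero_of_parallel (colMat_E r A) hw
          intro hinj
          have h1 := hinj (Or.inl (Or.inl hx)) (Or.inl (Or.inr rfl) :
            (⟨i, x0⟩ : (i : Fin A.length) × Fin (W i)) ∈ C ∪ {⟨i, x0⟩} ∪ {⟨j, y0⟩}) rfl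
          rw [h1] at hx
          exact he.1 hx
        unfold Stmt
        rw [h0, zero_mul]
        exact Nat.zero_le _
      · by_cases hCj : ∃ x, (⟨j, x⟩ : (i : Fin A.length) × Fin (W i)) ∈ C
        · obtain ⟨x, hx⟩ := hCj
          have h0 : nb (parExt (colMat r A) (fun i => W i)) (C ∪ {⟨i, x0⟩} ∪ {⟨j, y0⟩}) D = 0 := by
            apply nb_zero_of_parallel (colMat_E r A) hw
            intro hinj
            have h1 := hinj (Or.inl (Or.inl hx)) (Or.inr rfl :
              (⟨j, y0⟩ : (i : Fin A.length) × Fin (W i)) ∈ C ∪ {⟨i, x0⟩} ∪ {⟨j, y0⟩}) rfl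
            rw [h1] at hx
            exact hf.1 hx
          unfold Stmt
          rw [h0, zero_mul]
          exact Nat.zero_le _
        · push Not at hCi hCj
          have hk := key_par hA hne hw hCinj hCD (i0 := i) (j0 := j) hij' (x0 := x0) (y0 := y0)
            hCi hCj he.2 hf.2 rfl rfl
          simp only at hk
          have hale : ∀ k < A.length, ar (w := fun i => W i) D k ≤ W k := by
            intro k hk
            exact ar_le (w := fun i : Fin A.length => W i) D ⟨k, hk⟩
          have hP : PP A.length i j (Cc C) (ar D) (baseList r A) true true *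
              PP A.length i j (Cc C) (ar D) (baseList r A) false false ≤
              PP A.length i j (Cc C) (ar D) (baseList r A) true false *
              PP A.length i j (Cc C) (ar D) (baseList r A) false true := by
            by_cases hsp : (i : ℕ) = i0 ∧ (j : ℕ) = j0
            · rw [hsp.1, hsp.2]
              apply good_of_pairWT hn hij hj (fun s hs => baseList_lt hs) htop _ _ hale
              obtain ⟨⟨k, z⟩, hz⟩ := hne2
              have hki : (k : ℕ) ≠ i0 := by
                intro h
                have hki' : k = i := Fin.ext (by omega)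
                subst hki'
                have : z = x0 := by
                  apply Fin.ext
                  have h1 := z.2
                  have h2 := x0.2
                  have h3 : W k = 1 := by rw [h, hi1]
                  omega
                rw [this] at hz
                rcases hz with hz | hz
                · exact he.1 hz
                · exact he.2 hz
              have hkj : (k : ℕ) ≠ j0 := by
                intro h
                have hkj' : k = j := Fin.ext (by omega)
                subst hkj'
                have : z = y0 := by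
                  apply Fin.ext
                  have h1 := z.2
                  have h2 := y0.2
                  have h3 : W k = 1 := by rw [h, hj1]
                  omega
                rw [this] at hz
                rcases hz with hz | hz
                · exact hf.1 hz
                · exact hf.2 hz
              refine ⟨k, k.2, hki, hkj, ?_⟩
              rcases hz with hz | hz
              · left
                exact ⟨k.2, z, hz⟩
              · right
                exact ar_lt (w := fun i : Fin A.length => W i) hz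
            · exact good_of_pairW hn hij' j.2 (fun s hs => baseList_lt hs)
                (hfull j j.2 i hij' hsp) _ _ hale
          unfold Stmt
          rw [hk.1, hk.2.1, hk.2.2.1, hk.2.2.2]
          nlinarith [hP]
    intro e he f hf hef
    have hE : ∀ x ∈ (parExt (colMat r A) (fun i => W i) ／ C ＼ D).E, x ∉ C ∪ D := by
      intro x hx
      rw [delete_ground, contract_ground] at hx
      rintro (h1 | h1)
      · exact hx.1.2 h1
      · exact hx.2 h1
    rw [nb_minor hC hD hCD (by
        intro x hx
        rcases hx with rfl | hx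
        · exact he
        · rw [Set.mem_singleton_iff] at hx; rw [hx]; exact hf) (Set.empty_subset _),
      nb_minor hC hD hCD (Set.empty_subset _) (Set.empty_subset _),
      nb_minor hC hD hCD (Set.singleton_subset_iff.mpr he) (Set.empty_subset _),
      nb_minor hC hD hCD (Set.singleton_subset_iff.mpr hf) (Set.empty_subset _)]
    simp only [Set.empty_union]
    have e1 : ({e, f} : Set ((i : Fin A.length) × Fin (W i))) ∪ C = C ∪ {e} ∪ {f} := by
      ext x; simp only [Set.mem_union, Set.mem_insert_iff, Set.mem_singleton_iff]; tauto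
    rw [e1, Set.union_comm {e} C, Set.union_comm {f} C, four_iff]
    change Stmt _ _ _ _ _
    rcases lt_trichotomy e.1 f.1 with h | h | h
    · exact hmain e f h (hE e he) (hE f hf)
    · unfold Stmt
      rw [nb_zero_of_parallel (colMat_E r A) hw, zero_mul]
      · exact Nat.zero_le _
      · intro hinj
        exact hef (hinj (Or.inl (Or.inr rfl)) (Or.inr rfl) h)
    · exact (hmain f e h (hE f hf) (hE e he)).symm

end Pool.Agent.H67Tern
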