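import Pool.Agent.H67Tern.Iso

set_option autoImplicit false
set_option maxRecDepth 100000

namespace Pool.Agent.H67Tern.E02

def A : List (List ℕ) := [[1, 0, 0, 0], [0, 1, 0, 0], [0, 0, 1, 0], [0, 0, 0, 1], [1, 1, 0, 0], [1, 0, 1, 0], [1, 2, 0, 1], [1, 1, 1, 1]]

def L : List ℕ := [15, 29, 30, 43, 46, 57, 58, 60, 71, 77, 78, 85, 86, 92, 99, 102, 105, 106, 108, 113, 114, 116, 120, 135, 139, 141, 142, 149, 150, 153, 154, 163, 166, 169, 172, 177, 178, 180, 184, 195, 197, 201, 202, 204, 209, 210, 212, 216, 225, 226, 228, 232]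

theorem hL : baseList 4 A = L := by decide +kernel

theorem r1 : (List.range 1).all (fun e => pairOK 64 8 L 1 e) = true := by decide +kernel

theorem r2 : (List.range 2).all (fun e => pairOK 64 8 L 2 e) = true := by decide +kernel

theorem r3 : (List.range 3).all (fun e => pairOK 64 8 L 3 e) = true := by decide +kernel

theorem r4 : (List.range 4).all (fun e => pairOK 64 8 L 4 e) = true := by decide +kernel

theorem r5 : (List.range 5).all (fun e => pairOK 64 8 L 5 e) = true := by decide +kernel

theorem r6 : (List.range 6).all (fun e => pairOK 64 8 L 6 e) = true := by decide +kernel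

theorem r7 : (List.range 7).all (fun e => pairOK 64 8 L 7 e) = true := by decide +kernel

theorem chk : allPairs 64 A.length (baseList 4 A) = true := by
  rw [hL]
  apply allPairs_of
  intro f hf
  have hf' : f < 8 := hf
  interval_cases f
  · rfl
  · exact r1
  · exact r2
  · exact r3
  · exact r4
  · exact r5
  · exact r6
  · exact r7

theorem hA : ∀ w ∈ A, w.length = 4 := by decide

theorem excluded : ExcludedMinor (colMat 4 A) := by
  refine excludedMinor_of_check hA (by decide) ?_ chk ?_
  · rw [hL]; decide +kernel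
  · refine ⟨⟨0, by decide⟩, ⟨7, by decide⟩, by decide, ?_⟩
    rw [hL]
    decide +kernel

theorem inv : ∑ e : Fin A.length, (1 + nb (colMat 4 A) {e} ∅) ^ 3 = 160218 := by
  rw [invC_eq hA (by rw [hL]; decide), hL]
  decide +kernel

end Pool.Agent.H67Tern.E02
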