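import Pool.Agent.H67Tern.Iso

set_option autoImplicit false
set_option maxRecDepth 100000

namespace Pool.Agent.H67Tern.E04

def A : List (List ℕ) := [[1, 0, 0, 0, 0], [0, 1, 0, 0, 0], [0, 0, 1, 0, 0], [0, 0, 0, 1, 0], [0, 0, 0, 0, 1], [1, 1, 0, 0, 0], [1, 0, 1, 1, 0], [1, 0, 1, 0, 1], [0, 1, 0, 1, 1], [1, 0, 2, 2, 2]]

def L : List ℕ := [31, 61, 62, 87, 91, 94, 117, 118, 121, 122, 124, 143, 155, 158, 173, 174, 185, 186, 188, 199, 203, 206, 211, 214, 229, 230, 233, 234, 236, 241, 242, 244, 271, 279, 285, 301, 302, 309, 310, 316, 327, 331, 334, 339, 341, 342, 345, 348, 357, 358, 361, 362, 364, 369, 370, 372, 376, 391, 395, 397, 398, 403, 406, 409, 412, 421, 422, 425, 426, 428, 433, 434, 436, 440, 451, 453, 454, 457, 460, 465, 468, 481, 482, 488, 496, 527, 535, 539, 542, 557, 558, 565, 566, 569, 570, 572, 583, 587, 590, 598, 602, 613, 614, 617, 618, 620, 628, 632, 647, 654, 659, 662, 666, 677, 678, 684, 689, 690, 692, 696, 707, 714, 722, 737, 738, 744, 752, 779, 781, 782, 787, 789, 790, 793, 796, 809, 810, 817, 818, 824, 835, 837,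 838, 841, 842, 844, 850, 852, 856, 865, 866, 872, 880, 899, 901, 902, 906, 908, 913, 914, 916, 920, 929, 930, 936, 944, 961, 962, 968, 976]

theorem hL : baseList 5 A = L := by decide +kernel

theorem r1 : (List.range 1).all (fun e => pairOK 256 10 L 1 e) = true := by decide +kernel

theorem r2 : (List.range 2).all (fun e => pairOK 256 10 L 2 e) = true := by decide +kernel

theorem r3 : (List.range 3).all (fun e => pairOK 256 10 L 3 e) = true := by decide +kernel

theorem r4 : (List.range 4).all (fun e => pairOK 256 10 L 4 e) = true := by decide +kernel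

theorem r5 : (List.range 5).all (fun e => pairOK 256 10 L 5 e) = true := by decide +kernel

theorem r6 : (List.range 6).all (fun e => pairOK 256 10 L 6 e) = true := by decide +kernel

theorem r7 : (List.range 7).all (fun e => pairOK 256 10 L 7 e) = true := by decide +kernel

theorem r8 : (List.range 8).all (fun e => pairOK 256 10 L 8 e) = true := by decide +kernel

theorem r9 : (List.range 9).all (fun e => pairOK 256 10 L 9 e) = true := by decide +kernel

theorem chk : allPairs 256 A.length (baseList 5 A) = true := by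
  rw [hL]
  apply allPairs_of
  intro f hf
  have hf' : f < 10 := hf
  interval_cases f
  · rfl
  · exact r1
  · exact r2
  · exact r3
  · exact r4
  · exact r5
  · exact r6
  · exact r7
  · exact r8
  · exact r9

theorem hA : ∀ w ∈ A, w.length = 5 := by decide

theorem excluded : ExcludedMinor (colMat 5 A) := by
  refine excludedMinor_of_check hA (by decide) ?_ chk ?_
  · rw [hL]; decide +kernel
  · refine ⟨⟨0, by decide⟩, ⟨8, by decide⟩, by decide, ?_⟩
    rw [hL]
    decide +kernel

theorem inv : ∑ e : Fin A.length, (1 + nb (colMat 5 A) {e} ∅) ^ 3 = 6422996 := by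
  rw [invC_eq hA (by rw [hL]; decide), hL]
  decide +kernel

end Pool.Agent.H67Tern.E04
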