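import Pool.Agent.H67Tern.Iso

set_option autoImplicit false
set_option maxRecDepth 100000

namespace Pool.Agent.H67Tern.E05

def A : List (List ℕ) := [[1, 0, 0, 0, 0], [0, 1, 0, 0, 0], [0, 0, 1, 0, 0], [0, 0, 0, 1, 0], [0, 0, 0, 0, 1], [1, 0, 0, 2, 0], [1, 0, 0, 2, 0], [1, 1, 0, 1, 2], [1, 1, 1, 0, 1], [1, 0, 2, 1, 2], [1, 1, 1, 0, 2]]

def L : List ℕ := [31, 55, 62, 87, 94, 143, 151, 157, 158, 167, 174, 181, 182, 188, 199, 206, 213, 214, 220, 271, 283, 285, 286, 295, 302, 307, 309, 310, 314, 316, 327, 334, 339, 341, 342, 346, 348, 391, 395, 397, 398, 403, 405, 406, 409, 410, 419, 421, 426, 428, 433, 434, 436, 440, 451, 453, 458, 460, 465, 466, 468, 472, 527, 535, 539, 542, 551, 558, 563, 566, 570, 583, 590, 595, 598, 602, 651, 653, 659, 661, 665, 666, 668, 675, 677, 682, 684, 689, 690, 692, 696, 707, 709, 714, 716, 721, 722, 724, 728, 775, 781, 782, 787, 789, 790, 793, 794, 796, 805, 812, 817, 820, 824, 837, 844, 849, 852, 856, 899, 901, 905, 906, 908, 914, 916, 920, 929, 936, 944, 961, 968, 976, 1039,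 1051, 1053, 1054, 1063, 1070, 1075, 1077, 1078, 1082, 1084, 1095, 1102, 1107, 1109, 1110, 1114, 1116, 1159, 1163, 1171, 1173, 1174, 1177, 1178, 1187, 1190, 1194, 1201, 1202, 1204, 1208, 1219, 1222, 1226, 1233, 1234, 1236, 1240, 1291, 1293, 1294, 1315, 1317, 1318, 1322, 1324, 1347, 1349, 1350, 1354, 1356, 1411, 1413, 1414, 1417, 1418, 1441, 1442, 1444, 1448, 1473, 1474, 1476, 1480, 1543, 1547, 1549, 1555, 1557, 1558, 1561, 1562, 1564, 1571, 1573, 1574, 1578, 1580, 1585, 1588, 1592, 1603, 1605, 1606, 1610, 1612, 1617, 1620, 1624, 1667, 1669, 1673, 1682, 1684, 1688, 1697, 1698, 1700, 1704, 1712, 1729, 1730, 1732, 1736, 1744, 1795, 1797, 1798, 1801, 1802, 1804, 1825, 1828, 1832, 1857, 1860, 1864, 1922, 1924, 1928, 1952, 1984]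

theorem hL : baseList 5 A = L := by decide +kernel

theorem r1 : (List.range 1).all (fun e => pairOK 256 11 L 1 e) = true := by decide +kernel

theorem r2 : (List.range 2).all (fun e => pairOK 256 11 L 2 e) = true := by decide +kernel

theorem r3 : (List.range 3).all (fun e => pairOK 256 11 L 3 e) = true := by decide +kernel

theorem r4 : (List.range 4).all (fun e => pairOK 256 11 L 4 e) = true := by decide +kernel

theorem r5 : (List.range 5).all (fun e => pairOK 256 11 L 5 e) = true := by decide +kernel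

theorem r6 : (List.range 6).all (fun e => pairOK 256 11 L 6 e) = true := by decide +kernel

theorem r7 : (List.range 7).all (fun e => pairOK 256 11 L 7 e) = true := by decide +kernel

theorem r8 : (List.range 8).all (fun e => pairOK 256 11 L 8 e) = true := by decide +kernel

theorem r9 : (List.range 9).all (fun e => pairOK 256 11 L 9 e) = true := by decide +kernel

theorem r10 : (List.range 10).all (fun e => pairOK 256 11 L 10 e) = true := by decide +kernel

theorem chk : allPairs 256 A.length (baseList 5 A) = true := by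
  rw [hL]
  apply allPairs_of
  intro f hf
  have hf' : f < 11 := hf
  interval_cases f
  · rfl
  · exact r1
  · exact r2
  · exact r3
  · exact r4
  · exact r5
  · exact r6
  · exact r7
  · exact r8
  · exact r9
  · exact r10

theorem hA : ∀ w ∈ A, w.length = 5 := by decide

theorem excluded : ExcludedMinor (colMat 5 A) := by
  refine excludedMinor_of_check hA (by decide) ?_ chk ?_
  · rw [hL]; decide +kernel
  · refine ⟨⟨3, by decide⟩, ⟨8, by decide⟩, by decide, ?_⟩
    rw [hL]
    decide +kernel

theorem inv : ∑ e : Fin A.length, (1 + nb (colMat 5 A) {e} ∅) ^ 3 = 18576632 := by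
  rw [invC_eq hA (by rw [hL]; decide), hL]
  decide +kernel

end Pool.Agent.H67Tern.E05
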