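import Pool.Agent.H67Tern.Iso

set_option autoImplicit false
set_option maxRecDepth 100000

namespace Pool.Agent.H67Tern.E06

def A : List (List ℕ) := [[1, 0, 0, 0, 0], [0, 1, 0, 0, 0], [0, 0, 1, 0, 0], [0, 0, 0, 1, 0], [0, 0, 0, 0, 1], [1, 2, 2, 0, 0], [0, 1, 0, 2, 2], [0, 1, 0, 2, 2], [1, 2, 0, 1, 2], [1, 1, 0, 1, 1], [0, 0, 1, 2, 2]]

def L : List ℕ := [31, 59, 61, 62, 79, 87, 93, 107, 109, 110, 115, 117, 118, 121, 124, 143, 151, 157, 171, 173, 174, 179, 181, 182, 185, 188, 271, 279, 285, 286, 299, 301, 302, 307, 309, 310, 313, 314, 327, 333, 334, 342, 348, 355, 357, 358, 361, 362, 364, 370, 372, 376, 391, 397, 398, 406, 412, 419, 421, 422, 425, 426, 428, 434, 436, 440, 527, 535, 541, 542, 555, 557, 558, 563, 565, 566, 569, 570, 572, 589, 590, 597, 598, 604, 617, 618, 625, 626, 632, 653, 654, 661, 662, 668, 681, 682, 689, 690, 696, 775, 782, 789, 796, 803, 805, 806, 810, 812, 817, 820, 824, 837, 838, 844, 852, 865, 866, 872, 880, 901, 902, 908, 916, 929, 930, 936, 944, 1039, 1047, 1051, 1067, 1069,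 1070, 1075, 1077, 1078, 1081, 1082, 1099, 1101, 1107, 1109, 1113, 1129, 1130, 1132, 1137, 1138, 1140, 1144, 1163, 1165, 1171, 1173, 1177, 1193, 1194, 1196, 1201, 1202, 1204, 1208, 1287, 1291, 1293, 1294, 1299, 1301, 1302, 1305, 1306, 1315, 1317, 1318, 1329, 1330, 1347, 1349, 1353, 1354, 1356, 1362, 1364, 1368, 1377, 1378, 1380, 1392, 1411, 1413, 1417, 1418, 1420, 1426, 1428, 1432, 1441, 1442, 1444, 1456, 1547, 1549, 1550, 1555, 1557, 1558, 1561, 1562, 1578, 1580, 1586, 1588, 1592, 1609, 1610, 1612, 1617, 1618, 1620, 1624, 1640, 1648, 1673, 1674, 1676, 1681, 1682, 1684, 1688, 1704, 1712, 1795, 1797, 1798, 1802, 1804, 1809, 1812, 1816, 1826, 1828, 1840, 1857, 1858, 1860, 1864, 1872, 1888, 1921, 1922, 1924, 1928, 1936, 1952]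

theorem hL : baseList 5 A = L := by decide +kernel

theorem r1 : (List.range 1).all (fun e => pairOK 256 11 L 1 e) = true := by decide +kernel

theorem r2 : (List.range 2).all (fun e => pairOK 256 11 L 2 e) = true := by decide +kernel

theorem r3 : (List.range 3).all (fun e => pairOK 256 11 L 3 e) = true := by decide +kernel

theorem r4 : (List.range 4).all (fun e => pairOK 256 11 L 4 e) = true := by decide +kernel

theorem r5 : (List.range 5).all (fun e => pairOK 256 11 L 5 e) = true := by decide +kernel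

theorem r6 : (List.range 6).all (fun e => pairOK 256 11 L 6 e) = true := by decide +kernel

theorem r7 : (List.range 7).all (fun e => pairOK 256 11 L 7 e) = true := by decide +kernel

theorem r8 : (List.range 8).all (fun e => pairOK 256 11 L 8 e) = true := by decide +kernel

theorem r9 : (List.range 9).all (fun e => pairOK 256 11 L 9 e) = true := by decide +kernel

theorem r10 : (List.range 10).all (fun e => pairOK 256 11 L 10 e) = true := by decide +kernel

theorem chk : allPairs 256 A.length (baseList 5 A) = true := by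
  rw [hL]
  apply allPairs_of
  intro f hf
  have hf' : f < 11 := hf
  interval_cases f
  · rfl
  · exact r1
  · exact r2
  · exact r3
  · exact r4
  · exact r5
  · exact r6
  · exact r7
  · exact r8
  · exact r9
  · exact r10

theorem hA : ∀ w ∈ A, w.length = 5 := by decide

theorem excluded : ExcludedMinor (colMat 5 A) := by
  refine excludedMinor_of_check hA (by decide) ?_ chk ?_
  · rw [hL]; decide +kernel
  · refine ⟨⟨2, by decide⟩, ⟨8, by decide⟩, by decide, ?_⟩
    rw [hL]
    decide +kernel

theorem inv : ∑ e : Fin A.length, (1 + nb (colMat 5 A) {e} ∅) ^ 3 = 18393333 := by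
  rw [invC_eq hA (by rw [hL]; decide), hL]
  decide +kernel

end Pool.Agent.H67Tern.E06
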