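import Pool.Agent.H67Tern.Iso

set_option autoImplicit false
set_option maxRecDepth 100000

namespace Pool.Agent.H67Tern.E07

def A : List (List ℕ) := [[1, 0, 0, 0, 0], [0, 1, 0, 0, 0], [0, 0, 1, 0, 0], [0, 0, 0, 1, 0], [0, 0, 0, 0, 1], [1, 2, 2, 0, 0], [0, 1, 0, 2, 2], [1, 2, 0, 1, 2], [1, 1, 0, 1, 1], [0, 0, 1, 2, 2], [0, 0, 1, 2, 2]]

def L : List ℕ := [31, 59, 61, 62, 79, 87, 93, 107, 109, 110, 115, 117, 118, 121, 124, 143, 151, 157, 158, 171, 173, 174, 179, 181, 182, 185, 186, 199, 205, 206, 214, 220, 227, 229, 230, 233, 234, 236, 242, 244, 248, 271, 279, 285, 286, 299, 301, 302, 307, 309, 310, 313, 314, 316, 333, 334, 341, 342, 348, 361, 362, 369, 370, 376, 391, 398, 405, 412, 419, 421, 422, 426, 428, 433, 436, 440, 453, 454, 460, 468, 481, 482, 488, 496, 527, 535, 539, 555, 557, 558, 563, 565, 566, 569, 570, 587, 589, 595, 597, 601, 617, 618, 620, 625, 626, 628, 632, 647, 651, 653, 654, 659, 661, 662, 665, 666, 675, 677, 678, 689, 690, 707, 709, 713, 714, 716, 722, 724, 728, 737, 738, 740, 752, 779,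 781, 782, 787, 789, 790, 793, 794, 810, 812, 818, 820, 824, 841, 842, 844, 849, 850, 852, 856, 872, 880, 899, 901, 902, 906, 908, 913, 916, 920, 930, 932, 944, 961, 962, 964, 968, 976, 992, 1039, 1047, 1051, 1067, 1069, 1070, 1075, 1077, 1078, 1081, 1082, 1099, 1101, 1107, 1109, 1113, 1129, 1130, 1132, 1137, 1138, 1140, 1144, 1159, 1163, 1165, 1166, 1171, 1173, 1174, 1177, 1178, 1187, 1189, 1190, 1201, 1202, 1219, 1221, 1225, 1226, 1228, 1234, 1236, 1240, 1249, 1250, 1252, 1264, 1291, 1293, 1294, 1299, 1301, 1302, 1305, 1306, 1322, 1324, 1330, 1332, 1336, 1353, 1354, 1356, 1361, 1362, 1364, 1368, 1384, 1392, 1411, 1413, 1414, 1418, 1420, 1425, 1428, 1432, 1442, 1444, 1456, 1473, 1474, 1476, 1480, 1488, 1504]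

theorem hL : baseList 5 A = L := by decide +kernel

theorem r1 : (List.range 1).all (fun e => pairOK 512 11 L 1 e) = true := by decide +kernel

theorem r2 : (List.range 2).all (fun e => pairOK 512 11 L 2 e) = true := by decide +kernel

theorem r3 : (List.range 3).all (fun e => pairOK 512 11 L 3 e) = true := by decide +kernel

theorem r4 : (List.range 4).all (fun e => pairOK 512 11 L 4 e) = true := by decide +kernel

theorem r5 : (List.range 5).all (fun e => pairOK 512 11 L 5 e) = true := by decide +kernel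

theorem r6 : (List.range 6).all (fun e => pairOK 512 11 L 6 e) = true := by decide +kernel

theorem r7 : (List.range 7).all (fun e => pairOK 512 11 L 7 e) = true := by decide +kernel

theorem r8 : (List.range 8).all (fun e => pairOK 512 11 L 8 e) = true := by decide +kernel

theorem r9 : (List.range 9).all (fun e => pairOK 512 11 L 9 e) = true := by decide +kernel

theorem r10 : (List.range 10).all (fun e => pairOK 512 11 L 10 e) = true := by decide +kernel

theorem chk : allPairs 512 A.length (baseList 5 A) = true := by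
  rw [hL]
  apply allPairs_of
  intro f hf
  have hf' : f < 11 := hf
  interval_cases f
  · rfl
  · exact r1
  · exact r2
  · exact r3
  · exact r4
  · exact r5
  · exact r6
  · exact r7
  · exact r8
  · exact r9
  · exact r10

theorem hA : ∀ w ∈ A, w.length = 5 := by decide

theorem excluded : ExcludedMinor (colMat 5 A) := by
  refine excludedMinor_of_check hA (by decide) ?_ chk ?_
  · rw [hL]; decide +kernel
  · refine ⟨⟨2, by decide⟩, ⟨7, by decide⟩, by decide, ?_⟩
    rw [hL]
    decide +kernel

theorem inv : ∑ e : Fin A.length, (1 + nb (colMat 5 A) {e} ∅) ^ 3 = 19431543 := by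
  rw [invC_eq hA (by rw [hL]; decide), hL]
  decide +kernel

end Pool.Agent.H67Tern.E07
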