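import Pool.Agent.H67Tern.Iso

set_option autoImplicit false
set_option maxRecDepth 100000

namespace Pool.Agent.H67Tern.E08

def A : List (List ℕ) := [[1, 0, 0, 0, 0, 0], [0, 1, 0, 0, 0, 0], [0, 0, 1, 0, 0, 0], [0, 0, 0, 1, 0, 0], [0, 0, 0, 0, 1, 0], [0, 0, 0, 0, 0, 1], [1, 1, 1, 2, 2, 0], [0, 1, 2, 0, 2, 2], [0, 0, 0, 1, 2, 0], [1, 2, 2, 0, 2, 0], [1, 1, 0, 2, 2, 0]]

def L : List ℕ := [63, 111, 119, 123, 125, 126, 159, 175, 187, 189, 207, 215, 219, 221, 222, 231, 235, 238, 243, 245, 249, 250, 252, 303, 311, 359, 363, 365, 366, 371, 373, 374, 399, 407, 423, 427, 429, 435, 437, 455, 459, 461, 462, 467, 469, 470, 485, 486, 489, 490, 492, 497, 498, 500, 559, 571, 573, 574, 615, 619, 621, 627, 629, 630, 634, 636, 655, 667, 669, 670, 685, 686, 697, 698, 700, 711, 715, 717, 723, 725, 726, 730, 732, 741, 742, 745, 746, 748, 753, 754, 756, 760, 807, 811, 813, 814, 819, 821, 822, 870, 874, 876, 882, 884, 903, 907, 909, 910, 915, 917, 918, 933, 934, 937, 938, 940, 945, 946, 948, 966, 970, 972, 978, 980,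 996, 1000, 1008, 1071, 1079, 1085, 1086, 1131, 1139, 1145, 1146, 1167, 1175, 1181, 1182, 1191, 1195, 1198, 1203, 1205, 1209, 1210, 1212, 1227, 1235, 1241, 1242, 1251, 1258, 1265, 1272, 1319, 1325, 1326, 1333, 1334, 1379, 1385, 1386, 1393, 1394, 1415, 1421, 1422, 1429, 1430, 1443, 1445, 1446, 1449, 1450, 1452, 1457, 1458, 1460, 1475, 1481, 1482, 1489, 1490, 1505, 1506, 1512, 1520, 1575, 1579, 1581, 1587, 1589, 1590, 1593, 1594, 1596, 1635, 1641, 1649, 1650, 1656, 1671, 1675, 1677, 1683, 1685, 1686, 1689, 1690, 1692, 1701, 1702, 1705, 1706, 1708, 1713, 1714, 1716, 1731, 1737, 1745, 1746, 1752, 1761, 1762, 1768, 1776, 1827, 1830, 1833, 1834, 1836, 1841, 1842, 1844, 1890, 1896, 1904, 1923, 1926, 1929, 1930, 1932, 1937, 1938, 1940, 1953, 1954, 1956, 1986, 1992, 2000, 2016]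

theorem hL : baseList 6 A = L := by decide +kernel

theorem r1 : (List.range 1).all (fun e => pairOK 256 11 L 1 e) = true := by decide +kernel

theorem r2 : (List.range 2).all (fun e => pairOK 256 11 L 2 e) = true := by decide +kernel

theorem r3 : (List.range 3).all (fun e => pairOK 256 11 L 3 e) = true := by decide +kernel

theorem r4 : (List.range 4).all (fun e => pairOK 256 11 L 4 e) = true := by decide +kernel

theorem r5 : (List.range 5).all (fun e => pairOK 256 11 L 5 e) = true := by decide +kernel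

theorem r6 : (List.range 6).all (fun e => pairOK 256 11 L 6 e) = true := by decide +kernel

theorem r7 : (List.range 7).all (fun e => pairOK 256 11 L 7 e) = true := by decide +kernel

theorem r8 : (List.range 8).all (fun e => pairOK 256 11 L 8 e) = true := by decide +kernel

theorem r9 : (List.range 9).all (fun e => pairOK 256 11 L 9 e) = true := by decide +kernel

theorem r10 : (List.range 10).all (fun e => pairOK 256 11 L 10 e) = true := by decide +kernel

theorem chk : allPairs 256 A.length (baseList 6 A) = true := by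
  rw [hL]
  apply allPairs_of
  intro f hf
  have hf' : f < 11 := hf
  interval_cases f
  · rfl
  · exact r1
  · exact r2
  · exact r3
  · exact r4
  · exact r5
  · exact r6
  · exact r7
  · exact r8
  · exact r9
  · exact r10

theorem hA : ∀ w ∈ A, w.length = 6 := by decide

theorem excluded : ExcludedMinor (colMat 6 A) := by
  refine excludedMinor_of_check hA (by decide) ?_ chk ?_
  · rw [hL]; decide +kernel
  · refine ⟨⟨2, by decide⟩, ⟨8, by decide⟩, by decide, ?_⟩
    rw [hL]
    decide +kernel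

theorem inv : ∑ e : Fin A.length, (1 + nb (colMat 6 A) {e} ∅) ^ 3 = 31256075 := by
  rw [invC_eq hA (by rw [hL]; decide), hL]
  decide +kernel

end Pool.Agent.H67Tern.E08
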