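import Pool.Agent.H67Tern.Iso

set_option autoImplicit false
set_option maxRecDepth 100000

namespace Pool.Agent.H67Tern.E09

def A : List (List ℕ) := [[1, 0, 0, 0, 0, 0], [0, 1, 0, 0, 0, 0], [0, 0, 1, 0, 0, 0], [0, 0, 0, 1, 0, 0], [0, 0, 0, 0, 1, 0], [0, 0, 0, 0, 0, 1], [1, 1, 1, 2, 2, 0], [0, 1, 2, 0, 2, 0], [0, 0, 0, 1, 2, 0], [1, 2, 2, 0, 2, 0], [1, 1, 0, 2, 2, 1]]

def L : List ℕ := [63, 111, 119, 123, 125, 126, 175, 187, 189, 231, 235, 238, 243, 245, 249, 250, 252, 303, 311, 359, 363, 365, 366, 371, 373, 374, 423, 427, 429, 435, 437, 485, 486, 489, 490, 492, 497, 498, 500, 559, 571, 573, 574, 615, 619, 621, 627, 629, 630, 634, 636, 685, 686, 697, 698, 700, 741, 742, 745, 746, 748, 753, 754, 756, 760, 807, 811, 813, 814, 819, 821, 822, 870, 874, 876, 882, 884, 933, 934, 937, 938, 940, 945, 946, 948, 996, 1000, 1008, 1055, 1071, 1079, 1085, 1086, 1103, 1111, 1115, 1117, 1118, 1131, 1139, 1145, 1146, 1167, 1179, 1181, 1191, 1195, 1198, 1203, 1205, 1209, 1210, 1212, 1223, 1227, 1230,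 1235, 1237, 1241, 1242, 1244, 1251, 1258, 1265, 1272, 1295, 1303, 1319, 1325, 1326, 1333, 1334, 1351, 1355, 1357, 1358, 1363, 1365, 1366, 1379, 1385, 1386, 1393, 1394, 1415, 1419, 1421, 1427, 1429, 1443, 1445, 1446, 1449, 1450, 1452, 1457, 1458, 1460, 1477, 1478, 1481, 1482, 1484, 1489, 1490, 1492, 1505, 1506, 1512, 1520, 1551, 1563, 1565, 1566, 1575, 1579, 1581, 1587, 1589, 1590, 1593, 1594, 1596, 1607, 1611, 1613, 1619, 1621, 1622, 1626, 1628, 1635, 1641, 1649, 1650, 1656, 1677, 1678, 1689, 1690, 1692, 1701, 1702, 1705, 1706, 1708, 1713, 1714, 1716, 1733, 1734, 1737, 1738, 1740, 1745, 1746, 1748, 1752, 1761, 1762, 1768, 1776, 1799, 1803, 1805, 1806, 1811, 1813, 1814, 1827, 1830, 1833, 1834, 1836, 1841, 1842, 1844, 1862, 1866, 1868, 1874, 1876, 1890, 1896, 1904, 1925, 1926, 1929, 1930, 1932, 1937, 1938, 1940, 1953, 1954, 1956, 1988, 1992, 2000, 2016]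

theorem hL : baseList 6 A = L := by decide +kernel

theorem r1 : (List.range 1).all (fun e => pairOK 512 11 L 1 e) = true := by decide +kernel

theorem r2 : (List.range 2).all (fun e => pairOK 512 11 L 2 e) = true := by decide +kernel

theorem r3 : (List.range 3).all (fun e => pairOK 512 11 L 3 e) = true := by decide +kernel

theorem r4 : (List.range 4).all (fun e => pairOK 512 11 L 4 e) = true := by decide +kernel

theorem r5 : (List.range 5).all (fun e => pairOK 512 11 L 5 e) = true := by decide +kernel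

theorem r6 : (List.range 6).all (fun e => pairOK 512 11 L 6 e) = true := by decide +kernel

theorem r7 : (List.range 7).all (fun e => pairOK 512 11 L 7 e) = true := by decide +kernel

theorem r8 : (List.range 8).all (fun e => pairOK 512 11 L 8 e) = true := by decide +kernel

theorem r9 : (List.range 9).all (fun e => pairOK 512 11 L 9 e) = true := by decide +kernel

theorem r10 : (List.range 10).all (fun e => pairOK 512 11 L 10 e) = true := by decide +kernel

theorem chk : allPairs 512 A.length (baseList 6 A) = true := by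
  rw [hL]
  apply allPairs_of
  intro f hf
  have hf' : f < 11 := hf
  interval_cases f
  · rfl
  · exact r1
  · exact r2
  · exact r3
  · exact r4
  · exact r5
  · exact r6
  · exact r7
  · exact r8
  · exact r9
  · exact r10

theorem hA : ∀ w ∈ A, w.length = 6 := by decide

theorem excluded : ExcludedMinor (colMat 6 A) := by
  refine excludedMinor_of_check hA (by decide) ?_ chk ?_
  · rw [hL]; decide +kernel
  · refine ⟨⟨2, by decide⟩, ⟨8, by decide⟩, by decide, ?_⟩
    rw [hL]
    decide +kernel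

theorem inv : ∑ e : Fin A.length, (1 + nb (colMat 6 A) {e} ∅) ^ 3 = 33120155 := by
  rw [invC_eq hA (by rw [hL]; decide), hL]
  decide +kernel

end Pool.Agent.H67Tern.E09
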