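import Pool.Agent.H67Tern.Iso

set_option autoImplicit false
set_option maxRecDepth 100000

namespace Pool.Agent.H67Tern.E11

def A : List (List ℕ) := [[1, 0, 0, 0, 0], [0, 1, 0, 0, 0], [0, 0, 1, 0, 0], [0, 0, 0, 1, 0], [0, 0, 0, 0, 1], [1, 2, 2, 0, 0], [0, 1, 0, 2, 2], [1, 2, 0, 1, 2], [1, 1, 0, 1, 1], [0, 0, 1, 2, 2], [1, 2, 0, 0, 0], [1, 2, 0, 1, 1]]

def L : List ℕ := [31, 59, 61, 62, 79, 87, 93, 107, 109, 110, 115, 117, 118, 121, 124, 143, 151, 157, 158, 171, 173, 174, 179, 181, 182, 185, 186, 199, 205, 206, 214, 220, 227, 229, 230, 233, 234, 236, 242, 244, 248, 271, 279, 285, 286, 299, 301, 302, 307, 309, 310, 313, 314, 316, 333, 334, 341, 342, 348, 361, 362, 369, 370, 376, 391, 398, 405, 412, 419, 421, 422, 426, 428, 433, 436, 440, 453, 454, 460, 468, 481, 482, 488, 496, 527, 535, 539, 555, 557, 558, 563, 565, 566, 569, 570, 587, 589, 595, 597, 601, 617, 618, 620, 625, 626, 628, 632, 647, 651, 653, 654, 659, 661, 662, 665, 666, 675, 677, 678, 689, 690, 707, 709, 713, 714, 716,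 722, 724, 728, 737, 738, 740, 752, 779, 781, 782, 787, 789, 790, 793, 794, 810, 812, 818, 820, 824, 841, 842, 844, 849, 850, 852, 856, 872, 880, 899, 901, 902, 906, 908, 913, 916, 920, 930, 932, 944, 961, 962, 964, 968, 976, 992, 1053, 1054, 1081, 1082, 1101, 1102, 1109, 1110, 1116, 1129, 1130, 1137, 1138, 1144, 1165, 1166, 1173, 1174, 1193, 1194, 1201, 1202, 1221, 1222, 1228, 1236, 1249, 1250, 1256, 1264, 1293, 1294, 1301, 1302, 1308, 1321, 1322, 1329, 1330, 1336, 1413, 1414, 1420, 1428, 1441, 1442, 1448, 1456, 1549, 1550, 1557, 1558, 1561, 1562, 1577, 1578, 1585, 1586, 1609, 1610, 1612, 1617, 1618, 1620, 1624, 1640, 1648, 1669, 1670, 1673, 1674, 1681, 1682, 1697, 1698, 1729, 1730, 1732, 1736, 1744, 1760, 1801, 1802, 1804, 1809, 1810, 1812, 1816, 1832, 1840, 1921, 1922, 1924, 1928, 1936, 1952, 2063, 2071, 2077, 2078, 2091, 2093, 2094, 2099, 2101, 2102, 2105, 2106, 2126, 2134, 2140, 2154, 2156, 2162, 2164, 2168, 2183, 2189, 2190, 2211, 2213, 2214, 2217, 2218, 2246, 2252, 2274, 2276,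 2280, 2317, 2325, 2332, 2345, 2348, 2353, 2356, 2360, 2380, 2388, 2408, 2416, 2437, 2444, 2465, 2468, 2472, 2500, 2528, 2571, 2573, 2574, 2579, 2581, 2582, 2585, 2586, 2601, 2602, 2609, 2610, 2634, 2636, 2642, 2644, 2648, 2664, 2672, 2691, 2693, 2694, 2697, 2698, 2721, 2722, 2754, 2756, 2760, 2784, 2825, 2828, 2833, 2836, 2840, 2856, 2864, 2888, 2896, 2945, 2948, 2952, 2976, 3008, 3085, 3086, 3093, 3094, 3113, 3114, 3121, 3122, 3148, 3156, 3176, 3184, 3205, 3206, 3233, 3234, 3268, 3296, 3340, 3348, 3368, 3376, 3460, 3488, 3593, 3594, 3601, 3602, 3656, 3664, 3713, 3714, 3776, 3848, 3856, 3968]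

theorem hL : baseList 5 A = L := by decide +kernel

theorem r1 : (List.range 1).all (fun e => pairOK 512 12 L 1 e) = true := by decide +kernel

theorem r2 : (List.range 2).all (fun e => pairOK 512 12 L 2 e) = true := by decide +kernel

theorem r3 : (List.range 3).all (fun e => pairOK 512 12 L 3 e) = true := by decide +kernel

theorem r4 : (List.range 4).all (fun e => pairOK 512 12 L 4 e) = true := by decide +kernel

theorem r5 : (List.range 5).all (fun e => pairOK 512 12 L 5 e) = true := by decide +kernel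

theorem r6 : (List.range 6).all (fun e => pairOK 512 12 L 6 e) = true := by decide +kernel

theorem r7 : (List.range 7).all (fun e => pairOK 512 12 L 7 e) = true := by decide +kernel

theorem r8 : (List.range 8).all (fun e => pairOK 512 12 L 8 e) = true := by decide +kernel

theorem r9 : (List.range 9).all (fun e => pairOK 512 12 L 9 e) = true := by decide +kernel

theorem r10 : (List.range 10).all (fun e => pairOK 512 12 L 10 e) = true := by decide +kernel

theorem r11 : (List.range 11).all (fun e => pairOK 512 12 L 11 e) = true := by decide +kernel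

theorem chk : allPairs 512 A.length (baseList 5 A) = true := by
  rw [hL]
  apply allPairs_of
  intro f hf
  have hf' : f < 12 := hf
  interval_cases f
  · rfl
  · exact r1
  · exact r2
  · exact r3
  · exact r4
  · exact r5
  · exact r6
  · exact r7
  · exact r8
  · exact r9
  · exact r10
  · exact r11

theorem hA : ∀ w ∈ A, w.length = 5 := by decide

theorem excluded : ExcludedMinor (colMat 5 A) := by
  refine excludedMinor_of_check hA (by decide) ?_ chk ?_
  · rw [hL]; decide +kernel
  · refine ⟨⟨2, by decide⟩, ⟨7, by decide⟩, by decide, ?_⟩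
    rw [hL]
    decide +kernel

theorem inv : ∑ e : Fin A.length, (1 + nb (colMat 5 A) {e} ∅) ^ 3 = 58974908 := by
  rw [invC_eq hA (by rw [hL]; decide), hL]
  decide +kernel

end Pool.Agent.H67Tern.E11
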