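import Pool.Agent.H67Tern.Iso

set_option autoImplicit false
set_option maxRecDepth 100000

namespace Pool.Agent.H67Tern.E12

def A : List (List ℕ) := [[1, 0, 0, 0, 0, 0], [0, 1, 0, 0, 0, 0], [0, 0, 1, 0, 0, 0], [0, 0, 0, 1, 0, 0], [0, 0, 0, 0, 1, 0], [0, 0, 0, 0, 0, 1], [0, 1, 0, 0, 2, 2], [1, 0, 2, 2, 0, 0], [0, 0, 1, 2, 1, 1], [1, 0, 2, 2, 2, 2], [0, 1, 2, 2, 0, 0], [1, 0, 0, 0, 1, 1]]

def L : List ℕ := [63, 95, 111, 125, 183, 187, 190, 215, 219, 222, 231, 235, 238, 245, 249, 252, 287, 303, 311, 315, 343, 347, 349, 359, 363, 365, 373, 377, 407, 411, 414, 423, 427, 430, 435, 438, 442, 467, 469, 470, 473, 474, 476, 483, 485, 486, 489, 490, 492, 497, 500, 504, 543, 559, 567, 571, 574, 599, 603, 605, 606, 615, 619, 621, 622, 629, 633, 636, 663, 667, 670, 679, 683, 686, 725, 729, 732, 741, 745, 748, 791, 798, 807, 814, 819, 822, 826, 851, 853, 854, 858, 860, 867, 869, 870, 874, 876, 881, 884, 888, 915, 918, 922, 931, 934, 938, 977, 980, 984, 993, 996, 1000, 1079, 1083,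 1085, 1111, 1115, 1117, 1127, 1131, 1133, 1141, 1145, 1205, 1206, 1209, 1210, 1212, 1237, 1238, 1241, 1242, 1244, 1253, 1254, 1257, 1258, 1260, 1268, 1272, 1303, 1307, 1309, 1319, 1323, 1325, 1331, 1333, 1337, 1363, 1369, 1379, 1385, 1393, 1429, 1430, 1433, 1434, 1436, 1445, 1446, 1449, 1450, 1452, 1457, 1458, 1460, 1464, 1489, 1490, 1496, 1505, 1506, 1512, 1520, 1559, 1563, 1565, 1575, 1579, 1581, 1589, 1590, 1593, 1594, 1596, 1621, 1622, 1625, 1626, 1628, 1637, 1638, 1641, 1642, 1644, 1652, 1656, 1685, 1686, 1689, 1690, 1692, 1701, 1702, 1705, 1706, 1708, 1748, 1752, 1764, 1768, 1811, 1813, 1814, 1818, 1820, 1827, 1829, 1830, 1834, 1836, 1841, 1842, 1844, 1848, 1873, 1874, 1880, 1889, 1890, 1896, 1904, 1937, 1938, 1940, 1944, 1953, 1954, 1956, 1960, 2000, 2016, 2079, 2095, 2110, 2141, 2142, 2157, 2158, 2172, 2199, 2203, 2206, 2215, 2219, 2222, 2230, 2234, 2261, 2262, 2265, 2266, 2268, 2277, 2278, 2281, 2282, 2284, 2292, 2296, 2327, 2331, 2334, 2343, 2347, 2350, 2358,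 2362, 2389, 2390, 2393, 2394, 2396, 2405, 2406, 2409, 2410, 2412, 2420, 2424, 2451, 2454, 2467, 2470, 2482, 2513, 2514, 2516, 2529, 2530, 2532, 2544, 2583, 2587, 2590, 2599, 2603, 2606, 2614, 2618, 2645, 2646, 2649, 2650, 2652, 2661, 2662, 2665, 2666, 2668, 2676, 2680, 2710, 2714, 2726, 2730, 2772, 2776, 2788, 2792, 2835, 2842, 2851, 2858, 2866, 2897, 2898, 2904, 2913, 2914, 2920, 2928, 2962, 2978, 3024, 3040, 3095, 3099, 3101, 3111, 3115, 3117, 3126, 3130, 3132, 3157, 3158, 3161, 3162, 3164, 3173, 3174, 3177, 3178, 3180, 3188, 3192, 3221, 3222, 3225, 3226, 3228, 3237, 3238, 3241, 3242, 3244, 3252, 3256, 3284, 3288, 3300, 3304, 3347, 3349, 3350, 3353, 3354, 3356, 3363, 3365, 3366, 3369, 3370, 3372, 3378, 3380, 3384, 3409, 3410, 3416, 3425, 3426, 3432, 3440, 3473, 3474, 3476, 3489, 3490, 3492, 3504, 3536, 3552, 3605, 3606, 3609, 3610, 3612, 3621, 3622, 3625, 3626, 3628, 3636, 3640, 3732, 3736, 3748, 3752, 3857, 3858, 3864, 3873, 3874, 3880, 3888, 3984, 4000]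

theorem hL : baseList 6 A = L := by decide +kernel

theorem r1 : (List.range 1).all (fun e => pairOK 512 12 L 1 e) = true := by decide +kernel

theorem r2 : (List.range 2).all (fun e => pairOK 512 12 L 2 e) = true := by decide +kernel

theorem r3 : (List.range 3).all (fun e => pairOK 512 12 L 3 e) = true := by decide +kernel

theorem r4 : (List.range 4).all (fun e => pairOK 512 12 L 4 e) = true := by decide +kernel

theorem r5 : (List.range 5).all (fun e => pairOK 512 12 L 5 e) = true := by decide +kernel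

theorem r6 : (List.range 6).all (fun e => pairOK 512 12 L 6 e) = true := by decide +kernel

theorem r7 : (List.range 7).all (fun e => pairOK 512 12 L 7 e) = true := by decide +kernel

theorem r8 : (List.range 8).all (fun e => pairOK 512 12 L 8 e) = true := by decide +kernel

theorem r9 : (List.range 9).all (fun e => pairOK 512 12 L 9 e) = true := by decide +kernel

theorem r10 : (List.range 10).all (fun e => pairOK 512 12 L 10 e) = true := by decide +kernel

theorem r11 : (List.range 11).all (fun e => pairOK 512 12 L 11 e) = true := by decide +kernel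

theorem chk : allPairs 512 A.length (baseList 6 A) = true := by
  rw [hL]
  apply allPairs_of
  intro f hf
  have hf' : f < 12 := hf
  interval_cases f
  · rfl
  · exact r1
  · exact r2
  · exact r3
  · exact r4
  · exact r5
  · exact r6
  · exact r7
  · exact r8
  · exact r9
  · exact r10
  · exact r11

theorem hA : ∀ w ∈ A, w.length = 6 := by decide

theorem excluded : ExcludedMinor (colMat 6 A) := by
  refine excludedMinor_of_check hA (by decide) ?_ chk ?_
  · rw [hL]; decide +kernel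
  · refine ⟨⟨1, by decide⟩, ⟨8, by decide⟩, by decide, ?_⟩
    rw [hL]
    decide +kernel

theorem inv : ∑ e : Fin A.length, (1 + nb (colMat 6 A) {e} ∅) ^ 3 = 134220156 := by
  rw [invC_eq hA (by rw [hL]; decide), hL]
  decide +kernel

end Pool.Agent.H67Tern.E12
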