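import Pool.Agent.H67Tern.Iso

set_option autoImplicit false
set_option maxRecDepth 100000

namespace Pool.Agent.H67Tern.E13

def A : List (List ℕ) := [[1, 0, 0, 0, 0, 0], [0, 1, 0, 0, 0, 0], [0, 0, 1, 0, 0, 0], [0, 0, 0, 1, 0, 0], [0, 0, 0, 0, 1, 0], [0, 0, 0, 0, 0, 1], [0, 0, 0, 0, 0, 1], [1, 1, 1, 2, 2, 0], [0, 1, 2, 0, 2, 2], [0, 0, 0, 1, 2, 0], [1, 2, 2, 0, 2, 2], [1, 1, 0, 2, 2, 0]]

def L : List ℕ := [63, 95, 175, 183, 187, 189, 190, 207, 215, 219, 221, 222, 287, 303, 315, 317, 335, 347, 349, 399, 407, 411, 413, 414, 423, 427, 430, 435, 437, 441, 442, 444, 455, 459, 462, 467, 469, 473, 474, 476, 559, 567, 591, 599, 679, 683, 685, 686, 691, 693, 694, 711, 715, 717, 718, 723, 725, 726, 783, 791, 807, 811, 813, 819, 821, 839, 843, 845, 851, 853, 903, 907, 909, 910, 915, 917, 918, 933, 934, 937, 938, 940, 945, 946, 948, 965, 966, 969, 970, 972, 977, 978, 980, 1055, 1071, 1083, 1085, 1086, 1103, 1115, 1117, 1118, 1167, 1175, 1179, 1181, 1182, 1191, 1195, 1197, 1203,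 1205, 1206, 1210, 1212, 1223, 1227, 1229, 1235, 1237, 1238, 1242, 1244, 1309, 1310, 1325, 1326, 1337, 1338, 1340, 1357, 1358, 1369, 1370, 1372, 1421, 1422, 1429, 1430, 1433, 1434, 1445, 1446, 1449, 1450, 1452, 1457, 1458, 1460, 1464, 1477, 1478, 1481, 1482, 1484, 1489, 1490, 1492, 1496, 1551, 1559, 1575, 1579, 1581, 1582, 1587, 1589, 1590, 1607, 1611, 1613, 1614, 1619, 1621, 1622, 1671, 1675, 1677, 1678, 1683, 1685, 1686, 1702, 1706, 1708, 1714, 1716, 1734, 1738, 1740, 1746, 1748, 1805, 1806, 1813, 1814, 1829, 1830, 1833, 1834, 1836, 1841, 1842, 1844, 1861, 1862, 1865, 1866, 1868, 1873, 1874, 1876, 1925, 1926, 1929, 1930, 1937, 1938, 1956, 1960, 1968, 1988, 1992, 2000, 2095, 2103, 2109, 2110, 2127, 2135, 2141, 2142, 2219, 2227, 2233, 2234, 2251, 2259, 2265, 2266, 2319, 2327, 2333, 2334, 2343, 2347, 2350, 2355, 2357, 2361, 2362, 2364, 2375, 2379, 2382, 2387, 2389, 2393, 2394, 2396, 2443, 2451, 2457, 2458, 2467, 2474, 2481, 2488, 2499, 2506, 2513, 2520, 2599, 2605, 2606,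 2613, 2614, 2631, 2637, 2638, 2645, 2646, 2723, 2729, 2730, 2737, 2738, 2755, 2761, 2762, 2769, 2770, 2823, 2829, 2830, 2837, 2838, 2851, 2853, 2854, 2857, 2858, 2860, 2865, 2866, 2868, 2883, 2885, 2886, 2889, 2890, 2892, 2897, 2898, 2900, 2947, 2953, 2954, 2961, 2962, 2977, 2978, 2984, 2992, 3009, 3010, 3016, 3024, 3087, 3095, 3101, 3102, 3111, 3115, 3117, 3123, 3125, 3126, 3129, 3130, 3132, 3143, 3147, 3149, 3155, 3157, 3158, 3161, 3162, 3164, 3211, 3219, 3225, 3226, 3235, 3241, 3249, 3250, 3256, 3267, 3273, 3281, 3282, 3288, 3341, 3342, 3349, 3350, 3365, 3366, 3369, 3370, 3372, 3377, 3378, 3380, 3397, 3398, 3401, 3402, 3404, 3409, 3410, 3412, 3465, 3466, 3473, 3474, 3489, 3490, 3496, 3504, 3521, 3522, 3528, 3536, 3591, 3597, 3598, 3605, 3606, 3619, 3622, 3625, 3626, 3628, 3633, 3634, 3636, 3651, 3654, 3657, 3658, 3660, 3665, 3666, 3668, 3715, 3721, 3722, 3729, 3730, 3746, 3752, 3760, 3778, 3784, 3792, 3845, 3846, 3873, 3874, 3876, 3905, 3906, 3908, 3969, 3970, 4000,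 4032]

theorem hL : baseList 6 A = L := by decide +kernel

theorem r1 : (List.range 1).all (fun e => pairOK 512 12 L 1 e) = true := by decide +kernel

theorem r2 : (List.range 2).all (fun e => pairOK 512 12 L 2 e) = true := by decide +kernel

theorem r3 : (List.range 3).all (fun e => pairOK 512 12 L 3 e) = true := by decide +kernel

theorem r4 : (List.range 4).all (fun e => pairOK 512 12 L 4 e) = true := by decide +kernel

theorem r5 : (List.range 5).all (fun e => pairOK 512 12 L 5 e) = true := by decide +kernel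

theorem r6 : (List.range 6).all (fun e => pairOK 512 12 L 6 e) = true := by decide +kernel

theorem r7 : (List.range 7).all (fun e => pairOK 512 12 L 7 e) = true := by decide +kernel

theorem r8 : (List.range 8).all (fun e => pairOK 512 12 L 8 e) = true := by decide +kernel

theorem r9 : (List.range 9).all (fun e => pairOK 512 12 L 9 e) = true := by decide +kernel

theorem r10 : (List.range 10).all (fun e => pairOK 512 12 L 10 e) = true := by decide +kernel

theorem r11 : (List.range 11).all (fun e => pairOK 512 12 L 11 e) = true := by decide +kernel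

theorem chk : allPairs 512 A.length (baseList 6 A) = true := by
  rw [hL]
  apply allPairs_of
  intro f hf
  have hf' : f < 12 := hf
  interval_cases f
  · rfl
  · exact r1
  · exact r2
  · exact r3
  · exact r4
  · exact r5
  · exact r6
  · exact r7
  · exact r8
  · exact r9
  · exact r10
  · exact r11

theorem hA : ∀ w ∈ A, w.length = 6 := by decide

theorem excluded : ExcludedMinor (colMat 6 A) := by
  refine excludedMinor_of_check hA (by decide) ?_ chk ?_
  · rw [hL]; decide +kernel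
  · refine ⟨⟨2, by decide⟩, ⟨9, by decide⟩, by decide, ?_⟩
    rw [hL]
    decide +kernel

theorem inv : ∑ e : Fin A.length, (1 + nb (colMat 6 A) {e} ∅) ^ 3 = 133875828 := by
  rw [invC_eq hA (by rw [hL]; decide), hL]
  decide +kernel

end Pool.Agent.H67Tern.E13
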