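import Pool.Agent.H67Tern.Iso

set_option autoImplicit false
set_option maxRecDepth 100000

namespace Pool.Agent.H67Tern.E14

def A : List (List ℕ) := [[1, 0, 0, 0, 0, 0, 0], [0, 1, 0, 0, 0, 0, 0], [0, 0, 1, 0, 0, 0, 0], [0, 0, 0, 1, 0, 0, 0], [0, 0, 0, 0, 1, 0, 0], [0, 0, 0, 0, 0, 1, 0], [0, 0, 0, 0, 0, 0, 1], [1, 0, 0, 2, 0, 0, 0], [1, 1, 0, 1, 2, 1, 1], [1, 1, 1, 0, 1, 1, 0], [1, 0, 2, 1, 2, 1, 1], [0, 0, 0, 0, 1, 2, 0]]

def L : List ℕ := [127, 247, 254, 319, 351, 367, 375, 381, 382, 439, 446, 471, 478, 487, 494, 501, 502, 508, 607, 623, 635, 637, 638, 727, 734, 743, 750, 755, 757, 758, 762, 764, 799, 815, 827, 829, 830, 847, 855, 859, 871, 875, 877, 878, 883, 885, 886, 889, 890, 919, 926, 935, 942, 947, 949, 950, 954, 956, 967, 974, 979, 982, 986, 995, 997, 1002, 1004, 1009, 1010, 1012, 1016, 1087, 1119, 1135, 1143, 1147, 1150, 1207, 1214, 1239, 1246, 1255, 1262, 1267, 1270, 1274, 1339, 1341, 1371, 1373, 1387, 1389, 1395, 1397, 1401, 1402, 1404, 1459, 1461,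 1466, 1468, 1491, 1493, 1498, 1500, 1507, 1509, 1514, 1516, 1521, 1522, 1524, 1528, 1567, 1583, 1595, 1597, 1598, 1615, 1623, 1627, 1629, 1639, 1645, 1646, 1651, 1653, 1654, 1657, 1658, 1660, 1687, 1694, 1703, 1710, 1715, 1717, 1718, 1722, 1724, 1735, 1742, 1747, 1749, 1750, 1754, 1756, 1765, 1772, 1777, 1780, 1784, 1819, 1821, 1835, 1837, 1850, 1852, 1867, 1869, 1875, 1877, 1881, 1891, 1893, 1897, 1898, 1900, 1906, 1908, 1912, 1939, 1941, 1946, 1948, 1955, 1957, 1962, 1964, 1970, 1972, 1987, 1989, 1994, 1996, 2001, 2002, 2004, 2008, 2017, 2024, 2032, 2143, 2159, 2263, 2270, 2279, 2286, 2335, 2351, 2391, 2397, 2398, 2407, 2413, 2414, 2455, 2462, 2471, 2478, 2517, 2518, 2524, 2533, 2534, 2540, 2639, 2651, 2653, 2654, 2667, 2669, 2670, 2759, 2766, 2771, 2773, 2774, 2778, 2780, 2787, 2789, 2790, 2794, 2796, 2831, 2843, 2845, 2846, 2859, 2861, 2862, 2887, 2893, 2894, 2899, 2901, 2902, 2905, 2906, 2915, 2917, 2918, 2921, 2922, 2951, 2958, 2963, 2965, 2966, 2970, 2972,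 2979, 2981, 2982, 2986, 2988, 3013, 3014, 3020, 3025, 3026, 3028, 3032, 3041, 3042, 3044, 3048, 3103, 3119, 3159, 3163, 3166, 3175, 3179, 3182, 3223, 3230, 3239, 3246, 3283, 3286, 3290, 3299, 3302, 3306, 3355, 3357, 3371, 3373, 3411, 3413, 3417, 3418, 3420, 3427, 3429, 3433, 3434, 3436, 3475, 3477, 3482, 3484, 3491, 3493, 3498, 3500, 3537, 3538, 3540, 3544, 3553, 3554, 3556, 3560, 3599, 3611, 3613, 3614, 3627, 3629, 3630, 3655, 3659, 3662, 3667, 3669, 3670, 3673, 3674, 3676, 3683, 3685, 3686, 3689, 3690, 3692, 3719, 3726, 3731, 3733, 3734, 3738, 3740, 3747, 3749, 3750, 3754, 3756, 3779, 3782, 3786, 3793, 3796, 3800, 3809, 3812, 3816, 3851, 3853, 3866, 3868, 3882, 3884, 3907, 3909, 3913, 3914, 3916, 3922, 3924, 3928, 3938, 3940, 3944, 3971, 3973, 3978, 3980, 3986, 3988, 4002, 4004, 4033, 4034, 4036, 4040, 4048, 4064]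

theorem hL : baseList 7 A = L := by decide +kernel

theorem r1 : (List.range 1).all (fun e => pairOK 512 12 L 1 e) = true := by decide +kernel

theorem r2 : (List.range 2).all (fun e => pairOK 512 12 L 2 e) = true := by decide +kernel

theorem r3 : (List.range 3).all (fun e => pairOK 512 12 L 3 e) = true := by decide +kernel

theorem r4 : (List.range 4).all (fun e => pairOK 512 12 L 4 e) = true := by decide +kernel

theorem r5 : (List.range 5).all (fun e => pairOK 512 12 L 5 e) = true := by decide +kernel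

theorem r6 : (List.range 6).all (fun e => pairOK 512 12 L 6 e) = true := by decide +kernel

theorem r7 : (List.range 7).all (fun e => pairOK 512 12 L 7 e) = true := by decide +kernel

theorem r8 : (List.range 8).all (fun e => pairOK 512 12 L 8 e) = true := by decide +kernel

theorem r9 : (List.range 9).all (fun e => pairOK 512 12 L 9 e) = true := by decide +kernel

theorem r10 : (List.range 10).all (fun e => pairOK 512 12 L 10 e) = true := by decide +kernel

theorem r11 : (List.range 11).all (fun e => pairOK 512 12 L 11 e) = true := by decide +kernel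

theorem chk : allPairs 512 A.length (baseList 7 A) = true := by
  rw [hL]
  apply allPairs_of
  intro f hf
  have hf' : f < 12 := hf
  interval_cases f
  · rfl
  · exact r1
  · exact r2
  · exact r3
  · exact r4
  · exact r5
  · exact r6
  · exact r7
  · exact r8
  · exact r9
  · exact r10
  · exact r11

theorem hA : ∀ w ∈ A, w.length = 7 := by decide

theorem excluded : ExcludedMinor (colMat 7 A) := by
  refine excludedMinor_of_check hA (by decide) ?_ chk ?_
  · rw [hL]; decide +kernel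
  · refine ⟨⟨3, by decide⟩, ⟨5, by decide⟩, by decide, ?_⟩
    rw [hL]
    decide +kernel

theorem inv : ∑ e : Fin A.length, (1 + nb (colMat 7 A) {e} ∅) ^ 3 = 157888012 := by
  rw [invC_eq hA (by rw [hL]; decide), hL]
  decide +kernel

end Pool.Agent.H67Tern.E14
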