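import Pool.Agent.H67Tern.BlowCrit

set_option autoImplicit false
set_option maxRecDepth 100000

namespace Pool.Agent.H67Tern.N8

def A : List (List ℕ) := [[0, 1, 0, 0], [1, 1, 0, 0], [1, 0, 0, 0], [0, 0, 1, 0], [0, 0, 0, 1], [1, 0, 1, 1], [1, 1, 2, 1], [0, 1, 1, 2]]

def L : List ℕ := [27, 29, 30, 43, 45, 46, 51, 53, 54, 57, 58, 75, 77, 78, 83, 85, 86, 89, 92, 99, 101, 102, 106, 108, 113, 114, 116, 120, 139, 141, 142, 147, 149, 150, 154, 156, 163, 165, 166, 169, 172, 177, 178, 180, 184, 201, 202, 204, 209, 210, 212, 216, 225, 226, 228, 232]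

theorem hL : baseList 4 A = L := by decide +kernel

theorem hA : ∀ w ∈ A, w.length = 4 := by decide

/-- weights as a function -/
def wt (l : List ℕ) (i : ℕ) : ℕ := l.getD i 1

end Pool.Agent.H67Tern.N8
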