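import Mathlib
import Pool.Agent.H67Tern.BlowCrit
import Pool.Agent.H67Tern.N8

set_option autoImplicit false

namespace Pool.Agent.H67Tern

open Set Matroid

lemma Isomorphic.card_eq {α β : Type*} {M : Matroid α} {N : Matroid β} (h : Isomorphic M N) :
    Nat.card M.E = Nat.card N.E := by
  obtain ⟨φ, -⟩ := h
  exact Nat.card_congr φ

lemma hval {γ : Type*} {K : Matroid γ} (B : Set γ) (hB : B ⊆ K.E) :
    Subtype.val '' (Subtype.val ⁻¹' B : Set K.E) = B := by
  rw [Subtype.image_preimage_coe]
  exact Set.inter_eq_right.mpr hB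

lemma Isomorphic.nb_eq {α β : Type*} {M : Matroid α} {N : Matroid β} (h : Isomorphic M N) :
    nb M ∅ ∅ = nb N ∅ ∅ := by
  obtain ⟨φ, hφ⟩ := h
  unfold nb
  apply Set.ncard_congr (fun B _ => Subtype.val '' (φ '' (Subtype.val ⁻¹' B : Set M.E)))
  · rintro B ⟨h1, -, -⟩
    refine ⟨?_, Set.empty_subset _, Set.empty_disjoint _⟩
    have := (hφ (Subtype.val ⁻¹' B)).mp (by rw [hval B h1.subset_ground]; exact h1)
    exact this
  · intro B B' hB hB' h
    have h1 := Subtype.val_injective.image_injective h
    have h2 := φ.injective.image_injective h1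
    rw [← hval B hB.1.subset_ground, ← hval B' hB'.1.subset_ground, h2]
  · rintro B ⟨h1, -, -⟩
    refine ⟨Subtype.val '' (φ.symm '' (Subtype.val ⁻¹' B : Set N.E)), ⟨?_, Set.empty_subset _,
      Set.empty_disjoint _⟩, ?_⟩
    · rw [hφ, ← Set.image_comp φ]
      simp only [Equiv.self_comp_symm, Set.image_id]
      rw [hval B h1.subset_ground]
      exact h1
    · have e1 : (Subtype.val ⁻¹' (Subtype.val '' (φ.symm '' (Subtype.val ⁻¹' B : Set N.E)))
          : Set M.E) = φ.symm '' (Subtype.val ⁻¹' B : Set N.E) :=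
        Set.preimage_image_eq _ Subtype.val_injective
      simp only [e1]
      rw [← Set.image_comp φ]
      simp only [Equiv.self_comp_symm, Set.image_id]
      exact hval B h1.subset_ground

lemma nb_parExt_total {r : ℕ} {A : List (List ℕ)} (hA : ∀ w ∈ A, w.length = r)
    (hne : baseList r A ≠ []) {W : ℕ → ℕ} (hW : ∀ i < A.length, 1 ≤ W i) :
    nb (parExt (colMat r A) (fun i => W i)) ∅ ∅ =
      ((baseList r A).map (fun s => ((List.range A.length).map
        (fun k => if s.testBit k then W k else 1)).prod)).sum := by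
  rw [nb_parExt hA hne (fun i => hW i i.2)]
  congr 1
  apply List.map_congr_left
  intro s _
  have h1 : ∀ (F : ℕ → ℕ), ((List.range A.length).map F).prod =
      ∏ k ∈ Finset.range A.length, F k := by
    intro F; rfl
  rw [h1, ← Fin.prod_univ_eq_prod_range]
  apply Finset.prod_congr rfl
  intro i _
  unfold Nf
  by_cases hs : s.testBit i
  · rw [if_pos hs, if_pos hs]
    have : {x : Fin (W i) | (⟨i, x⟩ : (i : Fin A.length) × Fin (W i)) ∉
        (∅ : Set ((i : Fin A.length) × Fin (W i))) ∧
        ∀ y, (⟨i, y⟩ : (i : Fin A.length) × Fin (W i)) ∈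
          (∅ : Set ((i : Fin A.length) × Fin (W i))) → y = x} = Set.univ := by
      ext x; simp
    rw [this, Set.ncard_univ, Nat.card_eq_fintype_card, Fintype.card_fin]
  · rw [if_neg hs, if_neg hs, if_neg]
    rintro ⟨y, hy⟩
    exact hy

lemma card_parExt {r : ℕ} {A : List (List ℕ)} {W : ℕ → ℕ} :
    Nat.card (parExt (colMat r A) (fun i => W i)).E = ((List.range A.length).map W).sum := by
  have h0 : (parExt (colMat r A) (fun i => W i)).E = Set.univ := by
    unfold parExt
    rw [comap_ground_eq, colMat_E, Set.preimage_univ]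
  have h1 : ∀ (F : ℕ → ℕ), ((List.range A.length).map F).sum =
      ∑ k ∈ Finset.range A.length, F k := by
    intro F; rfl
  rw [h0, Nat.card_congr (Equiv.Set.univ _), Nat.card_eq_fintype_card, Fintype.card_sigma, h1,
    ← Fin.sum_univ_eq_sum_range]
  apply Finset.sum_congr rfl
  intro i _
  rw [Fintype.card_fin]

end Pool.Agent.H67Tern
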