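import Pool.Agent.H67Tern.N8

set_option autoImplicit false
set_option maxRecDepth 100000

namespace Pool.Agent.H67Tern.N8.N05

def w : List ℕ := [25, 21, 1, 1, 1, 1, 4, 3]

theorem r1 : [0].all (fun e => pairW 2097152 8 (wt w) L 1 e) = true := by decide +kernel

theorem r2 : [0, 1].all (fun e => pairW 2097152 8 (wt w) L 2 e) = true := by decide +kernel

theorem r3 : [0, 1].all (fun e => pairW 2097152 8 (wt w) L 3 e) = true := by decide +kernel

theorem r4 : [0, 1, 2, 3].all (fun e => pairW 2097152 8 (wt w) L 4 e) = true := by decide +kernel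

theorem r5 : [0, 1, 2, 3, 4].all (fun e => pairW 2097152 8 (wt w) L 5 e) = true := by decide +kernel

theorem r6 : [0, 1, 2, 3, 4, 5].all (fun e => pairW 2097152 8 (wt w) L 6 e) = true := by decide +kernel

theorem r7 : [0, 1, 2, 3, 4, 5, 6].all (fun e => pairW 2097152 8 (wt w) L 7 e) = true := by decide +kernel

theorem top : pairWT 2097152 8 (wt w) L 3 2 = true := by decide +kernel

theorem full : ∀ f < A.length, ∀ e < f, ¬ (e = 2 ∧ f = 3) →
    pairW 2097152 A.length (wt w) (baseList 4 A) f e = true := by
  intro f hf e he h
  rw [hL]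
  have hf' : f < 8 := hf
  change pairW 2097152 8 (wt w) L f e = true
  have h1 := List.all_eq_true.mp r1
  have h2 := List.all_eq_true.mp r2
  have h3 := List.all_eq_true.mp r3
  have h4 := List.all_eq_true.mp r4
  have h5 := List.all_eq_true.mp r5
  have h6 := List.all_eq_true.mp r6
  have h7 := List.all_eq_true.mp r7
  interval_cases f
  · omega
  · exact h1 e (by interval_cases e <;> decide)
  · exact h2 e (by interval_cases e <;> decide)
  · exact h3 e (by interval_cases e <;> first | decide | exact absurd ⟨rfl, rfl⟩ h)
  · exact h4 e (by interval_cases e <;> decide)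
  · exact h5 e (by interval_cases e <;> decide)
  · exact h6 e (by interval_cases e <;> decide)
  · exact h7 e (by interval_cases e <;> decide)

theorem excluded : ExcludedMinor (parExt (colMat 4 A) (fun i => wt w i)) := by
  refine excludedMinor_par hA (by rw [hL]; decide) (by decide) (by decide) (i0 := 2) (j0 := 3)
    (by decide) (by decide) (by decide) (by decide) full ?_ ?_
  · rw [hL]
    exact top
  · rw [hL]
    change PW 8 2 3 (wt w) L true false * PW 8 2 3 (wt w) L false true <
      PW 8 2 3 (wt w) L true true * PW 8 2 3 (wt w) L false false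
    decide +kernel

end Pool.Agent.H67Tern.N8.N05
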